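import Mathlib

/-!
The discrete X-ray transform of MP_4bc625_an.
-/

namespace Pool.Agent.H57.XR

/-- The Euclidean length of a lattice point. -/
noncomputable def len (x : ℤ × ℤ) : ℝ := Real.sqrt ((x.1 : ℝ) ^ 2 + (x.2 : ℝ) ^ 2)

/-- `y` is a lattice point of the line `gamma_z`: for `z ≠ 0` the line through `z` perpendicular
to `z`, for `z = 0` the line through `0` in the direction of `w`. -/
def OnLine (w z y : ℤ × ℤ) : Prop :=
  if z = 0 then y.1 * w.2 = y.2 * w.1 else z.1 * (y.1 - z.1) + z.2 * (y.2 - z.2) = 0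

/-- The discrete X-ray transform `P f (gamma_z)`. -/
noncomputable def xray (w : ℤ × ℤ) (f : ℤ × ℤ → ℂ) (z : ℤ × ℤ) : ℂ :=
  ∑' y : {y : ℤ × ℤ // OnLine w z y}, f y

/-- Rapidly decreasing functions. -/
def RapidlyDecreasing (f : ℤ × ℤ → ℂ) : Prop :=
  ∀ N : ℕ, ∃ C : ℝ, ∀ x, len x ^ N * ‖f x‖ ≤ C

/-- The uniqueness asked for in Q1, for one value of `α` (and the direction `w` of `gamma_0`):
a rapidly decreasing function with vanishing line sums on all `gamma_z`, `|z| ≥ α`, vanishes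
at all lattice points of length at least `α`. -/
def Uniqueness (w : ℤ × ℤ) (α : ℝ) : Prop :=
  ∀ f : ℤ × ℤ → ℂ, RapidlyDecreasing f → (∀ z, α ≤ len z → xray w f z = 0) →
    ∀ z, α ≤ len z → f z = 0

/-- The integer `|x|²`. -/
def nrm (x : ℤ × ℤ) : ℤ := x.1 ^ 2 + x.2 ^ 2

lemma nrm_nonneg (x : ℤ × ℤ) : 0 ≤ nrm x := by unfold nrm; positivity

lemma nrm_pos {x : ℤ × ℤ} (h : x ≠ 0) : 0 < nrm x := by
  rcases x with ⟨a, b⟩
  unfold nrm
  by_contra hc
  push_neg at hc
  have ha : a = 0 := by nlinarith [sq_nonneg a, sq_nonneg b]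
  have hb : b = 0 := by nlinarith [sq_nonneg a, sq_nonneg b]
  exact h (by simp [ha, hb])

lemma len_sq (x : ℤ × ℤ) : len x ^ 2 = (nrm x : ℝ) := by
  unfold len nrm
  rw [Real.sq_sqrt (by positivity)]
  push_cast; ring

lemma len_nonneg (x : ℤ × ℤ) : 0 ≤ len x := Real.sqrt_nonneg _

lemma len_le_len {x y : ℤ × ℤ} (h : nrm x ≤ nrm y) : len x ≤ len y := by
  unfold len
  apply Real.sqrt_le_sqrt
  have : ((nrm x : ℤ) : ℝ) ≤ (nrm y : ℤ) := by exact_mod_cast h
  unfold nrm at this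
  push_cast at this
  exact this

lemma onLine_self (w z : ℤ × ℤ) : OnLine w z z := by
  unfold OnLine
  split_ifs with h
  · simp [h]
  · simp

/-- Pythagoras on the line. -/
lemma nrm_add {z u : ℤ × ℤ} (h : z.1 * u.1 + z.2 * u.2 = 0) : nrm (z + u) = nrm z + nrm u := by
  unfold nrm
  simp only [Prod.fst_add, Prod.snd_add]
  linear_combination 2 * h

lemma onLine_nrm {w z y : ℤ × ℤ} (hy : OnLine w z y) (hne : y ≠ z) : nrm z < nrm y := by
  unfold OnLine at hy
  split_ifs at hy with h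
  · subst h
    have : nrm (0 : ℤ × ℤ) = 0 := by simp [nrm]
    rw [this]
    exact nrm_pos hne
  · have h1 := nrm_add (z := z) (u := y - z) (by simpa using hy)
    have h2 : 0 < nrm (y - z) := nrm_pos (sub_ne_zero.mpr hne)
    have h3 : z + (y - z) = y := by abel
    rw [h3] at h1
    omega

/-- The arithmetic inequality: two consecutive steps cannot both be short. -/
lemma two_steps {z u v : ℤ × ℤ} (hz : z.1 * u.1 + z.2 * u.2 = 0)
    (hv : (z + u).1 * v.1 + (z + u).2 * v.2 = 0) (hu0 : u ≠ 0) (hv0 : v ≠ 0) :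
    nrm (z + u) ≤ nrm u ^ 2 * nrm v := by
  have h1 : (z + u).1 * u.1 + (z + u).2 * u.2 = nrm u := by
    unfold nrm; simp only [Prod.fst_add, Prod.snd_add]; linear_combination hz
  have h2 : nrm (z + u) * (u.1 * v.2 - u.2 * v.1) ^ 2 = nrm u ^ 2 * nrm v := by
    rw [← h1]
    unfold nrm
    simp only [Prod.fst_add, Prod.snd_add] at hv ⊢
    set a := z.1 + u.1
    set b := z.2 + u.2
    linear_combination (-(a * u.1 + b * u.2) * (v.1 * u.1 + v.2 * u.2)
      - (a * u.1 + b * u.2) * (u.1 * v.1 + u.2 * v.2) + (a * v.1 + b * v.2) * (u.1 ^ 2 + u.2 ^ 2)) * hv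
  have h3 : 0 < nrm u ^ 2 * nrm v := by
    have := nrm_pos hu0
    have := nrm_pos hv0
    positivity
  have h4 : (u.1 * v.2 - u.2 * v.1) ≠ 0 := by
    intro h
    have h5 : nrm u ^ 2 * nrm v = 0 := by rw [← h2, h]; ring
    exact absurd h5 (ne_of_gt h3)
  have h5 : 1 ≤ (u.1 * v.2 - u.2 * v.1) ^ 2 := by
    have : 0 < (u.1 * v.2 - u.2 * v.1) ^ 2 := by positivity
    omega
  calc nrm (z + u) = nrm (z + u) * 1 := by ring
    _ ≤ nrm (z + u) * (u.1 * v.2 - u.2 * v.1) ^ 2 :=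
        mul_le_mul_of_nonneg_left h5 (nrm_nonneg _)
    _ = _ := h2

end Pool.Agent.H57.XR
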