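import Mathlib
import Pool.Agent.H57.XR.Def

/-!
Analytic lemmas for the discrete X-ray transform: the gain of two steps, summability.
-/

namespace Pool.Agent.H57.XR

open Real

/-- The gain of the weight in two steps. -/
lemma gain {β n s : ℝ} (hβ0 : 0 < β) (hβ1 : β ≤ 1) (hn : 0 < n) (hs : 1 ≤ s) (hns : n ≤ s ^ 3) :
    n ^ β + β * 2 ^ (β - 1) * s ^ (3 * β - 2) ≤ (n + s) ^ β := by
  have hX : 0 < n + s := by linarith
  have hs0 : 0 < s := by linarith
  have h1 : n = (n + s) * (1 + -(s / (n + s))) := by field_simp; ring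
  have hτ : -1 ≤ -(s / (n + s)) := by
    rw [neg_le_neg_iff, div_le_one hX]; linarith
  have h2 := rpow_one_add_le_one_add_mul_self hτ hβ0.le hβ1
  have h3 : n ^ β ≤ (n + s) ^ β * (1 + β * -(s / (n + s))) := by
    calc n ^ β = ((n + s) * (1 + -(s / (n + s)))) ^ β := by rw [← h1]
      _ = (n + s) ^ β * (1 + -(s / (n + s))) ^ β :=
          mul_rpow hX.le (by linarith)
      _ ≤ _ := mul_le_mul_of_nonneg_left h2 (rpow_nonneg hX.le _)
  have h4 : (n + s) ^ β * (1 + β * -(s / (n + s))) = (n + s) ^ β - β * (s * (n + s) ^ (β - 1)) := by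
    rw [rpow_sub_one hX.ne']; field_simp; ring
  have h5 : n + s ≤ 2 * s ^ 3 := by
    have : s ≤ s ^ 3 := by nlinarith [sq_nonneg (s - 1), mul_pos hs0 hs0]
    linarith
  have h6 : (2 * s ^ 3) ^ (β - 1) ≤ (n + s) ^ (β - 1) :=
    rpow_le_rpow_of_nonpos hX h5 (by linarith)
  have h7 : s * (2 * s ^ 3) ^ (β - 1) = 2 ^ (β - 1) * s ^ (3 * β - 2) := by
    rw [mul_rpow (by norm_num) (by positivity), ← rpow_natCast s 3, ← rpow_mul hs0.le]
    have : s ^ (3 * β - 2) = s * s ^ (((3 : ℕ) : ℝ) * (β - 1)) := by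
      have e : 3 * β - 2 = 1 + ((3 : ℕ) : ℝ) * (β - 1) := by push_cast; ring
      rw [e, rpow_add hs0, rpow_one]
    rw [this]; ring
  have h8 : 2 ^ (β - 1) * s ^ (3 * β - 2) ≤ s * (n + s) ^ (β - 1) := by
    rw [← h7]; exact mul_le_mul_of_nonneg_left h6 hs0.le
  have h9 : β * (2 ^ (β - 1) * s ^ (3 * β - 2)) ≤ β * (s * (n + s) ^ (β - 1)) :=
    mul_le_mul_of_nonneg_left h8 hβ0.le
  rw [h4] at h3
  nlinarith [h3, h9]

/-- A summable majorant on the lattice. -/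
lemma summable_base : Summable (fun x : ℤ × ℤ => 1 / ((1 + (nrm x : ℝ)) ^ 2)) := by
  have h1 : Summable (fun a : ℤ => 1 / (1 + (a : ℝ) ^ 2)) := by
    have h2 : Summable (fun a : ℤ => 2 * (1 / (|(a : ℝ)| ^ 2 : ℝ))) := by
      have := (Real.summable_one_div_int_pow (p := 2)).mpr (by norm_num)
      simp only [sq_abs]
      exact this.mul_left 2
    refine Summable.of_norm_bounded_eventually (g := fun a : ℤ => 2 * (1 / (|(a : ℝ)| ^ 2 : ℝ))) h2 ?_
    have : ({0}ᶜ : Set ℤ) ∈ (Filter.cofinite : Filter ℤ) :=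
      (Set.finite_singleton (0 : ℤ)).compl_mem_cofinite
    filter_upwards [this] with a ha
    have ha' : a ≠ 0 := by simpa using ha
    have hpos : (0 : ℝ) < (a : ℝ) ^ 2 := by
      have : (a : ℝ) ≠ 0 := by exact_mod_cast ha'
      positivity
    rw [Real.norm_of_nonneg (by positivity), sq_abs]
    rw [div_le_iff₀ (by positivity)]
    rw [mul_one_div, div_mul_eq_mul_div, le_div_iff₀ hpos]
    nlinarith
  have h3 := h1.mul_of_nonneg h1 (fun a => by positivity) (fun a => by positivity)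
  refine Summable.of_nonneg_of_le (fun x => by positivity) (fun x => ?_) h3
  have e : (nrm x : ℝ) = (x.1 : ℝ) ^ 2 + (x.2 : ℝ) ^ 2 := by unfold nrm; push_cast; ring
  rw [e, one_div_mul_one_div]
  apply one_div_le_one_div_of_le (by positivity)
  nlinarith [sq_nonneg (x.1 : ℝ), sq_nonneg (x.2 : ℝ), mul_nonneg (sq_nonneg (x.1 : ℝ)) (sq_nonneg (x.2 : ℝ))]

lemma summable_of_decay {f : ℤ × ℤ → ℂ} {C : ℝ}
    (h : ∀ x, (1 + (nrm x : ℝ)) ^ 2 * ‖f x‖ ≤ C) : Summable f := by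
  have h1 : Summable (fun x : ℤ × ℤ => C * (1 / ((1 + (nrm x : ℝ)) ^ 2))) :=
    summable_base.mul_left C
  refine Summable.of_norm_bounded h1 (fun x => ?_)
  have hp : 0 < (1 + (nrm x : ℝ)) ^ 2 := by
    have : (0 : ℝ) ≤ nrm x := by exact_mod_cast nrm_nonneg x
    positivity
  rw [mul_one_div, le_div_iff₀ hp, mul_comm]
  exact h x

lemma RapidlyDecreasing.summable {f : ℤ × ℤ → ℂ} (hf : RapidlyDecreasing f) : Summable f := by
  obtain ⟨C0, h0⟩ := hf 0
  obtain ⟨C4, h4⟩ := hf 4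
  refine summable_of_decay (C := 2 * C0 + 2 * C4) (fun x => ?_)
  have e : len x ^ 4 = (nrm x : ℝ) ^ 2 := by
    have := len_sq x
    calc len x ^ 4 = (len x ^ 2) ^ 2 := by ring
      _ = _ := by rw [this]
  have a0 := h0 x
  have a4 := h4 x
  rw [e] at a4
  simp only [pow_zero, one_mul] at a0
  have hn : (0 : ℝ) ≤ ‖f x‖ := norm_nonneg _
  have key : (1 + (nrm x : ℝ)) ^ 2 ≤ 2 + 2 * (nrm x : ℝ) ^ 2 := by
    nlinarith [sq_nonneg ((nrm x : ℝ) - 1)]
  nlinarith [mul_le_mul_of_nonneg_right key hn]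

/-- `exp (- κ t ^ γ)` decays faster than any power. -/
lemma exp_decay {κ γ : ℝ} (hκ : 0 < κ) (hγ : 0 < γ) :
    ∃ C : ℝ, ∀ t : ℝ, 0 ≤ t → (1 + t) ^ 2 * exp (-(κ * t ^ γ)) ≤ C := by
  obtain ⟨m, hm⟩ := exists_nat_gt (2 / γ)
  refine ⟨4 + 4 * (m.factorial * (κ ^ m)⁻¹), fun t ht => ?_⟩
  have hfac : 0 ≤ (m.factorial : ℝ) * (κ ^ m)⁻¹ := by positivity
  rcases le_total t 1 with h | h
  · have h1 : exp (-(κ * t ^ γ)) ≤ 1 := by
      rw [exp_le_one_iff]
      have : 0 ≤ κ * t ^ γ := by positivity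
      linarith
    have h2 : (1 + t) ^ 2 ≤ 4 := by nlinarith
    have h3 : 0 ≤ exp (-(κ * t ^ γ)) := (exp_pos _).le
    nlinarith [mul_le_mul h2 h1 h3 (by norm_num)]
  · have ht0 : 0 < t := by linarith
    have h1 : (κ * t ^ γ) ^ m / m.factorial ≤ exp (κ * t ^ γ) :=
      pow_div_factorial_le_exp _ (by positivity) m
    have h2 : t ^ (2 : ℝ) ≤ (t ^ γ) ^ m := by
      rw [← rpow_natCast (t ^ γ) m, ← rpow_mul ht0.le]
      apply rpow_le_rpow_of_exponent_le h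
      have := (div_lt_iff₀ hγ).mp hm
      linarith [mul_comm γ (m : ℝ)]
    have h3 : t ^ (2 : ℝ) = t ^ 2 := by
      rw [← rpow_natCast t 2]; norm_num
    rw [h3] at h2
    rw [exp_neg]
    have h4 : (1 + t) ^ 2 ≤ 4 * t ^ 2 := by nlinarith
    have h5 : (κ ^ m * t ^ 2) / m.factorial ≤ exp (κ * t ^ γ) := by
      refine le_trans ?_ h1
      rw [mul_pow]
      apply div_le_div_of_nonneg_right _ (by positivity)
      exact mul_le_mul_of_nonneg_left h2 (by positivity)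
    have hpos : 0 < (κ ^ m * t ^ 2) / m.factorial := by positivity
    have h6 : (exp (κ * t ^ γ))⁻¹ ≤ ((κ ^ m * t ^ 2) / m.factorial)⁻¹ :=
      inv_anti₀ hpos h5
    calc (1 + t) ^ 2 * (exp (κ * t ^ γ))⁻¹ ≤ (4 * t ^ 2) * ((κ ^ m * t ^ 2) / m.factorial)⁻¹ :=
          mul_le_mul h4 h6 (by positivity) (by positivity)
      _ = 4 * (m.factorial * (κ ^ m)⁻¹) := by field_simp
      _ ≤ _ := by linarith

lemma summable_exp {κ γ : ℝ} (hκ : 0 < κ) (hγ : 0 < γ) :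
    Summable (fun x : ℤ × ℤ => exp (-(κ * (nrm x : ℝ) ^ γ))) := by
  obtain ⟨C, hC⟩ := exp_decay hκ hγ
  have h1 : Summable (fun x : ℤ × ℤ => C * (1 / ((1 + (nrm x : ℝ)) ^ 2))) :=
    summable_base.mul_left C
  refine Summable.of_nonneg_of_le (fun x => (exp_pos _).le) (fun x => ?_) h1
  have h0 : (0 : ℝ) ≤ nrm x := by exact_mod_cast nrm_nonneg x
  have hp : 0 < (1 + (nrm x : ℝ)) ^ 2 := by positivity
  rw [mul_one_div, le_div_iff₀ hp, mul_comm]
  exact hC _ h0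

end Pool.Agent.H57.XR
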