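import Mathlib
import Pool.Agent.H57.XR.Def
import Pool.Agent.H57.XR.Ana

/-!
Uniqueness for functions with decay `exp (- c |x| ^ b)`, `b > 4/3`.
-/

namespace Pool.Agent.H57.XR

open Real

/-- The steps along the line with foot `z`. -/
def Step (z : ℤ × ℤ) : Set (ℤ × ℤ) := {u | z.1 * u.1 + z.2 * u.2 = 0 ∧ u ≠ 0}

lemma row_bound {f : ℤ × ℤ → ℂ} (hf : Summable f) {w z : ℤ × ℤ} (hz : z ≠ 0)
    (hx : xray w f z = 0) :
    ‖f z‖ₑ ≤ ∑' u : ℤ × ℤ, (Step z).indicator (fun u => ‖f (z + u)‖ₑ) u := by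
  classical
  have e1 : xray w f z = ∑' y, ({y | OnLine w z y}).indicator f y := tsum_subtype _ _
  set F := ({y | OnLine w z y}).indicator f with hFdef
  have hF : Summable F := hf.indicator _
  have e2 : ∑' y, F y = F z + ∑' y, (if y = z then 0 else F y) := hF.tsum_eq_add_tsum_ite z
  have e3 : F z = f z := by
    rw [hFdef, Set.indicator_of_mem]
    exact onLine_self w z
  have e4 : f z = - ∑' y, (if y = z then 0 else F y) := by
    rw [hx] at e1
    rw [e2, e3] at e1
    linear_combination -e1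
  calc ‖f z‖ₑ = ‖∑' y, (if y = z then 0 else F y)‖ₑ := by rw [e4, enorm_neg]
    _ ≤ ∑' y, ‖(if y = z then 0 else F y)‖ₑ := enorm_tsum_le_tsum_enorm
    _ = ∑' u, ‖(if z + u = z then 0 else F (z + u))‖ₑ :=
        ((Equiv.addLeft z).tsum_eq (fun y => ‖(if y = z then 0 else F y)‖ₑ)).symm
    _ = _ := by
        apply tsum_congr
        intro u
        by_cases hu : u = 0
        · subst hu
          simp [Step]
        · have h1 : z + u ≠ z := by simpa using hu
          rw [if_neg h1]
          by_cases h2 : z.1 * u.1 + z.2 * u.2 = 0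
          · rw [Set.indicator_of_mem (show u ∈ Step z from ⟨h2, hu⟩), hFdef,
              Set.indicator_of_mem]
            show OnLine w z (z + u)
            unfold OnLine
            rw [if_neg hz]
            simpa using h2
          · rw [Set.indicator_of_notMem (fun h => h2 h.1), hFdef, Set.indicator_of_notMem]
            · simp
            · intro h
              apply h2
              have h3 : OnLine w z (z + u) := h
              unfold OnLine at h3
              rw [if_neg hz] at h3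
              simpa using h3

/-- The weight. -/
noncomputable def phi (c β : ℝ) (x : ℤ × ℤ) : ℝ := exp (-(c * (nrm x : ℝ) ^ β))

lemma phi_pos (c β : ℝ) (x : ℤ × ℤ) : 0 < phi c β x := exp_pos _

lemma phi_step {c β : ℝ} (hc : 0 < c) (hβ : 2 / 3 < β) (hβ1 : β ≤ 1) {z u v : ℤ × ℤ}
    (hz0 : z ≠ 0) (hu : u ∈ Step z) (hv : v ∈ Step (z + u)) :
    phi c β (z + u + v) ≤ phi c β z * (phi (c * β * 2 ^ (β - 1) / 3) ((3 * β - 2) / 3) z *
      (phi (c * β * 2 ^ (β - 1) / 3) (3 * β - 2) u *
        phi (c * β * 2 ^ (β - 1) / 3) (3 * β - 2) v)) := by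
  obtain ⟨hu1, hu0⟩ := hu
  obtain ⟨hv1, hv0⟩ := hv
  have hγ : 0 < 3 * β - 2 := by linarith
  set κ := c * β * 2 ^ (β - 1) / 3 with hκ
  have hκ0 : 0 < κ := by rw [hκ]; positivity
  have i1 : nrm (z + u) = nrm z + nrm u := nrm_add hu1
  have i2 : nrm (z + u + v) = nrm (z + u) + nrm v := nrm_add hv1
  have i3 := two_steps hu1 hv1 hu0 hv0
  have hn : (0 : ℝ) < nrm z := by exact_mod_cast nrm_pos hz0
  have hp : (1 : ℝ) ≤ nrm u := by exact_mod_cast nrm_pos hu0
  have hq : (1 : ℝ) ≤ nrm v := by exact_mod_cast nrm_pos hv0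
  have j1 : (nrm (z + u + v) : ℝ) = nrm z + (nrm u + nrm v) := by rw [i2, i1]; push_cast; ring
  have j3 : (nrm z : ℝ) ≤ (nrm u : ℝ) ^ 2 * nrm v := by
    have h : (nrm (z + u) : ℝ) ≤ (nrm u : ℝ) ^ 2 * nrm v := by exact_mod_cast i3
    rw [i1] at h
    push_cast at h
    linarith
  have j4 : (nrm z : ℝ) ≤ ((nrm u : ℝ) + nrm v) ^ 3 := by
    refine le_trans j3 ?_
    have hp0 : (0 : ℝ) ≤ nrm u := by linarith
    have hq0 : (0 : ℝ) ≤ nrm v := by linarith
    have : (nrm u : ℝ) ^ 2 ≤ ((nrm u : ℝ) + nrm v) ^ 2 := by nlinarith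
    calc (nrm u : ℝ) ^ 2 * nrm v ≤ ((nrm u : ℝ) + nrm v) ^ 2 * ((nrm u : ℝ) + nrm v) := by
          apply mul_le_mul this (by linarith) hq0 (by positivity)
      _ = _ := by ring
  set n : ℝ := ((nrm z : ℤ) : ℝ) with hndef
  set p : ℝ := ((nrm u : ℤ) : ℝ) with hpdef
  set q : ℝ := ((nrm v : ℤ) : ℝ) with hqdef
  have hs : 1 ≤ p + q := by linarith
  have g := gain (β := β) (by linarith) hβ1 hn hs j4
  have k1 : n ^ ((3 * β - 2) / 3) ≤ (p + q) ^ (3 * β - 2) := by
    calc n ^ ((3 * β - 2) / 3) ≤ ((p + q) ^ 3) ^ ((3 * β - 2) / 3) :=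
          rpow_le_rpow hn.le j4 (by linarith)
      _ = _ := by
        rw [← rpow_natCast (p + q) 3, ← Real.rpow_mul (by linarith)]
        congr 1; push_cast; ring
  have k2 : p ^ (3 * β - 2) ≤ (p + q) ^ (3 * β - 2) :=
    rpow_le_rpow (by linarith) (by linarith) hγ.le
  have k3 : q ^ (3 * β - 2) ≤ (p + q) ^ (3 * β - 2) :=
    rpow_le_rpow (by linarith) (by linarith) hγ.le
  unfold phi
  rw [← exp_add, ← exp_add, ← exp_add, exp_le_exp, j1]
  have g2 : c * (n ^ β + β * 2 ^ (β - 1) * (p + q) ^ (3 * β - 2)) ≤ c * (n + (p + q)) ^ β :=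
    mul_le_mul_of_nonneg_left g hc.le
  have g3 : c * (β * 2 ^ (β - 1) * (p + q) ^ (3 * β - 2)) = κ * (3 * (p + q) ^ (3 * β - 2)) := by
    rw [hκ]; ring
  have g4 : κ * (n ^ ((3 * β - 2) / 3) + p ^ (3 * β - 2) + q ^ (3 * β - 2)) ≤
      κ * (3 * (p + q) ^ (3 * β - 2)) := by
    apply mul_le_mul_of_nonneg_left _ hκ0.le
    linarith
  nlinarith [g2, g3, g4]

/-- One contraction. -/
lemma contraction {c β : ℝ} (hc : 0 < c) (hβ : 2 / 3 < β) (hβ1 : β ≤ 1)
    {f : ℤ × ℤ → ℂ} (hf : Summable f) {w : ℤ × ℤ} {α : ℝ}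
    (hx : ∀ z, α ≤ len z → xray w f z = 0) {S : ℝ}
    (hS : S = ∑' x : ℤ × ℤ, phi (c * β * 2 ^ (β - 1) / 3) (3 * β - 2) x) {B : ℤ} (hB : 1 ≤ B)
    (hsmall : ∀ z, B ≤ nrm z →
      phi (c * β * 2 ^ (β - 1) / 3) ((3 * β - 2) / 3) z * (S * S) ≤ 1 / 2)
    {A : ℝ} (hA : 0 ≤ A) (hb : ∀ z, α ≤ len z → B ≤ nrm z → ‖f z‖ ≤ A * phi c β z) :
    ∀ z, α ≤ len z → B ≤ nrm z → ‖f z‖ ≤ (A / 2) * phi c β z := by
  intro z hz hzB
  set κ := c * β * 2 ^ (β - 1) / 3 with hκ
  have hκ0 : 0 < κ := by rw [hκ]; have : 0 < β := by linarith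
                         positivity
  set γ := 3 * β - 2 with hγ
  have hγ0 : 0 < γ := by rw [hγ]; linarith
  have hSsum : Summable (fun x : ℤ × ℤ => phi κ γ x) := summable_exp hκ0 hγ0
  have hS0 : 0 ≤ S := by rw [hS]; exact tsum_nonneg (fun x => (phi_pos _ _ _).le)
  have hSe : ∑' x : ℤ × ℤ, ENNReal.ofReal (phi κ γ x) = ENNReal.ofReal S := by
    rw [hS]; exact (ENNReal.ofReal_tsum_of_nonneg (fun x => (phi_pos _ _ _).le) hSsum).symm
  have hz0 : z ≠ 0 := by
    intro h; subst h
    simp [nrm] at hzB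
    omega
  set K : ℝ := A * (phi c β z * phi κ (γ / 3) z) with hK
  have hK0 : 0 ≤ K := by
    rw [hK]; exact mul_nonneg hA (mul_nonneg (phi_pos _ _ _).le (phi_pos _ _ _).le)
  have h1 : ‖f z‖ₑ ≤ ENNReal.ofReal (K * (S * S)) := by
    calc ‖f z‖ₑ ≤ ∑' u : ℤ × ℤ, (Step z).indicator (fun u => ‖f (z + u)‖ₑ) u :=
          row_bound hf hz0 (hx z hz)
      _ ≤ ∑' u : ℤ × ℤ, ENNReal.ofReal (K * phi κ γ u) * ENNReal.ofReal S := by
          apply ENNReal.tsum_le_tsum
          intro u
          by_cases hu : u ∈ Step z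
          · rw [Set.indicator_of_mem hu]
            have i1 : nrm (z + u) = nrm z + nrm u := nrm_add hu.1
            have i2 := nrm_pos hu.2
            have hy0 : z + u ≠ 0 := by
              intro h
              have := nrm_pos hz0
              have h2 : nrm (z + u) = 0 := by rw [h]; simp [nrm]
              omega
            have hylen : α ≤ len (z + u) := le_trans hz (len_le_len (by omega))
            calc ‖f (z + u)‖ₑ ≤ ∑' v : ℤ × ℤ, (Step (z + u)).indicator
                  (fun v => ‖f (z + u + v)‖ₑ) v := row_bound hf hy0 (hx _ hylen)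
              _ ≤ ∑' v : ℤ × ℤ, ENNReal.ofReal (K * phi κ γ u) * ENNReal.ofReal (phi κ γ v) := by
                  apply ENNReal.tsum_le_tsum
                  intro v
                  by_cases hv : v ∈ Step (z + u)
                  · rw [Set.indicator_of_mem hv]
                    have j1 : nrm (z + u + v) = nrm (z + u) + nrm v := nrm_add hv.1
                    have j2 := nrm_pos hv.2
                    have hxlen : α ≤ len (z + u + v) := le_trans hylen (len_le_len (by omega))
                    have hbb := hb _ hxlen (by omega)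
                    have hps := phi_step hc hβ hβ1 hz0 hu hv
                    rw [← ENNReal.ofReal_mul (mul_nonneg hK0 (phi_pos _ _ _).le),
                      ← ofReal_norm]
                    apply ENNReal.ofReal_le_ofReal
                    calc ‖f (z + u + v)‖ ≤ A * phi c β (z + u + v) := hbb
                      _ ≤ A * (phi c β z * (phi κ (γ / 3) z * (phi κ γ u * phi κ γ v))) :=
                          mul_le_mul_of_nonneg_left hps hA
                      _ = K * phi κ γ u * phi κ γ v := by rw [hK]; ring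
                  · rw [Set.indicator_of_notMem hv]; exact zero_le
              _ = ENNReal.ofReal (K * phi κ γ u) * ENNReal.ofReal S := by
                  rw [ENNReal.tsum_mul_left, hSe]
          · rw [Set.indicator_of_notMem hu]; exact zero_le
      _ = ENNReal.ofReal (K * (S * S)) := by
          rw [ENNReal.tsum_mul_right]
          have : ∀ u : ℤ × ℤ, ENNReal.ofReal (K * phi κ γ u) =
              ENNReal.ofReal K * ENNReal.ofReal (phi κ γ u) := fun u => ENNReal.ofReal_mul hK0
          simp_rw [this]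
          rw [ENNReal.tsum_mul_left, hSe, ← ENNReal.ofReal_mul hK0,
            ← ENNReal.ofReal_mul (mul_nonneg hK0 hS0)]
          congr 1; ring
  have h2 : ‖f z‖ ≤ K * (S * S) := by
    rw [← ofReal_norm, ENNReal.ofReal_le_ofReal_iff (by positivity)] at h1
    exact h1
  refine le_trans h2 ?_
  have h3 := hsmall z hzB
  have h4 : 0 ≤ A * phi c β z := mul_nonneg hA (phi_pos _ _ _).le
  calc K * (S * S) = (A * phi c β z) * (phi κ (γ / 3) z * (S * S)) := by rw [hK]; ring
    _ ≤ (A * phi c β z) * (1 / 2) := mul_le_mul_of_nonneg_left h3 h4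
    _ = _ := by ring

/-- Descent towards the origin. -/
lemma descent {f : ℤ × ℤ → ℂ} {w : ℤ × ℤ} {α : ℝ} (hx : ∀ z, α ≤ len z → xray w f z = 0)
    {B : ℤ} (hB : ∀ z, α ≤ len z → B ≤ nrm z → f z = 0) : ∀ z, α ≤ len z → f z = 0 := by
  have key : ∀ m : ℕ, ∀ z, α ≤ len z → B - m ≤ nrm z → f z = 0 := by
    intro m
    induction m with
    | zero => intro z hz hm; exact hB z hz (by simpa using hm)
    | succ m ih =>
      intro z hz hm
      have h1 := hx z hz
      unfold xray at h1
      rw [tsum_eq_single (⟨z, onLine_self w z⟩ : {y // OnLine w z y})] at h1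
      · exact h1
      · rintro ⟨y, hy⟩ hne
        have hne' : y ≠ z := fun h => hne (Subtype.ext h)
        have h2 := onLine_nrm hy hne'
        apply ih y (le_trans hz (len_le_len h2.le))
        push_cast at hm
        omega
  intro z hz
  apply key (B - nrm z).toNat z hz
  have : B - nrm z ≤ ((B - nrm z).toNat : ℤ) := Int.self_le_toNat _
  omega

end Pool.Agent.H57.XR
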