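import Mathlib
import Pool.Agent.H57.XR.Def
import Pool.Agent.H57.XR.Ana
import Pool.Agent.H57.XR.Uni

/-!
The answer to Q1 does not depend on `α`.
-/

namespace Pool.Agent.H57.XR

open Real

lemma le_len_iff {α : ℝ} (hα : 0 ≤ α) (z : ℤ × ℤ) : α ≤ len z ↔ ⌈α ^ 2⌉ ≤ nrm z := by
  rw [Int.ceil_le, ← len_sq]
  exact (sq_le_sq₀ hα (len_nonneg z)).symm

lemma finite_nrm (L : ℤ) : {z : ℤ × ℤ | nrm z = L}.Finite := by
  apply ((Set.finite_Icc (-L) L).prod (Set.finite_Icc (-L) L)).subset
  rintro ⟨a, b⟩ h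
  simp only [Set.mem_setOf_eq, nrm] at h
  have h1 : a ≤ a ^ 2 := by nlinarith [sq_nonneg a, sq_nonneg (a - 1), Int.le_self_sq a]
  have h2 : b ≤ b ^ 2 := Int.le_self_sq b
  have h3 : -a ≤ a ^ 2 := by have := Int.le_self_sq (-a); simpa using this
  have h4 : -b ≤ b ^ 2 := by have := Int.le_self_sq (-b); simpa using this
  have h5 := sq_nonneg a
  have h6 := sq_nonneg b
  simp only [Set.mem_prod, Set.mem_Icc]
  refine ⟨⟨by linarith, by linarith⟩, ⟨by linarith, by linarith⟩⟩

lemma RapidlyDecreasing.sub_finite {g h : ℤ × ℤ → ℂ} (hg : RapidlyDecreasing g)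
    {s : Set (ℤ × ℤ)} (hs : s.Finite) (hh : ∀ x, x ∉ s → h x = 0) :
    RapidlyDecreasing (fun x => g x - h x) := by
  intro N
  obtain ⟨C, hC⟩ := hg N
  obtain ⟨D, hD⟩ := (hs.image (fun x => len x ^ N * ‖h x‖)).bddAbove
  refine ⟨C + max D 0, fun x => ?_⟩
  have h0 : 0 ≤ len x ^ N := pow_nonneg (len_nonneg x) N
  have h1 : len x ^ N * ‖h x‖ ≤ max D 0 := by
    by_cases hx : x ∈ s
    · exact le_trans (hD (Set.mem_image_of_mem _ hx)) (le_max_left _ _)
    · rw [hh x hx]; simp
  calc len x ^ N * ‖g x - h x‖ ≤ len x ^ N * (‖g x‖ + ‖h x‖) :=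
        mul_le_mul_of_nonneg_left (norm_sub_le _ _) h0
    _ = len x ^ N * ‖g x‖ + len x ^ N * ‖h x‖ := by ring
    _ ≤ _ := add_le_add (hC x) h1

/-- One step of the extension towards the origin. -/
lemma extend_step {w : ℤ × ℤ} {g : ℤ × ℤ → ℂ} (hg : RapidlyDecreasing g) {L : ℤ}
    (hx : ∀ z, L ≤ nrm z → xray w g z = 0) :
    ∃ g' : ℤ × ℤ → ℂ, RapidlyDecreasing g' ∧ (∀ z, L ≤ nrm z → g' z = g z) ∧
      ∀ z, L - 1 ≤ nrm z → xray w g' z = 0 := by
  classical
  let h : ℤ × ℤ → ℂ := fun z => if nrm z = L - 1 then xray w g z else 0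
  refine ⟨fun z => g z - h z, ?_, ?_, ?_⟩
  · refine hg.sub_finite (finite_nrm (L - 1)) (fun x hx' => ?_)
    exact if_neg hx'
  · intro z hz
    show g z - h z = g z
    have : h z = 0 := if_neg (by omega)
    rw [this, sub_zero]
  · intro z hz
    rcases eq_or_lt_of_le hz with he | hlt
    · have hs : Summable (fun y : {y : ℤ × ℤ // OnLine w z y} => g y) :=
        hg.summable.subtype _
      have h1 : ∀ y : {y : ℤ × ℤ // OnLine w z y},
          h y = if y = ⟨z, onLine_self w z⟩ then xray w g z else 0 := by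
        rintro ⟨y, hy⟩
        by_cases hyz : y = z
        · subst hyz
          simp only [if_true]
          exact if_pos he.symm
        · have h2 := onLine_nrm hy hyz
          have h3 : (⟨y, hy⟩ : {y : ℤ × ℤ // OnLine w z y}) ≠ ⟨z, onLine_self w z⟩ :=
            fun hc => hyz (congrArg Subtype.val hc)
          rw [if_neg h3]
          exact if_neg (by show nrm y ≠ L - 1; omega)
      have hs2 : Summable (fun y : {y : ℤ × ℤ // OnLine w z y} => h y) := by
        simp_rw [h1]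
        exact (hasSum_ite_eq _ _).summable
      unfold xray
      rw [hs.tsum_sub hs2]
      have h4 : ∑' y : {y : ℤ × ℤ // OnLine w z y}, h y = xray w g z := by
        simp_rw [h1]
        exact tsum_ite_eq _ _
      rw [h4]
      show xray w g z - xray w g z = 0
      ring
    · have h5 : xray w (fun z => g z - h z) z = xray w g z := by
        unfold xray
        apply tsum_congr
        rintro ⟨y, hy⟩
        have h6 : nrm z ≤ nrm y := by
          by_cases hyz : y = z
          · rw [hyz]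
          · exact (onLine_nrm hy hyz).le
        show g y - h y = g y
        have : h y = 0 := if_neg (by omega)
        rw [this, sub_zero]
      rw [h5]
      exact hx z (by omega)

lemma extend {w : ℤ × ℤ} {f : ℤ × ℤ → ℂ} (hf : RapidlyDecreasing f) {B : ℤ}
    (hx : ∀ z, B ≤ nrm z → xray w f z = 0) (m : ℕ) :
    ∃ g : ℤ × ℤ → ℂ, RapidlyDecreasing g ∧ (∀ z, B ≤ nrm z → g z = f z) ∧
      ∀ z, B - m ≤ nrm z → xray w g z = 0 := by
  induction m with
  | zero => exact ⟨f, hf, fun _ _ => rfl, fun z hz => hx z (by simpa using hz)⟩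
  | succ m ih =>
    obtain ⟨g, hg, hgf, hgx⟩ := ih
    obtain ⟨g', hg', h1, h2⟩ := extend_step hg hgx
    refine ⟨g', hg', fun z hz => ?_, fun z hz => h2 z (by push_cast at hz; omega)⟩
    rw [h1 z (by omega), hgf z hz]

theorem uniqueness_of_uniqueness {w : ℤ × ℤ} {α β : ℝ} (hα : 0 ≤ α) (hβ : 0 ≤ β)
    (h : Uniqueness w α) : Uniqueness w β := by
  intro f hf hx z hz
  rcases le_total β α with hle | hle
  · have h1 := h f hf (fun z hz => hx z (le_trans hle hz))
    exact descent hx (B := ⌈α ^ 2⌉)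
      (fun z _ hzB => h1 z ((le_len_iff hα z).mpr hzB)) z hz
  · obtain ⟨g, hg, hgf, hgx⟩ := extend hf (B := ⌈β ^ 2⌉)
      (fun z hz => hx z ((le_len_iff hβ z).mpr hz)) (⌈β ^ 2⌉).toNat
    have h1 := h g hg (fun z _ => hgx z (by
      have h2 := nrm_nonneg z
      have h3 : ⌈β ^ 2⌉ ≤ ((⌈β ^ 2⌉).toNat : ℤ) := Int.self_le_toNat _
      omega)) z (le_trans hle hz)
    rw [← hgf z ((le_len_iff hβ z).mp hz)]
    exact h1

lemma xray_dir {w w' z : ℤ × ℤ} (hz : z ≠ 0) (f : ℤ × ℤ → ℂ) : xray w f z = xray w' f z := by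
  have : ∀ y, OnLine w z y ↔ OnLine w' z y := by
    intro y; unfold OnLine; rw [if_neg hz, if_neg hz]
  have e : {y : ℤ × ℤ | OnLine w z y} = {y : ℤ × ℤ | OnLine w' z y} := by
    ext y; exact this y
  have h1 : xray w f z = ∑' y, ({y | OnLine w z y}).indicator f y := tsum_subtype _ _
  have h2 : xray w' f z = ∑' y, ({y | OnLine w' z y}).indicator f y := tsum_subtype _ _
  rw [h1, h2, e]

theorem uniqueness_iff {w w' : ℤ × ℤ} {α β : ℝ} (hα : 0 ≤ α) (hβ : 0 ≤ β) :
    Uniqueness w α ↔ Uniqueness w' β := by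
  have key : ∀ w w' : ℤ × ℤ, Uniqueness w 1 → Uniqueness w' 1 := by
    intro w w' h f hf hx z hz
    refine h f hf (fun z hz => ?_) z hz
    have hz0 : z ≠ 0 := by
      intro h0
      subst h0
      have h1 : len (0 : ℤ × ℤ) = 0 := by simp [len]
      rw [h1] at hz
      linarith
    rw [xray_dir (w' := w') hz0]
    exact hx z hz
  constructor
  · intro h
    exact uniqueness_of_uniqueness zero_le_one hβ
      (key w w' (uniqueness_of_uniqueness hα zero_le_one h))
  · intro h
    exact uniqueness_of_uniqueness zero_le_one hα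
      (key w' w (uniqueness_of_uniqueness hβ zero_le_one h))

end Pool.Agent.H57.XR
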