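import Mathlib
import Pool.Agent.H57.XR.Def
import Pool.Agent.H92.DivBound

/-!
Counting the lattice points with one short step in and one short step out.
-/

namespace Pool.Agent.H57.XR

open Finset

/-- The scalar product. -/
def dot (x y : ℤ × ℤ) : ℤ := x.1 * y.1 + x.2 * y.2

/-- The square box of side `2 R`. -/
noncomputable def box (R : ℕ) : Finset (ℤ × ℤ) := Icc (-(R : ℤ)) R ×ˢ Icc (-(R : ℤ)) R

lemma mem_box {R : ℕ} {x : ℤ × ℤ} : x ∈ box R ↔ x.1.natAbs ≤ R ∧ x.2.natAbs ≤ R := by
  unfold box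
  rw [mem_product, mem_Icc, mem_Icc]
  omega

/-- Integers of a residue class in an interval. -/
lemma card_res {R m : ℕ} (hm : 0 < m) (A : Finset ℤ) (hA : ∀ x ∈ A, x.natAbs ≤ R)
    (hd : ∀ x ∈ A, ∀ y ∈ A, (m : ℤ) ∣ x - y) : A.card ≤ 2 * R / m + 1 := by
  rw [← card_range (2 * R / m + 1)]
  apply card_le_card_of_injOn (fun x : ℤ => ((x + (R : ℤ)).toNat / m))
  · intro x hx
    rw [mem_coe, mem_range, Nat.lt_succ_iff]
    apply Nat.div_le_div_right
    have := hA x hx
    omega
  · intro x hx y hy hxy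
    have h1 := hA x hx
    have h2 := hA y hy
    simp only at hxy
    obtain ⟨k, hk⟩ := hd x hx y hy
    have e1 := Nat.div_add_mod (x + (R : ℤ)).toNat m
    have e2 := Nat.div_add_mod (y + (R : ℤ)).toNat m
    rw [hxy] at e1
    have e3 := Nat.mod_lt (x + (R : ℤ)).toNat hm
    have e4 := Nat.mod_lt (y + (R : ℤ)).toNat hm
    have h3 : |x - y| < m := by
      rw [abs_lt]
      constructor <;> omega
    have h4 : k = 0 := by
      by_contra hk0
      have : (1 : ℤ) ≤ |k| := Int.one_le_abs hk0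
      rw [hk, abs_mul, Nat.abs_cast] at h3
      have : (m : ℤ) ≤ m * |k| := by nlinarith
      omega
    rw [h4, mul_zero] at hk
    omega

/-- The larger of the absolute values of the coordinates. -/
def mx (x : ℤ × ℤ) : ℕ := max x.1.natAbs x.2.natAbs

/-- The primitive vector in the direction of `x`. -/
def prm (x : ℤ × ℤ) : ℤ × ℤ := (x.1 / (Int.gcd x.1 x.2 : ℤ), x.2 / (Int.gcd x.1 x.2 : ℤ))

lemma gcd_pos {x : ℤ × ℤ} (hx : x ≠ 0) : 0 < Int.gcd x.1 x.2 := by
  rw [Nat.pos_iff_ne_zero]
  intro h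
  rw [Int.gcd_eq_zero_iff] at h
  exact hx (Prod.ext h.1 h.2)

lemma prm_eq (x : ℤ × ℤ) : ((Int.gcd x.1 x.2 : ℤ) * (prm x).1, (Int.gcd x.1 x.2 : ℤ) * (prm x).2) = x := by
  unfold prm
  ext
  · simp only
    exact Int.mul_ediv_cancel' (Int.gcd_dvd_left _ _)
  · simp only
    exact Int.mul_ediv_cancel' (Int.gcd_dvd_right _ _)

lemma prm_coprime {x : ℤ × ℤ} (hx : x ≠ 0) : IsCoprime (prm x).1 (prm x).2 := by
  rw [Int.isCoprime_iff_gcd_eq_one]
  unfold prm
  exact Int.gcd_ediv_gcd_ediv_gcd (gcd_pos hx)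

lemma prm_ne {x : ℤ × ℤ} (hx : x ≠ 0) : prm x ≠ 0 := by
  intro h
  have := prm_eq x
  rw [h] at this
  apply hx
  rw [← this]
  simp

lemma mx_pos {x : ℤ × ℤ} (hx : x ≠ 0) : 0 < mx x := by
  unfold mx
  by_contra h
  push_neg at h
  have h1 : x.1.natAbs ≤ 0 := le_trans (le_max_left _ _) h
  have h2 : x.2.natAbs ≤ 0 := le_trans (le_max_right _ _) h
  apply hx
  ext
  · simpa using h1
  · simpa using h2

/-- The lattice points of a line in a box. -/
lemma card_line {R : ℕ} {w : ℤ × ℤ} (hw : w ≠ 0) (k : ℤ) :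
    ((box R).filter (fun p => dot w p = k)).card ≤ 2 * R / mx (prm w) + 1 := by
  have hg := gcd_pos hw
  have hc := prm_coprime hw
  have he := prm_eq w
  set g : ℤ := (Int.gcd w.1 w.2 : ℤ) with hgdef
  have hg0 : g ≠ 0 := by rw [hgdef]; exact_mod_cast hg.ne'
  set a := (prm w).1 with ha
  set b := (prm w).2 with hb
  have e1 : w.1 = g * a := by rw [← he]
  have e2 : w.2 = g * b := by rw [← he]
  have hab : mx (prm w) = max a.natAbs b.natAbs := rfl
  have hpos := mx_pos (prm_ne hw)
  have key : ∀ p ∈ (box R).filter (fun p => dot w p = k), ∀ q ∈ (box R).filter (fun p => dot w p = k),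
      a * (p.1 - q.1) + b * (p.2 - q.2) = 0 := by
    intro p hp q hq
    rw [mem_filter] at hp hq
    have h1 := hp.2
    have h2 := hq.2
    unfold dot at h1 h2
    rw [e1, e2] at h1 h2
    have : g * (a * (p.1 - q.1) + b * (p.2 - q.2)) = 0 := by linear_combination h1 - h2
    rcases mul_eq_zero.mp this with h | h
    · exact absurd h hg0
    · exact h
  rcases le_total b.natAbs a.natAbs with hle | hle
  · have hm : mx (prm w) = a.natAbs := by rw [hab]; exact max_eq_left hle
    rw [hm] at hpos ⊢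
    have ha0 : a ≠ 0 := Int.natAbs_pos.mp hpos
    have hinj : Set.InjOn Prod.snd (((box R).filter (fun p => dot w p = k) : Finset (ℤ × ℤ)) : Set (ℤ × ℤ)) := by
      intro p hp q hq hpq
      have h1 := key p hp q hq
      have h2 : p.2 - q.2 = 0 := by rw [sub_eq_zero]; exact hpq
      rw [h2, mul_zero, add_zero] at h1
      rcases mul_eq_zero.mp h1 with h | h
      · exact absurd h ha0
      · exact Prod.ext (by omega) hpq
    rw [← card_image_of_injOn hinj]
    apply card_res hpos
    · intro x hx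
      rw [mem_image] at hx
      obtain ⟨p, hp, rfl⟩ := hx
      exact (mem_box.mp (mem_filter.mp hp).1).2
    · intro x hx y hy
      rw [mem_image] at hx hy
      obtain ⟨p, hp, rfl⟩ := hx
      obtain ⟨q, hq, rfl⟩ := hy
      rw [Int.natAbs_dvd]
      have h1 := key p hp q hq
      apply hc.dvd_of_dvd_mul_left
      exact ⟨-(p.1 - q.1), by linear_combination h1⟩
  · have hm : mx (prm w) = b.natAbs := by rw [hab]; exact max_eq_right hle
    rw [hm] at hpos ⊢
    have hb0 : b ≠ 0 := Int.natAbs_pos.mp hpos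
    have hinj : Set.InjOn Prod.fst (((box R).filter (fun p => dot w p = k) : Finset (ℤ × ℤ)) : Set (ℤ × ℤ)) := by
      intro p hp q hq hpq
      have h1 := key p hp q hq
      have h2 : p.1 - q.1 = 0 := by rw [sub_eq_zero]; exact hpq
      rw [h2, mul_zero, zero_add] at h1
      rcases mul_eq_zero.mp h1 with h | h
      · exact absurd h hb0
      · exact Prod.ext hpq (by omega)
    rw [← card_image_of_injOn hinj]
    apply card_res hpos
    · intro x hx
      rw [mem_image] at hx
      obtain ⟨p, hp, rfl⟩ := hx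
      exact (mem_box.mp (mem_filter.mp hp).1).1
    · intro x hx y hy
      rw [mem_image] at hx hy
      obtain ⟨p, hp, rfl⟩ := hx
      obtain ⟨q, hq, rfl⟩ := hy
      rw [Int.natAbs_dvd]
      have h1 := key p hp q hq
      apply hc.symm.dvd_of_dvd_mul_left
      exact ⟨-(p.2 - q.2), by linear_combination h1⟩

end Pool.Agent.H57.XR
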