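import Mathlib
import Pool.Agent.H57.XR.Cnt

/-!
Counting the lattice points with one short step in and one short step out: the sum.
-/

namespace Pool.Agent.H57.XR

open Finset

private lemma card_small (M k : ℕ) :
    ((Icc (-(M : ℤ)) M).filter (fun b => b.natAbs ≤ k)).card ≤ 2 * k + 1 := by
  have h : (Icc (-(M : ℤ)) M).filter (fun b => b.natAbs ≤ k) ⊆ Icc (-(k : ℤ)) k := by
    intro b hb
    rw [mem_filter] at hb
    rw [mem_Icc]
    omega
  refine (card_le_card h).trans ?_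
  rw [Int.card_Icc]
  omega

/-- Half of the sum. -/
private lemma half_sum (M : ℕ) :
    ∑ a ∈ Icc (-(M : ℤ)) M, ∑ b ∈ Icc (-(M : ℤ)) M,
      (if b.natAbs ≤ a.natAbs ∧ a ≠ 0 then 1 / (a.natAbs : ℝ) else 0) ≤ 3 * (2 * M + 1) := by
  have h1 : ∀ a ∈ Icc (-(M : ℤ)) M, ∑ b ∈ Icc (-(M : ℤ)) M,
      (if b.natAbs ≤ a.natAbs ∧ a ≠ 0 then 1 / (a.natAbs : ℝ) else 0) ≤ 3 := by
    intro a _
    by_cases ha : a = 0
    · subst ha
      simp
    · have ha1 : (1 : ℝ) ≤ a.natAbs := by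
        exact_mod_cast Int.natAbs_pos.mpr ha
      have h2 : ∑ b ∈ Icc (-(M : ℤ)) M,
          (if b.natAbs ≤ a.natAbs ∧ a ≠ 0 then 1 / (a.natAbs : ℝ) else 0) =
          ((Icc (-(M : ℤ)) M).filter (fun b => b.natAbs ≤ a.natAbs)).card * (1 / (a.natAbs : ℝ)) := by
        rw [← nsmul_eq_mul, ← sum_const, sum_filter]
        apply sum_congr rfl
        intro b _
        by_cases hb : b.natAbs ≤ a.natAbs
        · rw [if_pos ⟨hb, ha⟩, if_pos hb]
        · rw [if_neg (fun h => hb h.1), if_neg hb]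
      rw [h2]
      have h3 : (((Icc (-(M : ℤ)) M).filter (fun b => b.natAbs ≤ a.natAbs)).card : ℝ) ≤
          2 * (a.natAbs : ℝ) + 1 := by exact_mod_cast card_small M a.natAbs
      calc _ ≤ (2 * (a.natAbs : ℝ) + 1) * (1 / (a.natAbs : ℝ)) :=
            mul_le_mul_of_nonneg_right h3 (by positivity)
        _ ≤ 3 := by
          rw [mul_one_div, div_le_iff₀ (by linarith)]
          linarith
  calc _ ≤ ∑ a ∈ Icc (-(M : ℤ)) M, (3 : ℝ) := sum_le_sum h1
    _ = 3 * (2 * M + 1) := by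
      rw [sum_const, Int.card_Icc, nsmul_eq_mul]
      have : ((M : ℤ) + 1 - -(M : ℤ)).toNat = 2 * M + 1 := by omega
      rw [this]
      push_cast
      ring

/-- The sum of `1 / max` over a box. -/
lemma sum_box (M : ℕ) : ∑ v ∈ (box M).filter (fun v => v ≠ 0), 1 / (mx v : ℝ) ≤ 18 * M := by
  rcases Nat.eq_zero_or_pos M with h0 | hM
  · subst h0
    have : (box 0).filter (fun v => v ≠ 0) = ∅ := by
      apply filter_eq_empty_iff.mpr
      intro v hv
      rw [mem_box] at hv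
      rw [not_not]
      ext
      · simp only [Prod.fst_zero]; omega
      · simp only [Prod.snd_zero]; omega
    rw [this]
    simp
  have hM1 : (1 : ℝ) ≤ M := by exact_mod_cast hM
  have h1 : ∑ v ∈ (box M).filter (fun v => v ≠ 0), 1 / (mx v : ℝ) ≤
      ∑ v ∈ box M, ((if v.2.natAbs ≤ v.1.natAbs ∧ v.1 ≠ 0 then 1 / (v.1.natAbs : ℝ) else 0) +
        (if v.1.natAbs ≤ v.2.natAbs ∧ v.2 ≠ 0 then 1 / (v.2.natAbs : ℝ) else 0)) := by
    rw [sum_filter]
    apply sum_le_sum
    intro v _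
    have hn1 : (0 : ℝ) ≤ (if v.2.natAbs ≤ v.1.natAbs ∧ v.1 ≠ 0 then 1 / (v.1.natAbs : ℝ) else 0) := by
      split_ifs <;> positivity
    have hn2 : (0 : ℝ) ≤ (if v.1.natAbs ≤ v.2.natAbs ∧ v.2 ≠ 0 then 1 / (v.2.natAbs : ℝ) else 0) := by
      split_ifs <;> positivity
    by_cases hv : v ≠ 0
    · rw [if_pos hv]
      have hp := mx_pos hv
      unfold mx at hp ⊢
      rcases le_total v.2.natAbs v.1.natAbs with h | h
      · rw [max_eq_left h] at hp ⊢
        have : v.1 ≠ 0 := Int.natAbs_pos.mp hp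
        rw [if_pos ⟨h, this⟩]
        linarith
      · rw [max_eq_right h] at hp ⊢
        have : v.2 ≠ 0 := Int.natAbs_pos.mp hp
        have e : (if v.1.natAbs ≤ v.2.natAbs ∧ v.2 ≠ 0 then 1 / (v.2.natAbs : ℝ) else 0) =
            1 / (v.2.natAbs : ℝ) := if_pos ⟨h, this⟩
        rw [e]
        linarith
    · rw [if_neg hv]
      linarith
  refine h1.trans ?_
  rw [sum_add_distrib]
  have h2 := half_sum M
  have h3 : ∑ v ∈ box M, (if v.2.natAbs ≤ v.1.natAbs ∧ v.1 ≠ 0 then 1 / (v.1.natAbs : ℝ) else 0) ≤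
      3 * (2 * M + 1) := by
    unfold box
    rw [sum_product]
    exact h2
  have h4 : ∑ v ∈ box M, (if v.1.natAbs ≤ v.2.natAbs ∧ v.2 ≠ 0 then 1 / (v.2.natAbs : ℝ) else 0) ≤
      3 * (2 * M + 1) := by
    unfold box
    rw [sum_product_right]
    exact h2
  linarith

lemma prm_mem {R : ℕ} {w : ℤ × ℤ} (hw : w ≠ 0) (h : w ∈ box R) :
    Int.gcd w.1 w.2 ∈ Icc 1 R ∧ prm w ∈ (box (R / Int.gcd w.1 w.2)).filter (fun v => v ≠ 0) := by
  have hg := gcd_pos hw
  have he := prm_eq w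
  rw [mem_box] at h
  set g := Int.gcd w.1 w.2 with hgdef
  have e1 : w.1 = g * (prm w).1 := by conv_lhs => rw [← he]
  have e2 : w.2 = g * (prm w).2 := by conv_lhs => rw [← he]
  have n1 : w.1.natAbs = g * (prm w).1.natAbs := by rw [e1, Int.natAbs_mul, Int.natAbs_natCast]
  have n2 : w.2.natAbs = g * (prm w).2.natAbs := by rw [e2, Int.natAbs_mul, Int.natAbs_natCast]
  constructor
  · rw [mem_Icc]
    refine ⟨hg, ?_⟩
    by_cases h1 : (prm w).1 = 0
    · have h2 : (prm w).2 ≠ 0 := by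
        intro h2
        exact prm_ne hw (Prod.ext h1 h2)
      have h3 : 1 ≤ (prm w).2.natAbs := Int.natAbs_pos.mpr h2
      calc g = g * 1 := (mul_one g).symm
        _ ≤ g * (prm w).2.natAbs := Nat.mul_le_mul_left g h3
        _ = w.2.natAbs := n2.symm
        _ ≤ R := h.2
    · have h3 : 1 ≤ (prm w).1.natAbs := Int.natAbs_pos.mpr h1
      calc g = g * 1 := (mul_one g).symm
        _ ≤ g * (prm w).1.natAbs := Nat.mul_le_mul_left g h3
        _ = w.1.natAbs := n1.symm
        _ ≤ R := h.1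
  · rw [mem_filter, mem_box]
    refine ⟨⟨?_, ?_⟩, prm_ne hw⟩
    · rw [Nat.le_div_iff_mul_le hg, mul_comm, ← n1]; exact h.1
    · rw [Nat.le_div_iff_mul_le hg, mul_comm, ← n2]; exact h.2

/-- The sum of `1 / max` of the primitive vectors. -/
lemma sum_prm (R : ℕ) : ∑ w ∈ (box R).filter (fun w => w ≠ 0), 1 / (mx (prm w) : ℝ) ≤
    18 * R * (1 + Real.log R) := by
  have h1 : ∑ w ∈ (box R).filter (fun w => w ≠ 0), 1 / (mx (prm w) : ℝ) ≤
      ∑ x ∈ (Icc 1 R).sigma (fun d => (box (R / d)).filter (fun v => v ≠ 0)),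
        1 / (mx x.2 : ℝ) := by
    have hinj : Set.InjOn (fun w : ℤ × ℤ => (⟨Int.gcd w.1 w.2, prm w⟩ : Σ _ : ℕ, ℤ × ℤ))
        (((box R).filter (fun w => w ≠ 0) : Finset (ℤ × ℤ)) : Set (ℤ × ℤ)) := by
      intro w hw v hv hwv
      simp only [Sigma.mk.injEq, heq_eq_eq] at hwv
      rw [← prm_eq w, ← prm_eq v, hwv.1, hwv.2]
    calc ∑ w ∈ (box R).filter (fun w => w ≠ 0), 1 / (mx (prm w) : ℝ)
        = ∑ x ∈ ((box R).filter (fun w => w ≠ 0)).image
          (fun w : ℤ × ℤ => (⟨Int.gcd w.1 w.2, prm w⟩ : Σ _ : ℕ, ℤ × ℤ)), 1 / (mx x.2 : ℝ) := by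
          rw [sum_image hinj]
      _ ≤ _ := by
        apply sum_le_sum_of_subset_of_nonneg
        · intro x hx
          rw [mem_image] at hx
          obtain ⟨w, hw, rfl⟩ := hx
          rw [mem_filter] at hw
          rw [mem_sigma]
          exact prm_mem hw.2 hw.1
        · intro x _ _
          positivity
  refine h1.trans ?_
  rw [sum_sigma]
  have h2 : ∀ d ∈ Icc 1 R, ∑ v ∈ (box (R / d)).filter (fun v => v ≠ 0), 1 / (mx v : ℝ) ≤
      18 * R * (1 / (d : ℝ)) := by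
    intro d hd
    refine (sum_box (R / d)).trans ?_
    have hd1 : (0 : ℝ) < d := by
      rw [mem_Icc] at hd
      exact_mod_cast hd.1
    have : ((R / d : ℕ) : ℝ) ≤ (R : ℝ) / d := Nat.cast_div_le
    calc 18 * ((R / d : ℕ) : ℝ) ≤ 18 * ((R : ℝ) / d) := by linarith
      _ = _ := by ring
  calc _ ≤ ∑ d ∈ Icc 1 R, 18 * (R : ℝ) * (1 / (d : ℝ)) := sum_le_sum h2
    _ = 18 * R * ∑ d ∈ Icc 1 R, 1 / (d : ℝ) := by rw [mul_sum]
    _ ≤ _ := by
      apply mul_le_mul_of_nonneg_left _ (by positivity)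
      have h := harmonic_le_one_add_log R
      rw [harmonic_eq_sum_Icc] at h
      push_cast at h
      simpa [one_div] using h

/-- The pairs which describe the lattice points with one short step in and one short step out. -/
noncomputable def prs (R : ℕ) : Finset ((ℤ × ℤ) × (ℤ × ℤ)) :=
  (box R ×ˢ box R).filter (fun q => q.1 ≠ 0 ∧ 0 < dot q.1 q.2 ∧ dot q.1 q.2 ∣ nrm q.1)

lemma card_prs {R : ℕ} (hR : 1 ≤ R) {T : ℝ} (hT : ∀ n : ℕ, 1 ≤ n → n ≤ 2 * R ^ 2 →
    (n.divisors.card : ℝ) ≤ T) : ((prs R).card : ℝ) ≤ 54 * T * R ^ 2 * (1 + Real.log R) := by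
  have hT0 : 0 ≤ T := le_trans (by positivity) (hT 1 le_rfl (by nlinarith))
  have hR1 : (1 : ℝ) ≤ R := by exact_mod_cast hR
  have h1 : (prs R).card ≤ ∑ w ∈ (box R).filter (fun w => w ≠ 0),
      ((box R).filter (fun p => 0 < dot w p ∧ dot w p ∣ nrm w)).card := by
    have : prs R ⊆ ((box R).filter (fun w => w ≠ 0)).biUnion (fun w =>
        ((box R).filter (fun p => 0 < dot w p ∧ dot w p ∣ nrm w)).image (fun p => (w, p))) := by
      intro q hq
      unfold prs at hq
      rw [mem_filter, mem_product] at hq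
      rw [mem_biUnion]
      refine ⟨q.1, mem_filter.mpr ⟨hq.1.1, hq.2.1⟩, ?_⟩
      rw [mem_image]
      exact ⟨q.2, mem_filter.mpr ⟨hq.1.2, hq.2.2⟩, rfl⟩
    refine (card_le_card this).trans (card_biUnion_le.trans (sum_le_sum fun w _ => card_image_le))
  have h2 : ∀ w ∈ (box R).filter (fun w => w ≠ 0),
      (((box R).filter (fun p => 0 < dot w p ∧ dot w p ∣ nrm w)).card : ℝ) ≤
        3 * T * R * (1 / (mx (prm w) : ℝ)) := by
    intro w hw
    rw [mem_filter] at hw
    obtain ⟨hwb, hw0⟩ := hw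
    have hn := nrm_pos hw0
    have hmp := mx_pos (prm_ne hw0)
    have hmR : mx (prm w) ≤ R := by
      have h := (prm_mem hw0 hwb).2
      rw [mem_filter, mem_box] at h
      unfold mx
      exact max_le (h.1.1.trans (Nat.div_le_self _ _)) (h.1.2.trans (Nat.div_le_self _ _))
    have h3 : ((box R).filter (fun p => 0 < dot w p ∧ dot w p ∣ nrm w)).card ≤
        (nrm w).toNat.divisors.card * (2 * R / mx (prm w) + 1) := by
      have hsub : (box R).filter (fun p => 0 < dot w p ∧ dot w p ∣ nrm w) ⊆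
          (nrm w).toNat.divisors.biUnion (fun k => (box R).filter (fun p => dot w p = (k : ℤ))) := by
        intro p hp
        rw [mem_filter] at hp
        rw [mem_biUnion]
        refine ⟨(dot w p).toNat, ?_, ?_⟩
        · rw [Nat.mem_divisors]
          refine ⟨?_, by omega⟩
          have h5 : ((dot w p).toNat : ℤ) ∣ ((nrm w).toNat : ℤ) := by
            rw [Int.toNat_of_nonneg hp.2.1.le, Int.toNat_of_nonneg hn.le]
            exact hp.2.2
          exact_mod_cast h5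
        · rw [mem_filter]
          exact ⟨hp.1, (Int.toNat_of_nonneg hp.2.1.le).symm⟩
      refine (card_le_card hsub).trans (card_biUnion_le.trans ?_)
      calc _ ≤ ∑ k ∈ (nrm w).toNat.divisors, (2 * R / mx (prm w) + 1) :=
            sum_le_sum fun k _ => card_line hw0 _
        _ = _ := by rw [sum_const, smul_eq_mul]
    have h4 : (((2 * R / mx (prm w) + 1 : ℕ)) : ℝ) ≤ 3 * R * (1 / (mx (prm w) : ℝ)) := by
      have hm1 : (0 : ℝ) < mx (prm w) := by exact_mod_cast hmp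
      have hm2 : (mx (prm w) : ℝ) ≤ R := by exact_mod_cast hmR
      have h5 : ((2 * R / mx (prm w) : ℕ) : ℝ) ≤ (2 * R : ℕ) / (mx (prm w) : ℝ) := Nat.cast_div_le
      have h6 : (1 : ℝ) ≤ R / (mx (prm w) : ℝ) := by rw [le_div_iff₀ hm1]; linarith
      push_cast at h5 ⊢
      have h7 : (3 : ℝ) * R * (1 / (mx (prm w) : ℝ)) = 2 * R / mx (prm w) + R / mx (prm w) := by
        ring
      rw [h7]
      linarith
    have h5 : ((nrm w).toNat.divisors.card : ℝ) ≤ T := by
      apply hT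
      · omega
      · rw [mem_box] at hwb
        have a1 : w.1 ^ 2 ≤ (R : ℤ) ^ 2 := by
          rw [← Int.natAbs_sq w.1]
          have : (w.1.natAbs : ℤ) ≤ R := by exact_mod_cast hwb.1
          exact pow_le_pow_left₀ (by positivity) this 2
        have a2 : w.2 ^ 2 ≤ (R : ℤ) ^ 2 := by
          rw [← Int.natAbs_sq w.2]
          have : (w.2.natAbs : ℤ) ≤ R := by exact_mod_cast hwb.2
          exact pow_le_pow_left₀ (by positivity) this 2
        have : ((nrm w).toNat : ℤ) ≤ ((2 * R ^ 2 : ℕ) : ℤ) := by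
          rw [Int.toNat_of_nonneg hn.le]
          unfold nrm
          push_cast
          linarith
        exact_mod_cast this
    calc (((box R).filter (fun p => 0 < dot w p ∧ dot w p ∣ nrm w)).card : ℝ)
        ≤ ((nrm w).toNat.divisors.card : ℝ) * ((2 * R / mx (prm w) + 1 : ℕ) : ℝ) := by
          exact_mod_cast h3
      _ ≤ T * (3 * R * (1 / (mx (prm w) : ℝ))) := mul_le_mul h5 h4 (by positivity) hT0
      _ = _ := by ring
  calc ((prs R).card : ℝ) ≤ ∑ w ∈ (box R).filter (fun w => w ≠ 0),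
        (((box R).filter (fun p => 0 < dot w p ∧ dot w p ∣ nrm w)).card : ℝ) := by
        exact_mod_cast h1
    _ ≤ ∑ w ∈ (box R).filter (fun w => w ≠ 0), 3 * T * R * (1 / (mx (prm w) : ℝ)) :=
        sum_le_sum h2
    _ = 3 * T * R * ∑ w ∈ (box R).filter (fun w => w ≠ 0), 1 / (mx (prm w) : ℝ) := by
        rw [mul_sum]
    _ ≤ 3 * T * R * (18 * R * (1 + Real.log R)) :=
        mul_le_mul_of_nonneg_left (sum_prm R) (by positivity)
    _ = _ := by ring

end Pool.Agent.H57.XR
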