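import Mathlib
import Pool.Agent.H57.XR.Cnu
import Pool.Agent.H57.XR.Uni

/-!
The length of chains of lattice points.
-/

namespace Pool.Agent.H57.XR

open Finset

/-- A chain of lattice points: every step is perpendicular to the point where it starts. -/
structure Chain (z u : ℕ → ℤ × ℤ) : Prop where
  start : z 0 ≠ 0
  step : ∀ j, u j ∈ Step (z j)
  next : ∀ j, z (j + 1) = z j + u j

variable {z u : ℕ → ℤ × ℤ}

lemma Chain.nrm_next (h : Chain z u) (j : ℕ) : nrm (z (j + 1)) = nrm (z j) + nrm (u j) := by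
  rw [h.next]
  exact nrm_add (h.step j).1

lemma Chain.pos (h : Chain z u) (j : ℕ) : 0 < nrm (u j) := nrm_pos (h.step j).2

lemma Chain.mono (h : Chain z u) : StrictMono (fun j => nrm (z j)) := by
  apply strictMono_nat_of_lt_succ
  intro j
  have := h.nrm_next j
  have := h.pos j
  omega

lemma Chain.sum (h : Chain z u) (m : ℕ) :
    ∑ j ∈ range m, nrm (u j) = nrm (z m) - nrm (z 0) := by
  induction m with
  | zero => simp
  | succ m ih =>
    rw [sum_range_succ, ih, h.nrm_next m]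
    ring

lemma Chain.ne (h : Chain z u) (j : ℕ) : z j ≠ 0 := by
  intro h0
  have h1 : nrm (z 0) ≤ nrm (z j) := h.mono.monotone (Nat.zero_le j)
  have h2 := nrm_pos h.start
  rw [h0] at h1
  simp [nrm] at h1
  unfold nrm at h2
  omega

lemma nrm_le_box {R : ℕ} {w : ℤ × ℤ} (h : nrm w ≤ (R : ℤ) ^ 2) : w ∈ box R := by
  rw [mem_box]
  unfold nrm at h
  constructor
  · have h1 : (w.1.natAbs : ℤ) ^ 2 ≤ (R : ℤ) ^ 2 := by
      rw [Int.natAbs_sq]; nlinarith [sq_nonneg w.2]
    have h2 := abs_le_of_sq_le_sq h1 (by positivity)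
    rw [Nat.abs_cast] at h2
    exact_mod_cast h2
  · have h1 : (w.2.natAbs : ℤ) ^ 2 ≤ (R : ℤ) ^ 2 := by
      rw [Int.natAbs_sq]; nlinarith [sq_nonneg w.1]
    have h2 := abs_le_of_sq_le_sq h1 (by positivity)
    rw [Nat.abs_cast] at h2
    exact_mod_cast h2

/-- A vector perpendicular to `x` is at least as long as the primitive vector of `x`. -/
lemma nrm_prm_le {x v : ℤ × ℤ} (hx : x ≠ 0) (h : x.1 * v.1 + x.2 * v.2 = 0) (hv : v ≠ 0) :
    nrm (prm x) ≤ nrm v := by
  have hg := gcd_pos hx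
  have he := prm_eq x
  obtain ⟨s, t, hst⟩ := prm_coprime hx
  set g : ℤ := (Int.gcd x.1 x.2 : ℤ) with hgdef
  have hg0 : g ≠ 0 := by rw [hgdef]; exact_mod_cast hg.ne'
  set a := (prm x).1 with ha
  set b := (prm x).2 with hb
  have e1 : x.1 = g * a := by rw [← he]
  have e2 : x.2 = g * b := by rw [← he]
  have h1 : a * v.1 + b * v.2 = 0 := by
    rw [e1, e2] at h
    have : g * (a * v.1 + b * v.2) = 0 := by linear_combination h
    rcases mul_eq_zero.mp this with h | h
    · exact absurd h hg0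
    · exact h
  set k := s * v.2 - t * v.1 with hk
  have k1 : k * a = v.2 := by rw [hk]; linear_combination v.2 * hst - t * h1
  have k2 : k * b = -v.1 := by rw [hk]; linear_combination (-v.1) * hst + s * h1
  have h2 : nrm v = k ^ 2 * nrm (prm x) := by
    unfold nrm
    rw [← ha, ← hb, ← k1]
    have : v.1 = -(k * b) := by rw [k2]; ring
    rw [this]
    ring
  have hk0 : k ≠ 0 := by
    intro h0
    rw [h0, zero_mul] at k1 k2
    apply hv
    ext
    · simp only [Prod.fst_zero]; omega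
    · simp only [Prod.snd_zero]; omega
  have h3 : 1 ≤ k ^ 2 := by
    have : 0 < k ^ 2 := by positivity
    omega
  rw [h2]
  nlinarith [nrm_nonneg (prm x)]

lemma Chain.dot_eq (h : Chain z u) (j : ℕ) :
    (Int.gcd (z (j + 1)).1 (z (j + 1)).2 : ℤ) * dot (u j) (prm (z (j + 1))) = nrm (u j) := by
  have h1 : dot (u j) (z (j + 1)) = nrm (u j) := by
    have := (h.step j).1
    rw [h.next]
    unfold dot nrm
    simp only [Prod.fst_add, Prod.snd_add]
    linear_combination this
  have he := prm_eq (z (j + 1))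
  rw [← h1]
  conv_rhs => rw [← he]
  unfold dot
  ring

lemma Chain.mem_prs (h : Chain z u) {R j : ℕ} (h1 : nrm (u j) ≤ (R : ℤ) ^ 2)
    (h2 : nrm (u (j + 1)) ≤ (R : ℤ) ^ 2) : (u j, prm (z (j + 1))) ∈ prs R := by
  unfold prs
  rw [mem_filter, mem_product]
  have hd := h.dot_eq j
  have hg := gcd_pos (h.ne (j + 1))
  have hp := h.pos j
  refine ⟨⟨nrm_le_box h1, nrm_le_box ?_⟩, (h.step j).2, ?_, ?_⟩
  · exact (nrm_prm_le (h.ne (j + 1)) (h.step (j + 1)).1 (h.step (j + 1)).2).trans h2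
  · have hg' : (0 : ℤ) < (Int.gcd (z (j + 1)).1 (z (j + 1)).2 : ℤ) := by exact_mod_cast hg
    rw [← hd] at hp
    exact pos_of_mul_pos_right hp hg'.le
  · exact ⟨_, by rw [← hd]; ring⟩

lemma Chain.inj (h : Chain z u) {i j : ℕ}
    (e : (u i, prm (z (i + 1))) = (u j, prm (z (j + 1)))) : i = j := by
  rw [Prod.mk.injEq] at e
  have h1 := h.dot_eq i
  have h2 := h.dot_eq j
  rw [e.1, e.2, ← h2] at h1
  have hd : dot (u j) (prm (z (j + 1))) ≠ 0 := by
    intro h0
    rw [h0, mul_zero] at h2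
    have := h.pos j
    omega
  have h3 := mul_right_cancel₀ hd h1
  have h4 : z (i + 1) = z (j + 1) := by
    rw [← prm_eq (z (i + 1)), ← prm_eq (z (j + 1)), h3, e.2]
  have h5 : (fun j => nrm (z j)) (i + 1) = (fun j => nrm (z j)) (j + 1) := by
    simp only [h4]
  have := h.mono.injective h5
  omega

/-- The number of steps of a chain. -/
lemma Chain.length (h : Chain z u) {R : ℕ} (hR : 1 ≤ R) (m : ℕ) :
    (m : ℝ) ≤ 1 + 2 * ((nrm (z m) : ℝ) / (R : ℝ) ^ 2) + ((prs R).card : ℝ) := by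
  have hR1 : (1 : ℝ) ≤ R := by exact_mod_cast hR
  have hN : (0 : ℝ) ≤ nrm (z m) := by exact_mod_cast nrm_nonneg _
  rcases Nat.eq_zero_or_pos m with h0 | hm
  · subst h0
    have : (0 : ℝ) ≤ 2 * ((nrm (z 0) : ℝ) / (R : ℝ) ^ 2) := by positivity
    have : (0 : ℝ) ≤ ((prs R).card : ℝ) := by positivity
    push_cast
    linarith
  set B := (range m).filter (fun j => (R : ℤ) ^ 2 < nrm (u j)) with hB
  have hBc : (B.card : ℝ) ≤ (nrm (z m) : ℝ) / (R : ℝ) ^ 2 := by
    rw [le_div_iff₀ (by positivity)]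
    have h1 : (B.card : ℤ) * (R : ℤ) ^ 2 ≤ ∑ j ∈ range m, nrm (u j) := by
      calc (B.card : ℤ) * (R : ℤ) ^ 2 = ∑ j ∈ B, (R : ℤ) ^ 2 := by
            rw [sum_const, nsmul_eq_mul]
        _ ≤ ∑ j ∈ B, nrm (u j) := sum_le_sum fun j hj => (mem_filter.mp hj).2.le
        _ ≤ ∑ j ∈ range m, nrm (u j) :=
            sum_le_sum_of_subset_of_nonneg (filter_subset _ _) fun j _ _ => nrm_nonneg _
    rw [h.sum m] at h1
    have h2 := nrm_nonneg (z 0)
    have h3 : (B.card : ℤ) * (R : ℤ) ^ 2 ≤ nrm (z m) := by omega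
    exact_mod_cast h3
  set G := (range (m - 1)).filter (fun j => nrm (u j) ≤ (R : ℤ) ^ 2 ∧ nrm (u (j + 1)) ≤ (R : ℤ) ^ 2)
    with hG
  have hGc : G.card ≤ (prs R).card := by
    apply card_le_card_of_injOn (fun j => (u j, prm (z (j + 1))))
    · intro j hj
      rw [hG, mem_coe, mem_filter] at hj
      exact h.mem_prs hj.2.1 hj.2.2
    · intro i _ j _ e
      exact h.inj e
  have hcov : range (m - 1) ⊆ G ∪ B ∪ B.image (fun j => j - 1) := by
    intro j hj
    rw [mem_range] at hj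
    by_cases h1 : nrm (u j) ≤ (R : ℤ) ^ 2
    · by_cases h2 : nrm (u (j + 1)) ≤ (R : ℤ) ^ 2
      · apply mem_union_left
        apply mem_union_left
        rw [hG, mem_filter, mem_range]
        exact ⟨hj, h1, h2⟩
      · apply mem_union_right
        rw [mem_image]
        refine ⟨j + 1, ?_, by omega⟩
        rw [hB, mem_filter, mem_range]
        exact ⟨by omega, not_le.mp h2⟩
    · apply mem_union_left
      apply mem_union_right
      rw [hB, mem_filter, mem_range]
      exact ⟨by omega, not_le.mp h1⟩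
  have h1 : m - 1 ≤ G.card + B.card + B.card := by
    calc m - 1 = (range (m - 1)).card := (card_range _).symm
      _ ≤ (G ∪ B ∪ B.image (fun j => j - 1)).card := card_le_card hcov
      _ ≤ (G ∪ B).card + (B.image (fun j => j - 1)).card := card_union_le _ _
      _ ≤ (G.card + B.card) + B.card := Nat.add_le_add (card_union_le _ _) card_image_le
  have h2 : (m : ℝ) ≤ 1 + (G.card + B.card + B.card) := by
    have : m ≤ 1 + (G.card + B.card + B.card) := by omega
    exact_mod_cast this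
  have h3 : (G.card : ℝ) ≤ ((prs R).card : ℝ) := by exact_mod_cast hGc
  linarith

end Pool.Agent.H57.XR
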