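import Mathlib
import Pool.Agent.H57.XR.Def
import Pool.Agent.H57.XR.Ana
import Pool.Agent.H57.XR.Uni

/-!
Uniqueness for functions with decay `exp (- c |x| ^ b)`, `b > 4/3`: the final statement.
-/

namespace Pool.Agent.H57.XR

open Real

lemma len_rpow (x : ℤ × ℤ) (b : ℝ) : len x ^ b = (nrm x : ℝ) ^ (b / 2) := by
  have h0 : (0 : ℝ) ≤ nrm x := by exact_mod_cast nrm_nonneg x
  have h : len x = (nrm x : ℝ) ^ (1 / 2 : ℝ) := by
    rw [← Real.sqrt_eq_rpow]
    unfold len nrm
    push_cast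
    rfl
  rw [h, ← Real.rpow_mul h0]
  congr 1; ring

theorem uniqueness_exp {w : ℤ × ℤ} {α : ℝ} {f : ℤ × ℤ → ℂ} {b c C : ℝ} (hb : 4 / 3 < b)
    (hc : 0 < c) (hf : ∀ x, ‖f x‖ ≤ C * exp (-(c * len x ^ b)))
    (hx : ∀ z, α ≤ len z → xray w f z = 0) : ∀ z, α ≤ len z → f z = 0 := by
  have hC : 0 ≤ C := by
    have h := hf 0
    have h1 := norm_nonneg (f 0)
    have h2 := exp_pos (-(c * len 0 ^ b))
    by_contra hneg
    push_neg at hneg
    have := mul_neg_of_neg_of_pos hneg h2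
    linarith
  set β := min (b / 2) (5 / 6) with hβdef
  have hβ : 2 / 3 < β := by
    rw [hβdef]; apply lt_min <;> linarith
  have hβ1 : β ≤ 1 := le_trans (min_le_right _ _) (by norm_num)
  have hβb : β ≤ b / 2 := min_le_left _ _
  have hβ0 : 0 < β := by linarith
  have hf1 : ∀ x, ‖f x‖ ≤ C * phi c β x := by
    intro x
    refine le_trans (hf x) (mul_le_mul_of_nonneg_left ?_ hC)
    unfold phi
    rw [exp_le_exp, len_rpow, neg_le_neg_iff]
    apply mul_le_mul_of_nonneg_left _ hc.le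
    by_cases h : x = 0
    · subst h
      have : (nrm (0 : ℤ × ℤ) : ℝ) = 0 := by simp [nrm]
      rw [this, Real.zero_rpow hβ0.ne', Real.zero_rpow (by linarith)]
    · apply Real.rpow_le_rpow_of_exponent_le _ hβb
      exact_mod_cast nrm_pos h
  have hsum : Summable f := by
    have h1 : Summable (fun x : ℤ × ℤ => C * phi c β x) := (summable_exp hc hβ0).mul_left C
    exact Summable.of_norm_bounded h1 hf1
  set κ := c * β * 2 ^ (β - 1) / 3 with hκ
  have hκ0 : 0 < κ := by rw [hκ]; positivity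
  set γ := 3 * β - 2 with hγ
  have hγ0 : 0 < γ := by rw [hγ]; linarith
  set S := ∑' x : ℤ × ℤ, phi κ γ x with hS
  obtain ⟨B, hB1, hB⟩ : ∃ B : ℤ, 1 ≤ B ∧ ∀ z : ℤ × ℤ, B ≤ nrm z →
      phi κ (γ / 3) z * (S * S) ≤ 1 / 2 := by
    have t1 : Filter.Tendsto (fun t : ℝ => κ * t ^ (γ / 3)) Filter.atTop Filter.atTop :=
      (tendsto_rpow_atTop (by linarith)).const_mul_atTop hκ0
    have t2 : Filter.Tendsto (fun t : ℝ => exp (-(κ * t ^ (γ / 3)))) Filter.atTop (nhds 0) :=
      tendsto_exp_neg_atTop_nhds_zero.comp t1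
    have t3 : Filter.Tendsto (fun t : ℝ => exp (-(κ * t ^ (γ / 3))) * (S * S)) Filter.atTop
        (nhds 0) := by
      simpa using t2.mul_const (S * S)
    have t4 := t3.eventually_le_const (show (0 : ℝ) < 1 / 2 by norm_num)
    obtain ⟨T, hT⟩ := Filter.eventually_atTop.mp t4
    refine ⟨max 1 ⌈T⌉, le_max_left _ _, fun z hz => ?_⟩
    apply hT
    have h1 : ⌈T⌉ ≤ nrm z := le_trans (le_max_right _ _) hz
    exact Int.ceil_le.mp h1
  have iter : ∀ k : ℕ, ∀ z, α ≤ len z → B ≤ nrm z → ‖f z‖ ≤ (C / 2 ^ k) * phi c β z := by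
    intro k
    induction k with
    | zero => intro z _ _; simpa using hf1 z
    | succ k ih =>
      intro z hz hzB
      have := contraction hc hβ hβ1 hsum hx hS hB1 hB (A := C / 2 ^ k) (by positivity) ih z hz hzB
      rw [pow_succ, ← div_div]
      exact this
  have far : ∀ z, α ≤ len z → B ≤ nrm z → f z = 0 := by
    intro z hz hzB
    have h1 : Filter.Tendsto (fun k : ℕ => (C / 2 ^ k) * phi c β z) Filter.atTop (nhds 0) := by
      have h2 : Filter.Tendsto (fun k : ℕ => C * ((1 / 2 : ℝ) ^ k) * phi c β z) Filter.atTop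
          (nhds (C * 0 * phi c β z)) :=
        ((tendsto_pow_atTop_nhds_zero_of_lt_one (by norm_num) (by norm_num)).const_mul C).mul_const _
      simp only [mul_zero, zero_mul] at h2
      refine h2.congr (fun k => ?_)
      rw [one_div, inv_pow]; ring
    have h3 : ‖f z‖ ≤ 0 := ge_of_tendsto' h1 (fun k => iter k z hz hzB)
    exact norm_le_zero_iff.mp h3
  exact descent hx far

lemma summable_of_exp {f : ℤ × ℤ → ℂ} {b c C : ℝ} (hb : 0 < b) (hc : 0 < c)
    (hf : ∀ x, ‖f x‖ ≤ C * exp (-(c * len x ^ b))) : Summable f := by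
  have h1 : Summable (fun x : ℤ × ℤ => C * exp (-(c * (nrm x : ℝ) ^ (b / 2)))) :=
    (summable_exp hc (by linarith)).mul_left C
  exact Summable.of_norm_bounded h1 (fun x => by rw [← len_rpow]; exact hf x)

theorem uniqueness_exp_pair {w : ℤ × ℤ} {α : ℝ} {f g : ℤ × ℤ → ℂ} {b c C : ℝ} (hb : 4 / 3 < b)
    (hc : 0 < c) (hf : ∀ x, ‖f x‖ ≤ C * exp (-(c * len x ^ b)))
    (hg : ∀ x, ‖g x‖ ≤ C * exp (-(c * len x ^ b)))
    (h : ∀ z, α ≤ len z → xray w f z = xray w g z) : ∀ z, α ≤ len z → f z = g z := by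
  intro z hz
  have hfs : Summable f := summable_of_exp (by linarith) hc hf
  have hgs : Summable g := summable_of_exp (by linarith) hc hg
  have h1 : ∀ x, ‖f x - g x‖ ≤ (2 * C) * exp (-(c * len x ^ b)) := by
    intro x
    refine le_trans (norm_sub_le _ _) ?_
    have := hf x
    have := hg x
    linarith
  have h2 : ∀ z, α ≤ len z → xray w (fun x => f x - g x) z = 0 := by
    intro z hz
    have h3 := h z hz
    unfold xray at h3 ⊢
    have h4 : Summable (fun y : {y : ℤ × ℤ // OnLine w z y} => f y) := hfs.subtype _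
    have h5 : Summable (fun y : {y : ℤ × ℤ // OnLine w z y} => g y) := hgs.subtype _
    rw [h4.tsum_sub h5, h3, sub_self]
  exact sub_eq_zero.mp (uniqueness_exp hb hc h1 h2 z hz)

end Pool.Agent.H57.XR
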