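import Mathlib
import Pool.Agent.H57.XR.Cha
import Pool.Agent.H57.XR.Fin

/-!
Uniqueness for functions with decay `exp (- c |x| ^ b)`, `b > 1`.
-/

namespace Pool.Agent.H57.XR

open Finset Real

lemma prs_bound {ε : ℝ} (hε : 0 < ε) : ∃ C : ℝ, 0 < C ∧ ∀ R : ℕ, 1 ≤ R →
    ((prs R).card : ℝ) ≤ C * (R : ℝ) ^ (2 + ε) := by
  obtain ⟨C0, hC0, hdiv⟩ := Pool.Agent.H5.W.divisor_bound (ε / 4) (by positivity)
  refine ⟨54 * (C0 * 2 ^ (ε / 4)) * (1 + 2 / ε), by positivity, fun R hR => ?_⟩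
  have hR1 : (1 : ℝ) ≤ R := by exact_mod_cast hR
  have hR0 : (0 : ℝ) < R := by linarith
  set T : ℝ := C0 * 2 ^ (ε / 4) * (R : ℝ) ^ (ε / 2) with hT
  have h1 : ∀ n : ℕ, 1 ≤ n → n ≤ 2 * R ^ 2 → (n.divisors.card : ℝ) ≤ T := by
    intro n hn hn2
    refine (hdiv n hn).trans ?_
    have h2 : (n : ℝ) ≤ 2 * (R : ℝ) ^ 2 := by exact_mod_cast hn2
    have h3 : (n : ℝ) ^ (ε / 4) ≤ (2 * (R : ℝ) ^ 2) ^ (ε / 4) :=
      rpow_le_rpow (by positivity) h2 (by positivity)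
    have h4 : (2 * (R : ℝ) ^ 2) ^ (ε / 4) = 2 ^ (ε / 4) * (R : ℝ) ^ (ε / 2) := by
      rw [mul_rpow (by norm_num) (by positivity), ← rpow_natCast, ← rpow_mul hR0.le]
      congr 2
      push_cast
      ring
    rw [hT, mul_assoc, ← h4]
    exact mul_le_mul_of_nonneg_left h3 hC0.le
  have h2 := card_prs hR h1
  have h3 : 1 + Real.log R ≤ (1 + 2 / ε) * (R : ℝ) ^ (ε / 2) := by
    have h4 : Real.log R ≤ (R : ℝ) ^ (ε / 2) / (ε / 2) := Real.log_le_rpow_div hR0.le (by positivity)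
    have h5 : (1 : ℝ) ≤ (R : ℝ) ^ (ε / 2) := one_le_rpow hR1 (by positivity)
    have h6 : (R : ℝ) ^ (ε / 2) / (ε / 2) = 2 / ε * (R : ℝ) ^ (ε / 2) := by
      field_simp
    rw [h6] at h4
    linarith
  have hT0 : 0 ≤ T := by positivity
  calc ((prs R).card : ℝ) ≤ 54 * T * R ^ 2 * (1 + Real.log R) := h2
    _ ≤ 54 * T * R ^ 2 * ((1 + 2 / ε) * (R : ℝ) ^ (ε / 2)) :=
        mul_le_mul_of_nonneg_left h3 (by positivity)
    _ = 54 * (C0 * 2 ^ (ε / 4)) * (1 + 2 / ε) * ((R : ℝ) ^ (ε / 2) * (R : ℝ) ^ (ε / 2) * R ^ 2) := by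
        rw [hT]; ring
    _ = _ := by
        congr 1
        rw [← rpow_natCast (R : ℝ) 2, ← rpow_add hR0, ← rpow_add hR0]
        congr 1
        push_cast
        ring

lemma len_bound {ε : ℝ} (hε : 0 < ε) : ∃ C : ℝ, 0 < C ∧ ∀ z u : ℕ → ℤ × ℤ, Chain z u →
    ∀ m : ℕ, (m : ℝ) ≤ C * (nrm (z m) : ℝ) ^ (1 / 2 + ε) := by
  obtain ⟨C0, hC0, hb⟩ := prs_bound (ε := 4 * ε) (by positivity)
  refine ⟨3 + C0 * 2 ^ (2 + 4 * ε), by positivity, fun z u h m => ?_⟩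
  set N : ℝ := ((nrm (z m) : ℤ) : ℝ) with hN
  have hN1 : 1 ≤ N := by
    rw [hN]
    exact_mod_cast nrm_pos (h.ne m)
  have hN0 : 0 < N := by linarith
  have hq1 : 1 ≤ N ^ (1 / 4 : ℝ) := one_le_rpow hN1 (by norm_num)
  set R : ℕ := ⌈N ^ (1 / 4 : ℝ)⌉₊ with hR
  have hR1 : N ^ (1 / 4 : ℝ) ≤ R := Nat.le_ceil _
  have hR2 : (R : ℝ) ≤ 2 * N ^ (1 / 4 : ℝ) := by
    have := Nat.ceil_lt_add_one (show 0 ≤ N ^ (1 / 4 : ℝ) by positivity)
    rw [← hR] at this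
    linarith
  have hR3 : 1 ≤ R := by
    have : (1 : ℝ) ≤ R := le_trans hq1 hR1
    exact_mod_cast this
  have h1 := h.length hR3 m
  rw [← hN] at h1
  have hN12 : (1 : ℝ) ≤ N ^ (1 / 2 + ε) := one_le_rpow hN1 (by positivity)
  have h2 : N / (R : ℝ) ^ 2 ≤ N ^ (1 / 2 + ε) := by
    have h3 : N ^ (1 / 2 : ℝ) ≤ (R : ℝ) ^ 2 := by
      calc N ^ (1 / 2 : ℝ) = (N ^ (1 / 4 : ℝ)) ^ 2 := by
            rw [← rpow_natCast, ← rpow_mul hN0.le]; norm_num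
        _ ≤ (R : ℝ) ^ 2 := pow_le_pow_left₀ (by positivity) hR1 2
    have h4 : N / (R : ℝ) ^ 2 ≤ N ^ (1 / 2 : ℝ) := by
      rw [div_le_iff₀ (by positivity)]
      calc N = N ^ (1 / 2 : ℝ) * N ^ (1 / 2 : ℝ) := by
            rw [← rpow_add hN0]; norm_num
        _ ≤ N ^ (1 / 2 : ℝ) * (R : ℝ) ^ 2 := mul_le_mul_of_nonneg_left h3 (by positivity)
    exact h4.trans (rpow_le_rpow_of_exponent_le hN1 (by linarith))
  have h5 : ((prs R).card : ℝ) ≤ C0 * 2 ^ (2 + 4 * ε) * N ^ (1 / 2 + ε) := by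
    refine (hb R hR3).trans ?_
    have h6 : (R : ℝ) ^ (2 + 4 * ε) ≤ (2 * N ^ (1 / 4 : ℝ)) ^ (2 + 4 * ε) :=
      rpow_le_rpow (by positivity) hR2 (by positivity)
    have h7 : (2 * N ^ (1 / 4 : ℝ)) ^ (2 + 4 * ε) = 2 ^ (2 + 4 * ε) * N ^ (1 / 2 + ε) := by
      rw [mul_rpow (by norm_num) (by positivity), ← rpow_mul hN0.le]
      congr 2
      ring
    rw [h7] at h6
    calc C0 * (R : ℝ) ^ (2 + 4 * ε) ≤ C0 * (2 ^ (2 + 4 * ε) * N ^ (1 / 2 + ε)) :=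
          mul_le_mul_of_nonneg_left h6 hC0.le
      _ = _ := by ring
  calc (m : ℝ) ≤ 1 + 2 * (N / (R : ℝ) ^ 2) + ((prs R).card : ℝ) := h1
    _ ≤ N ^ (1 / 2 + ε) + 2 * N ^ (1 / 2 + ε) + C0 * 2 ^ (2 + 4 * ε) * N ^ (1 / 2 + ε) := by
        linarith
    _ = _ := by ring

/-- The weights of the steps. -/
noncomputable def om (κ : ℝ) (u : ℤ × ℤ) : ℝ := κ * (1 / (1 + (nrm u : ℝ)) ^ 2)

lemma exists_kappa : ∃ κ : ℝ, 0 < κ ∧ κ ≤ 1 ∧ (∑' u : ℤ × ℤ, ENNReal.ofReal (om κ u)) ≤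
    ENNReal.ofReal (1 / 2) := by
  have hs := summable_base
  set S := ∑' x : ℤ × ℤ, 1 / ((1 + (nrm x : ℝ)) ^ 2) with hS
  have hpos : ∀ x : ℤ × ℤ, 0 ≤ 1 / ((1 + (nrm x : ℝ)) ^ 2) := by
    intro x
    have : (0 : ℝ) ≤ nrm x := by exact_mod_cast nrm_nonneg x
    positivity
  have hS0 : 0 ≤ S := tsum_nonneg hpos
  refine ⟨1 / (2 * S + 2), by positivity, ?_, ?_⟩
  · rw [div_le_one (by positivity)]; linarith
  · have h1 : ∀ u : ℤ × ℤ, ENNReal.ofReal (om (1 / (2 * S + 2)) u) =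
        ENNReal.ofReal (1 / (2 * S + 2)) * ENNReal.ofReal (1 / ((1 + (nrm u : ℝ)) ^ 2)) := by
      intro u
      unfold om
      rw [ENNReal.ofReal_mul (by positivity)]
    simp_rw [h1]
    rw [ENNReal.tsum_mul_left, ← ENNReal.ofReal_tsum_of_nonneg hpos hs, ← hS,
      ← ENNReal.ofReal_mul (by positivity)]
    apply ENNReal.ofReal_le_ofReal
    rw [one_div_mul_eq_div, div_le_div_iff₀ (by positivity) (by norm_num)]
    linarith

/-- The next point of a chain along which the function does not decrease too fast. -/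
lemma exists_next {f : ℤ × ℤ → ℂ} (hf : Summable f) {w : ℤ × ℤ} {κ : ℝ} (hκ : 0 < κ)
    (hκs : (∑' u : ℤ × ℤ, ENNReal.ofReal (om κ u)) ≤ ENNReal.ofReal (1 / 2))
    {z : ℤ × ℤ} (hz : z ≠ 0) (hx : xray w f z = 0) (hfz : f z ≠ 0) :
    ∃ u ∈ Step z, om κ u * ‖f z‖ ≤ ‖f (z + u)‖ := by
  by_contra hcon
  push Not at hcon
  have hom : ∀ u, 0 ≤ om κ u := by
    intro u
    have : (0 : ℝ) ≤ nrm u := by exact_mod_cast nrm_nonneg u
    unfold om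
    positivity
  have h1 := row_bound hf hz hx
  have h2 : ∑' u : ℤ × ℤ, (Step z).indicator (fun u => ‖f (z + u)‖ₑ) u ≤
      ∑' u : ℤ × ℤ, ENNReal.ofReal (om κ u) * ENNReal.ofReal ‖f z‖ := by
    apply ENNReal.tsum_le_tsum
    intro u
    by_cases hu : u ∈ Step z
    · rw [Set.indicator_of_mem hu, ← ENNReal.ofReal_mul (hom u), ← ofReal_norm]
      exact ENNReal.ofReal_le_ofReal (hcon u hu).le
    · rw [Set.indicator_of_notMem hu]; exact zero_le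
  rw [ENNReal.tsum_mul_right] at h2
  have h3 : ‖f z‖ₑ ≤ ENNReal.ofReal (1 / 2) * ENNReal.ofReal ‖f z‖ :=
    h1.trans (h2.trans (mul_le_mul_left hκs _))
  rw [← ofReal_norm, ← ENNReal.ofReal_mul (by norm_num),
    ENNReal.ofReal_le_ofReal_iff (by positivity)] at h3
  have : 0 < ‖f z‖ := norm_pos_iff.mpr hfz
  linarith

/-- A chain along which the function does not decrease too fast. -/
lemma exists_chain {f : ℤ × ℤ → ℂ} (hf : Summable f) {w : ℤ × ℤ} {α : ℝ} {κ : ℝ} (hκ : 0 < κ)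
    (hκs : (∑' u : ℤ × ℤ, ENNReal.ofReal (om κ u)) ≤ ENNReal.ofReal (1 / 2))
    (hx : ∀ z, α ≤ len z → xray w f z = 0)
    {z0 : ℤ × ℤ} (hz0 : z0 ≠ 0) (hα : α ≤ len z0) (hf0 : f z0 ≠ 0) :
    ∃ z u : ℕ → ℤ × ℤ, Chain z u ∧ z 0 = z0 ∧ ∀ j, om κ (u j) * ‖f (z j)‖ ≤ ‖f (z (j + 1))‖ := by
  classical
  have hom : ∀ u, 0 < om κ u := by
    intro u
    have : (0 : ℝ) ≤ nrm u := by exact_mod_cast nrm_nonneg u
    unfold om
    positivity
  have key : ∀ x : {x : ℤ × ℤ // x ≠ 0 ∧ α ≤ len x ∧ f x ≠ 0},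
      ∃ y : {x : ℤ × ℤ // x ≠ 0 ∧ α ≤ len x ∧ f x ≠ 0},
      (y : ℤ × ℤ) - x ∈ Step x ∧ om κ ((y : ℤ × ℤ) - x) * ‖f x‖ ≤ ‖f y‖ := by
    rintro ⟨x, hx0, hxα, hfx⟩
    obtain ⟨u, hu, hle⟩ := exists_next hf hκ hκs hx0 (hx x hxα) hfx
    have hn : nrm (x + u) = nrm x + nrm u := nrm_add hu.1
    have h1 := nrm_pos hx0
    have h2 := nrm_pos hu.2
    refine ⟨⟨x + u, ?_, ?_, ?_⟩, ?_, ?_⟩
    · intro h
      have : nrm (x + u) = 0 := by rw [h]; simp [nrm]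
      omega
    · exact hxα.trans (len_le_len (by omega))
    · rw [← norm_pos_iff]
      exact lt_of_lt_of_le (mul_pos (hom u) (norm_pos_iff.mpr hfx)) hle
    · simpa using hu
    · simpa using hle
  choose g hg using key
  let s : ℕ → {x : ℤ × ℤ // x ≠ 0 ∧ α ≤ len x ∧ f x ≠ 0} :=
    fun n => Nat.rec ⟨z0, hz0, hα, hf0⟩ (fun _ x => g x) n
  have hs : ∀ n, s (n + 1) = g (s n) := fun n => rfl
  refine ⟨fun n => (s n).1, fun n => (s (n + 1)).1 - (s n).1, ?_, ?_, ?_⟩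
  · constructor
    · exact hz0
    · intro j
      have := (hg (s j)).1
      rw [← hs] at this
      exact this
    · intro j
      simp
  · rfl
  · intro j
    have := (hg (s j)).2
    rw [← hs] at this
    exact this

lemma chain_lower {f : ℤ × ℤ → ℂ} {κ : ℝ} (hκ : 0 < κ) {z u : ℕ → ℤ × ℤ} (h : Chain z u)
    (hle : ∀ j, om κ (u j) * ‖f (z j)‖ ≤ ‖f (z (j + 1))‖) (m : ℕ) :
    (κ * (1 / (1 + (nrm (z m) : ℝ)) ^ 2)) ^ m * ‖f (z 0)‖ ≤ ‖f (z m)‖ := by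
  set q := κ * (1 / (1 + (nrm (z m) : ℝ)) ^ 2) with hq
  have hn0 : (0 : ℝ) ≤ nrm (z m) := by exact_mod_cast nrm_nonneg _
  have hq0 : 0 ≤ q := by rw [hq]; positivity
  have key : ∀ k, k ≤ m → q ^ k * ‖f (z 0)‖ ≤ ‖f (z k)‖ := by
    intro k
    induction k with
    | zero => intro _; simp
    | succ k ih =>
      intro hk
      have h1 := ih (by omega)
      have h2 : q ≤ om κ (u k) := by
        rw [hq]
        unfold om
        apply mul_le_mul_of_nonneg_left _ hκ.le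
        have h3 : nrm (u k) ≤ nrm (z m) := by
          have h4 := h.nrm_next k
          have h5 : nrm (z (k + 1)) ≤ nrm (z m) := h.mono.monotone hk
          have h6 := nrm_nonneg (z k)
          omega
        have h4 : (nrm (u k) : ℝ) ≤ nrm (z m) := by exact_mod_cast h3
        have h5 : (0 : ℝ) ≤ nrm (u k) := by exact_mod_cast nrm_nonneg _
        apply one_div_le_one_div_of_le (by positivity)
        apply pow_le_pow_left₀ (by positivity)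
        linarith
      calc q ^ (k + 1) * ‖f (z 0)‖ = q * (q ^ k * ‖f (z 0)‖) := by ring
        _ ≤ q * ‖f (z k)‖ := mul_le_mul_of_nonneg_left h1 hq0
        _ ≤ om κ (u k) * ‖f (z k)‖ := mul_le_mul_of_nonneg_right h2 (norm_nonneg _)
        _ ≤ ‖f (z (k + 1))‖ := hle k
  exact key m le_rfl

end Pool.Agent.H57.XR
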