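import Mathlib
import Pool.Agent.H57.XR.Chb

/-!
Uniqueness for functions with decay `exp (- c |x| ^ b)`, `b > 1`: the final statement.
-/

namespace Pool.Agent.H57.XR

open Finset Real

/-- If chains ending at norm `N` have at most `C N ^ μ` points, uniqueness holds for the decay
`exp (- c N ^ β)`, `β > μ`. -/
theorem uniqueness_of_len {μ : ℝ} (hμ : 0 < μ) (hlen : ∃ C : ℝ, 0 < C ∧ ∀ z u : ℕ → ℤ × ℤ,
    Chain z u → ∀ m : ℕ, (m : ℝ) ≤ C * (nrm (z m) : ℝ) ^ μ)
    {w : ℤ × ℤ} {α : ℝ} {f : ℤ × ℤ → ℂ} {b c C : ℝ} (hb : 2 * μ < b)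
    (hc : 0 < c) (hf : ∀ x, ‖f x‖ ≤ C * exp (-(c * len x ^ b)))
    (hx : ∀ z, α ≤ len z → xray w f z = 0) : ∀ z, α ≤ len z → f z = 0 := by
  apply descent hx (B := 1)
  intro z0 hα hz0
  by_contra hf0
  have hz00 : z0 ≠ 0 := by
    intro h
    rw [h] at hz0
    simp [nrm] at hz0
  obtain ⟨κ, hκ, hκ1, hκs⟩ := exists_kappa
  have hsum : Summable f := summable_of_exp (by linarith) hc hf
  obtain ⟨z, u, hch, hzz, hle⟩ := exists_chain hsum hκ hκs hx hz00 hα hf0
  obtain ⟨C1, hC1, hlen⟩ := hlen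
  set β := b / 2 with hβ
  set ε := (β - μ) / 2 with hε
  have hε0 : 0 < ε := by rw [hε, hβ]; linarith
  set F := ‖f z0‖ with hF
  have hF0 : 0 < F := norm_pos_iff.mpr hf0
  have hC0 : 0 < C := by
    have h1 := hf z0
    have h2 := exp_pos (-(c * len z0 ^ b))
    by_contra h
    push Not at h
    have : C * exp (-(c * len z0 ^ b)) ≤ 0 := mul_nonpos_of_nonpos_of_nonneg h h2.le
    linarith
  have hlogκ : Real.log κ ≤ 0 := Real.log_nonpos hκ.le hκ1
  set K : ℝ := |Real.log C| + |Real.log F| + C1 * (-Real.log κ + 2 * (2 ^ ε / ε)) with hK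
  have main : ∀ m : ℕ, c * (nrm (z m) : ℝ) ^ ε ≤ K := by
    intro m
    set N : ℝ := ((nrm (z m) : ℤ) : ℝ) with hN
    have hN1 : 1 ≤ N := by
      rw [hN]
      exact_mod_cast nrm_pos (hch.ne m)
    have hN0 : 0 < N := by linarith
    have h1 := chain_lower hκ hch hle m
    rw [← hN, hzz, ← hF] at h1
    have h2 := hf (z m)
    rw [len_rpow, ← hN, ← hβ] at h2
    have h3 : (κ * (1 / (1 + N) ^ 2)) ^ m * F ≤ C * exp (-(c * N ^ β)) := h1.trans h2
    have hq : 0 < κ * (1 / (1 + N) ^ 2) := by positivity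
    have h4 := Real.log_le_log (by positivity) h3
    rw [Real.log_mul (by positivity) hF0.ne', Real.log_pow, Real.log_mul hC0.ne' (exp_pos _).ne',
      Real.log_exp, Real.log_mul hκ.ne' (by positivity), one_div, Real.log_inv, Real.log_pow] at h4
    have h5 : Real.log (1 + N) ≤ 2 ^ ε / ε * N ^ ε := by
      have h6 : Real.log (1 + N) ≤ (1 + N) ^ ε / ε := Real.log_le_rpow_div (by linarith) hε0
      have h7 : (1 + N) ^ ε ≤ (2 * N) ^ ε := rpow_le_rpow (by linarith) (by linarith) hε0.le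
      rw [mul_rpow (by norm_num) hN0.le] at h7
      calc Real.log (1 + N) ≤ (1 + N) ^ ε / ε := h6
        _ ≤ (2 ^ ε * N ^ ε) / ε := div_le_div_of_nonneg_right h7 hε0.le
        _ = _ := by ring
    have hNε : 1 ≤ N ^ ε := one_le_rpow hN1 hε0.le
    have h6 : -Real.log κ + 2 * Real.log (1 + N) ≤ (-Real.log κ + 2 * (2 ^ ε / ε)) * N ^ ε := by
      have : -Real.log κ ≤ -Real.log κ * N ^ ε := by nlinarith
      nlinarith
    have h7 : (m : ℝ) * (-Real.log κ + 2 * Real.log (1 + N)) ≤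
        (C1 * N ^ μ) * ((-Real.log κ + 2 * (2 ^ ε / ε)) * N ^ ε) := by
      apply mul_le_mul (hlen z u hch m) h6 _ (by positivity)
      have : 0 ≤ Real.log (1 + N) := Real.log_nonneg (by linarith)
      linarith
    have hsplit : N ^ β = N ^ (μ + ε) * N ^ ε := by
      rw [← rpow_add hN0]
      congr 1
      rw [hε]; ring
    have hμε : 1 ≤ N ^ (μ + ε) := one_le_rpow hN1 (by positivity)
    have h8 : c * N ^ β ≤ |Real.log C| + |Real.log F| +
        C1 * (-Real.log κ + 2 * (2 ^ ε / ε)) * N ^ (μ + ε) := by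
      have h9 := le_abs_self (Real.log C)
      have h10 := neg_abs_le (Real.log F)
      have h11 : (C1 * N ^ μ) * ((-Real.log κ + 2 * (2 ^ ε / ε)) * N ^ ε) =
          C1 * (-Real.log κ + 2 * (2 ^ ε / ε)) * N ^ (μ + ε) := by
        rw [rpow_add hN0]; ring
      rw [h11] at h7
      push_cast at h4
      nlinarith
    have h9 : |Real.log C| + |Real.log F| ≤ (|Real.log C| + |Real.log F|) * N ^ (μ + ε) := by
      have : 0 ≤ |Real.log C| + |Real.log F| := by positivity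
      nlinarith
    have h10 : (c * N ^ ε) * N ^ (μ + ε) ≤ K * N ^ (μ + ε) := by
      rw [hsplit] at h8
      rw [hK]
      nlinarith
    exact le_of_mul_le_mul_right h10 (by positivity)
  have hgrow : ∀ m : ℕ, (m : ℝ) ≤ nrm (z m) := by
    intro m
    have h1 : ∀ k : ℕ, (k : ℤ) ≤ nrm (z k) := by
      intro k
      induction k with
      | zero => exact_mod_cast nrm_nonneg _
      | succ k ih =>
        have h2 := hch.nrm_next k
        have h3 := hch.pos k
        push_cast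
        omega
    exact_mod_cast h1 m
  have ht : Filter.Tendsto (fun m : ℕ => c * (m : ℝ) ^ ε) Filter.atTop Filter.atTop :=
    ((tendsto_rpow_atTop hε0).comp tendsto_natCast_atTop_atTop).const_mul_atTop hc
  obtain ⟨m, hm⟩ := (ht.eventually_gt_atTop K).exists
  have h1 := main m
  have h2 : (m : ℝ) ^ ε ≤ (nrm (z m) : ℝ) ^ ε :=
    rpow_le_rpow (by positivity) (hgrow m) hε0.le
  have h3 : c * (m : ℝ) ^ ε ≤ c * (nrm (z m) : ℝ) ^ ε := mul_le_mul_of_nonneg_left h2 hc.le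
  linarith

theorem uniqueness_pair_of_len {μ : ℝ} (hμ : 0 < μ) (hlen : ∃ C : ℝ, 0 < C ∧
    ∀ z u : ℕ → ℤ × ℤ, Chain z u → ∀ m : ℕ, (m : ℝ) ≤ C * (nrm (z m) : ℝ) ^ μ)
    {w : ℤ × ℤ} {α : ℝ} {f g : ℤ × ℤ → ℂ} {b c C : ℝ} (hb : 2 * μ < b)
    (hc : 0 < c) (hf : ∀ x, ‖f x‖ ≤ C * exp (-(c * len x ^ b)))
    (hg : ∀ x, ‖g x‖ ≤ C * exp (-(c * len x ^ b)))
    (h : ∀ z, α ≤ len z → xray w f z = xray w g z) : ∀ z, α ≤ len z → f z = g z := by
  intro z hz
  have hfs : Summable f := summable_of_exp (by linarith) hc hf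
  have hgs : Summable g := summable_of_exp (by linarith) hc hg
  have h1 : ∀ x, ‖f x - g x‖ ≤ (2 * C) * exp (-(c * len x ^ b)) := by
    intro x
    refine le_trans (norm_sub_le _ _) ?_
    have := hf x
    have := hg x
    linarith
  have h2 : ∀ z, α ≤ len z → xray w (fun x => f x - g x) z = 0 := by
    intro z hz
    have h3 := h z hz
    unfold xray at h3 ⊢
    have h4 : Summable (fun y : {y : ℤ × ℤ // OnLine w z y} => f y) := hfs.subtype _
    have h5 : Summable (fun y : {y : ℤ × ℤ // OnLine w z y} => g y) := hgs.subtype _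
    rw [h4.tsum_sub h5, h3, sub_self]
  exact sub_eq_zero.mp (uniqueness_of_len hμ hlen hb hc h1 h2 z hz)

theorem uniqueness_one {w : ℤ × ℤ} {α : ℝ} {f g : ℤ × ℤ → ℂ} {b c C : ℝ} (hb : 1 < b)
    (hc : 0 < c) (hf : ∀ x, ‖f x‖ ≤ C * exp (-(c * len x ^ b)))
    (hg : ∀ x, ‖g x‖ ≤ C * exp (-(c * len x ^ b)))
    (h : ∀ z, α ≤ len z → xray w f z = xray w g z) : ∀ z, α ≤ len z → f z = g z := by
  have hε : 0 < (b - 1) / 4 := by linarith
  exact uniqueness_pair_of_len (μ := 1 / 2 + (b - 1) / 4) (by linarith) (len_bound hε)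
    (by linarith) hc hf hg h

end Pool.Agent.H57.XR
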