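import Mathlib
import Pool.Agent.H57.XR.Def
import Pool.Agent.H57.XR.Ana
import Pool.Agent.H57.XR.Uni

/-!
A nonzero function of size `|x| ^ (-2)` all of whose line sums vanish.
-/

namespace Pool.Agent.H57.XR

/-- The rotation by a right angle. -/
def rot (x : ℤ × ℤ) : ℤ × ℤ := (-x.2, x.1)

lemma nrm_rot (x : ℤ × ℤ) : nrm (rot x) = nrm x := by unfold nrm rot; ring

lemma nrm_add_rot (x : ℤ × ℤ) : nrm (x + rot x) = 2 * nrm x := by
  unfold nrm rot; simp only [Prod.fst_add, Prod.snd_add]; ring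

lemma nrm_sub_rot (x : ℤ × ℤ) : nrm (x - rot x) = 2 * nrm x := by
  unfold nrm rot; simp only [Prod.fst_sub, Prod.snd_sub]; ring

lemma unit_cases {x : ℤ × ℤ} (h : nrm x = 1) : x = (1, 0) ∨ x = (-1, 0) ∨ x = (0, 1) ∨ x = (0, -1) := by
  rcases x with ⟨a, b⟩
  unfold nrm at h
  simp only at h
  have ha : a ^ 2 ≤ 1 := by nlinarith [sq_nonneg b]
  have hb : b ^ 2 ≤ 1 := by nlinarith [sq_nonneg a]
  have ha1 : a ≤ 1 := by nlinarith
  have ha2 : -1 ≤ a := by nlinarith
  have hb1 : b ≤ 1 := by nlinarith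
  have hb2 : -1 ≤ b := by nlinarith
  interval_cases a <;> interval_cases b <;> simp_all

/-- The points of norm `2 ^ n` are the four images of one of them. -/
lemma four (n : ℕ) : ∀ x y : ℤ × ℤ, nrm x = 2 ^ n → nrm y = 2 ^ n →
    y = x ∨ y = -x ∨ y = rot x ∨ y = -rot x := by
  induction n with
  | zero =>
    intro x y hx hy
    rw [pow_zero] at hx hy
    rcases unit_cases hx with h | h | h | h <;> rcases unit_cases hy with h' | h' | h' | h' <;>
      subst h <;> subst h' <;> simp [rot]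
  | succ n ih =>
    have half : ∀ x : ℤ × ℤ, nrm x = 2 ^ (n + 1) → ∃ a b : ℤ, x = (a - b, a + b) ∧
        nrm (a, b) = 2 ^ n := by
      rintro ⟨p, q⟩ h
      unfold nrm at h
      simp only at h
      have hpar : (p + q) % 2 = 0 := by
        have h1 : (p ^ 2 + q ^ 2) % 2 = 0 := by rw [h, pow_succ]; omega
        rcases Int.emod_two_eq_zero_or_one p with hp | hp <;>
          rcases Int.emod_two_eq_zero_or_one q with hq | hq <;>
          simp [pow_two, Int.add_emod, Int.mul_emod, hp, hq] at h1 ⊢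
      refine ⟨(p + q) / 2, (q - p) / 2, ?_, ?_⟩
      · ext <;> simp only <;> omega
      · obtain ⟨a, ha⟩ : ∃ a, p + q = 2 * a := ⟨(p + q) / 2, by omega⟩
        have h2 : (p + q) / 2 = a := by omega
        have h3 : (q - p) / 2 = a - p := by omega
        rw [h2, h3]
        unfold nrm
        simp only
        have hq : q = 2 * a - p := by linarith
        subst hq
        have h4 : (2 : ℤ) ^ (n + 1) = 2 * 2 ^ n := by ring
        rw [h4] at h
        nlinarith
    intro x y hx hy
    obtain ⟨a, b, rfl, hab⟩ := half x hx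
    obtain ⟨c, d, rfl, hcd⟩ := half y hy
    rcases ih (a, b) (c, d) hab hcd with h | h | h | h
    · left
      simp only [Prod.mk.injEq] at h ⊢
      constructor <;> omega
    · right; left
      simp only [Prod.neg_mk, Prod.mk.injEq] at h ⊢
      constructor <;> omega
    · right; right; left
      simp only [rot, Prod.mk.injEq] at h ⊢
      constructor <;> omega
    · right; right; right
      simp only [rot, Prod.neg_mk, Prod.mk.injEq] at h ⊢
      constructor <;> omega

/-- The points of norm a power of two on a line. -/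
lemma classify {w z y : ℤ × ℤ} (hz : z ≠ 0) (hy : OnLine w z y) {n : ℕ} (hn : nrm y = 2 ^ n) :
    y = z ∨ y = z + rot z ∨ y = z - rot z := by
  unfold OnLine at hy
  rw [if_neg hz] at hy
  have h1 : nrm (z + (y - z)) = nrm z + nrm (y - z) := nrm_add (by simpa using hy)
  have h2 : nrm (z + (-(y - z))) = nrm z + nrm (-(y - z)) := by
    apply nrm_add
    simp only [Prod.fst_neg, Prod.snd_neg, Prod.fst_sub, Prod.snd_sub]
    linarith
  have h3 : nrm (-(y - z)) = nrm (y - z) := by
    unfold nrm; simp only [Prod.fst_neg, Prod.snd_neg]; ring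
  have h4 : z + (y - z) = y := by abel
  have h5 : nrm (z + (-(y - z))) = 2 ^ n := by rw [h2, h3, ← h1, h4, hn]
  rcases z with ⟨z1, z2⟩
  rcases y with ⟨y1, y2⟩
  rcases four n _ _ hn h5 with h | h | h | h
  · left
    simp only [Prod.mk_sub_mk, Prod.neg_mk, Prod.mk_add_mk, Prod.mk.injEq] at h ⊢
    constructor <;> omega
  · exfalso
    apply hz
    simp only [Prod.mk_sub_mk, Prod.neg_mk, Prod.mk_add_mk, Prod.mk.injEq] at h
    have e1 : z1 = 0 := by omega
    have e2 : z2 = 0 := by omega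
    rw [e1, e2]; rfl
  · right; right
    simp only [rot, Prod.mk_sub_mk, Prod.neg_mk, Prod.mk_add_mk, Prod.mk.injEq] at h ⊢
    constructor <;> omega
  · right; left
    simp only [rot, Prod.mk_sub_mk, Prod.neg_mk, Prod.mk_add_mk, Prod.mk.injEq] at h ⊢
    constructor <;> omega

open Classical in
/-- The function. -/
noncomputable def ex (x : ℤ × ℤ) : ℂ :=
  if h : ∃ n : ℕ, nrm x = 2 ^ n then (-1 / 2) ^ (Nat.find h) else 0

lemma ex_of_nrm {x : ℤ × ℤ} {n : ℕ} (h : nrm x = 2 ^ n) : ex x = (-1 / 2) ^ n := by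
  classical
  have hex : ∃ n : ℕ, nrm x = 2 ^ n := ⟨n, h⟩
  unfold ex
  rw [dif_pos hex]
  congr 1
  have h1 := Nat.find_spec hex
  have h2 : (2 : ℤ) ^ n = 2 ^ (Nat.find hex) := h.symm.trans h1
  have h3 : (2 : ℕ) ^ n = 2 ^ (Nat.find hex) := by exact_mod_cast h2
  have h4 := Nat.pow_right_injective (le_refl 2) h3
  convert h4.symm

lemma ex_of_not {x : ℤ × ℤ} (h : ¬ ∃ n : ℕ, nrm x = 2 ^ n) : ex x = 0 := by
  unfold ex; rw [dif_neg h]

lemma norm_ex (x : ℤ × ℤ) : len x ^ 2 * ‖ex x‖ ≤ 1 := by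
  by_cases h : ∃ n : ℕ, nrm x = 2 ^ n
  · obtain ⟨n, hn⟩ := h
    rw [ex_of_nrm hn, len_sq, hn, norm_pow]
    have : ‖(-1 / 2 : ℂ)‖ = 1 / 2 := by simp
    rw [this]
    push_cast
    rw [← mul_pow]
    norm_num
  · rw [ex_of_not h]; simp

lemma row_ex {w z : ℤ × ℤ} (hz : z ≠ 0) :
    Summable (fun y : {y : ℤ × ℤ // OnLine w z y} => ex y) ∧ xray w ex z = 0 := by
  classical
  have o1 : OnLine w z (z + rot z) := by
    unfold OnLine; rw [if_neg hz]; simp only [rot, Prod.fst_add, Prod.snd_add]; ring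
  have o2 : OnLine w z (z - rot z) := by
    unfold OnLine; rw [if_neg hz]; simp only [rot, Prod.fst_sub, Prod.snd_sub]; ring
  have hr : rot z ≠ 0 := by
    intro h
    have h1 := nrm_pos hz
    rw [← nrm_rot, h] at h1
    simp [nrm] at h1
  let p0 : {y : ℤ × ℤ // OnLine w z y} := ⟨z, onLine_self w z⟩
  let p1 : {y : ℤ × ℤ // OnLine w z y} := ⟨z + rot z, o1⟩
  let p2 : {y : ℤ × ℤ // OnLine w z y} := ⟨z - rot z, o2⟩
  have n01 : p0 ≠ p1 := by
    intro h
    have := congrArg Subtype.val h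
    apply hr
    simpa [p0, p1] using this
  have n02 : p0 ≠ p2 := by
    intro h
    have h1 : z = z - rot z := congrArg Subtype.val h
    apply hr
    exact sub_eq_self.mp h1.symm
  have n12 : p1 ≠ p2 := by
    intro h
    have h1 : z + rot z = z - rot z := congrArg Subtype.val h
    apply hr
    have h2 : rot z = -rot z := by
      have : z + rot z = z + -rot z := by rw [h1]; abel
      exact add_left_cancel this
    have h3 := congrArg Prod.fst h2
    have h4 := congrArg Prod.snd h2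
    simp only [Prod.fst_neg, Prod.snd_neg] at h3 h4
    ext
    · show (rot z).1 = 0; omega
    · show (rot z).2 = 0; omega
  have hs : HasSum (fun y : {y : ℤ × ℤ // OnLine w z y} => ex y)
      (∑ y ∈ ({p0, p1, p2} : Finset {y : ℤ × ℤ // OnLine w z y}), ex y) := by
    apply hasSum_sum_of_ne_finset_zero
    rintro ⟨y, hy⟩ hne
    by_contra hc
    have h1 : ∃ n : ℕ, nrm y = 2 ^ n := by
      by_contra h; exact hc (ex_of_not h)
    obtain ⟨n, hn⟩ := h1
    apply hne
    simp only [Finset.mem_insert, Finset.mem_singleton, p0, p1, p2, Subtype.mk.injEq]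
    exact classify hz hy hn
  have hsum : (∑ y ∈ ({p0, p1, p2} : Finset {y : ℤ × ℤ // OnLine w z y}), ex y) = 0 := by
    rw [Finset.sum_insert (by simp [n01, n02]), Finset.sum_insert (by simp [n12]),
      Finset.sum_singleton]
    show ex z + (ex (z + rot z) + ex (z - rot z)) = 0
    by_cases h : ∃ n : ℕ, nrm z = 2 ^ n
    · obtain ⟨n, hn⟩ := h
      rw [ex_of_nrm hn, ex_of_nrm (n := n + 1) (by rw [nrm_add_rot, hn]; ring),
        ex_of_nrm (n := n + 1) (by rw [nrm_sub_rot, hn]; ring)]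
      ring
    · have h' : ¬ ∃ n : ℕ, 2 * nrm z = 2 ^ n := by
        rintro ⟨n, hn⟩
        cases n with
        | zero => rw [pow_zero] at hn; omega
        | succ n => exact h ⟨n, by rw [pow_succ] at hn; omega⟩
      rw [ex_of_not h, ex_of_not (by rw [nrm_add_rot]; exact h'),
        ex_of_not (by rw [nrm_sub_rot]; exact h')]
      ring
  refine ⟨hs.summable, ?_⟩
  unfold xray
  rw [hs.tsum_eq, hsum]

lemma ex_large (α : ℝ) : ∃ z, α ≤ len z ∧ ex z ≠ 0 := by
  obtain ⟨n, hn⟩ := pow_unbounded_of_one_lt α (show (1 : ℝ) < 2 by norm_num)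
  refine ⟨(2 ^ n, 0), ?_, ?_⟩
  · have : len (2 ^ n, 0) = 2 ^ n := by
      unfold len
      push_cast
      rw [show ((2 : ℝ) ^ n) ^ 2 + 0 ^ 2 = (2 ^ n) ^ 2 by ring]
      exact Real.sqrt_sq (by positivity)
    rw [this]; exact hn.le
  · have h1 : nrm ((2 : ℤ) ^ n, 0) = 2 ^ (n * 2) := by
      unfold nrm; simp only; rw [pow_mul]; ring
    rw [ex_of_nrm h1]
    apply pow_ne_zero
    norm_num

end Pool.Agent.H57.XR
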