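import Mathlib

/-!
Gaussian integers: primitive elements, the structure of one step and of two steps of a chain.
-/

namespace Pool.Agent.H57.XR

open Finset

/-- Primitive Gaussian integers. -/
def Pr (x : GaussianInt) : Prop := IsCoprime x.re x.im

lemma Pr.of_dvd {x y : GaussianInt} (hx : Pr x) (h : y ∣ x) : Pr y := by
  unfold Pr
  rw [Int.isCoprime_iff_gcd_eq_one]
  have h1 : ((Int.gcd y.re y.im : ℤ) : GaussianInt) ∣ y := by
    rw [Zsqrtd.intCast_dvd]
    exact ⟨Int.gcd_dvd_left _ _, Int.gcd_dvd_right _ _⟩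
  have h2 := h1.trans h
  rw [Zsqrtd.intCast_dvd] at h2
  have h3 : (Int.gcd y.re y.im : ℤ) ∣ (Int.gcd x.re x.im : ℤ) := Int.dvd_coe_gcd h2.1 h2.2
  unfold Pr at hx
  rw [Int.isCoprime_iff_gcd_eq_one] at hx
  rw [hx] at h3
  have h4 : Int.gcd y.re y.im ∣ 1 := by exact_mod_cast h3
  exact Nat.dvd_one.mp h4

lemma norm_eq (x : GaussianInt) : x.norm = x.re ^ 2 + x.im ^ 2 := by
  rw [Zsqrtd.norm_def]; ring

lemma norm_pos' {x : GaussianInt} (hx : x ≠ 0) : 0 < x.norm := GaussianInt.norm_pos.mpr hx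

/-- The norm of a primitive divisor of an integer divides the integer. -/
lemma Pr.norm_dvd {θ : GaussianInt} (hθ : Pr θ) {I : ℤ} (h : θ ∣ (I : GaussianInt)) :
    θ.norm ∣ I := by
  obtain ⟨τ, hτ⟩ := h
  obtain ⟨a, b, hab⟩ := hθ
  have e1 : star θ * (I : GaussianInt) = (θ.norm : ℤ) * τ := by
    rw [hτ, Zsqrtd.norm_eq_mul_conj]; ring
  have e2 := congrArg Zsqrtd.re e1
  have e3 := congrArg Zsqrtd.im e1
  simp only [Zsqrtd.re_mul, Zsqrtd.im_mul, Zsqrtd.re_star, Zsqrtd.im_star, Zsqrtd.re_intCast,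
    Zsqrtd.im_intCast, mul_zero, zero_mul, add_zero, zero_add] at e2 e3
  refine ⟨a * τ.re - b * τ.im, ?_⟩
  linear_combination (-1 : ℤ) * I * hab + a * e2 - b * e3

/-- The part of `q` prime to `g`. -/
noncomputable def kap (q : GaussianInt) (g : ℤ) : GaussianInt :=
  q / EuclideanDomain.gcd q (g : GaussianInt)

/-- The part of `g` prime to `q`. -/
noncomputable def eff (q : GaussianInt) (g : ℤ) : GaussianInt :=
  (g : GaussianInt) / EuclideanDomain.gcd q (g : GaussianInt)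

/-- The least common multiple of `kap q g` and `eff q' g'`. -/
noncomputable def omg (q : GaussianInt) (g : ℤ) (q' : GaussianInt) (g' : ℤ) : GaussianInt :=
  kap q g * (eff q' g' / EuclideanDomain.gcd (kap q g) (eff q' g'))

/-- The structure of one step: `p q = g p'` with `p`, `p'` primitive. -/
lemma one_step {p q p' : GaussianInt} {g : ℤ} (hg : 0 < g) (hp : Pr p)
    (hq : q ≠ 0) (h : p * q = g * p') :
    ∃ c : ℤ, kap q g ∣ p' ∧ eff q g ∣ p ∧ 0 < c ∧
      q = c * star (eff q g) * kap q g ∧ g = c * (eff q g).norm ∧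
      q.norm = (kap q g).norm * (c * g) ∧ c ∣ q.re ∧ c ∣ q.im ∧
      kap q g ≠ 0 ∧ eff q g ≠ 0 := by
  unfold kap eff
  set e := EuclideanDomain.gcd q (g : GaussianInt) with he
  have hg0 : (g : GaussianInt) ≠ 0 := by
    intro h0
    have : (g : ℤ) = 0 := by exact_mod_cast congrArg Zsqrtd.re h0
    omega
  have he0 : e ≠ 0 := by
    intro h0
    rw [he, EuclideanDomain.gcd_eq_zero_iff] at h0
    exact hq h0.1
  have d1 : e ∣ q := EuclideanDomain.gcd_dvd_left _ _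
  have d2 : e ∣ (g : GaussianInt) := EuclideanDomain.gcd_dvd_right _ _
  have q1 : q = e * (q / e) := (EuclideanDomain.mul_div_cancel' he0 d1).symm
  have g1 : (g : GaussianInt) = e * ((g : GaussianInt) / e) :=
    (EuclideanDomain.mul_div_cancel' he0 d2).symm
  set κ := q / e with hκ
  set f := (g : GaussianInt) / e with hf
  have hκ0 : κ ≠ 0 := by
    intro h0; rw [h0, mul_zero] at q1; exact hq q1
  have hf0 : f ≠ 0 := by
    intro h0; rw [h0, mul_zero] at g1; exact hg0 g1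
  have hco : IsCoprime κ f := by
    have h1 := EuclideanDomain.gcd_eq_gcd_ab q (g : GaussianInt)
    rw [← he] at h1
    refine ⟨EuclideanDomain.gcdA q (g : GaussianInt), EuclideanDomain.gcdB q (g : GaussianInt), ?_⟩
    apply mul_left_cancel₀ he0
    rw [mul_one]
    generalize EuclideanDomain.gcdA q (g : GaussianInt) = A at h1 ⊢
    generalize EuclideanDomain.gcdB q (g : GaussianInt) = B at h1 ⊢
    calc e * (A * κ + B * f) = (e * κ) * A + (e * f) * B := by ring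
      _ = q * A + (g : GaussianInt) * B := by rw [← q1, ← g1]
      _ = e := h1.symm
  have h2 : p * κ = f * p' := by
    apply mul_left_cancel₀ he0
    calc e * (p * κ) = p * (e * κ) := by ring
      _ = p * q := by rw [← q1]
      _ = g * p' := h
      _ = e * f * p' := by rw [← g1]
      _ = e * (f * p') := by ring
  have hkp : κ ∣ p' := hco.dvd_of_dvd_mul_left ⟨p, by rw [← h2]; ring⟩
  have hfp : f ∣ p := hco.symm.dvd_of_dvd_mul_right ⟨p', h2⟩
  have hfP : Pr f := hp.of_dvd hfp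
  obtain ⟨c, hc⟩ := hfP.norm_dvd ⟨e, by rw [g1]; ring⟩
  have hfn := norm_pos' hf0
  have hc0 : 0 < c := by
    by_contra h0
    push Not at h0
    have : g ≤ 0 := by rw [hc]; nlinarith
    omega
  have he2 : e = c * star f := by
    apply mul_right_cancel₀ hf0
    rw [← g1, hc]
    push_cast
    rw [Zsqrtd.norm_eq_mul_conj]
    ring
  have hq2 : q = c * star f * κ := by rw [← he2]; exact q1
  refine ⟨c, hkp, hfp, hc0, hq2, by rw [hc]; ring, ?_, ?_, ?_, hκ0, hf0⟩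
  · have h3 := congrArg Zsqrtd.norm hq2
    rw [Zsqrtd.norm_mul, Zsqrtd.norm_mul, Zsqrtd.norm_intCast, Zsqrtd.norm_conj] at h3
    rw [h3, hc]; ring
  · have h3 : (c : GaussianInt) ∣ q := ⟨star f * κ, by rw [hq2]; ring⟩
    rw [Zsqrtd.intCast_dvd] at h3
    exact h3.1
  · have h3 : (c : GaussianInt) ∣ q := ⟨star f * κ, by rw [hq2]; ring⟩
    rw [Zsqrtd.intCast_dvd] at h3
    exact h3.2

/-- The structure of two steps. -/
lemma two_step {p p' p'' : GaussianInt} {g t g' t' g'' : ℤ} (hg : 0 < g) (hg' : 0 < g')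
    (hg'' : 0 < g'') (hp : Pr p) (hp' : Pr p')
    (h : p * ⟨g, t⟩ = g' * p') (h' : p' * ⟨g', t'⟩ = g'' * p'') :
    ∃ c c' k m T : ℤ, 0 < c ∧ 0 < c' ∧ 0 < k ∧ 0 < T ∧
      omg ⟨g, t⟩ g' ⟨g', t'⟩ g'' ∣ p' ∧ omg ⟨g, t⟩ g' ⟨g', t'⟩ g'' ≠ 0 ∧
      (omg ⟨g, t⟩ g' ⟨g', t'⟩ g'').norm * T = (kap ⟨g, t⟩ g').norm * (eff ⟨g', t'⟩ g'').norm ∧
      g ^ 2 + t ^ 2 = (kap ⟨g, t⟩ g').norm * (c * g') ∧ c ∣ g ∧ c ∣ t ∧
      (kap ⟨g, t⟩ g').norm = k * T ∧ g * t' + g' * t = m * T ∧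
      g'' = c' * (eff ⟨g', t'⟩ g'').norm ∧ c' ∣ g' ∧ c' ∣ t' := by
  have hq : (⟨g, t⟩ : GaussianInt) ≠ 0 := by
    intro h0
    have : g = 0 := congrArg Zsqrtd.re h0
    omega
  have hq' : (⟨g', t'⟩ : GaussianInt) ≠ 0 := by
    intro h0
    have : g' = 0 := congrArg Zsqrtd.re h0
    omega
  obtain ⟨c, a1, a2, a3, a4, a5, a6, a7, a8, a9, a10⟩ := one_step hg' hp hq h
  obtain ⟨c', b1, b2, b3, b4, b5, b6, b7, b8, b9, b10⟩ := one_step hg'' hp' hq' h'
  unfold omg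
  set κ := kap ⟨g, t⟩ g' with hκ
  set f := eff ⟨g', t'⟩ g'' with hf
  set θ := EuclideanDomain.gcd κ f with hθ
  have hθ0 : θ ≠ 0 := by
    intro h0
    rw [hθ, EuclideanDomain.gcd_eq_zero_iff] at h0
    exact a9 h0.1
  have d1 : θ ∣ κ := EuclideanDomain.gcd_dvd_left _ _
  have d2 : θ ∣ f := EuclideanDomain.gcd_dvd_right _ _
  have f1 : f = θ * (f / θ) := (EuclideanDomain.mul_div_cancel' hθ0 d2).symm
  obtain ⟨κ1, k1⟩ := d1
  have hκ10 : κ1 ≠ 0 := by
    intro h0; rw [h0, mul_zero] at k1; exact a9 k1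
  set φ := f / θ with hφ
  have hφ0 : φ ≠ 0 := by
    intro h0; rw [h0, mul_zero] at f1; exact b10 f1
  have hco : IsCoprime κ1 φ := by
    have h1 := EuclideanDomain.gcd_eq_gcd_ab κ f
    rw [← hθ] at h1
    refine ⟨EuclideanDomain.gcdA κ f, EuclideanDomain.gcdB κ f, ?_⟩
    apply mul_left_cancel₀ hθ0
    rw [mul_one]
    generalize EuclideanDomain.gcdA κ f = A at h1 ⊢
    generalize EuclideanDomain.gcdB κ f = B at h1 ⊢
    calc θ * (A * κ1 + B * φ) = (θ * κ1) * A + (θ * φ) * B := by ring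
      _ = κ * A + f * B := by rw [← k1, ← f1]
      _ = θ := h1.symm
  have hω : κ * φ ∣ p' := by
    obtain ⟨x, hx⟩ := a1
    obtain ⟨y, hy⟩ := b2
    have h1 : κ1 * x = φ * y := by
      apply mul_left_cancel₀ hθ0
      calc θ * (κ1 * x) = (θ * κ1) * x := by ring
        _ = κ * x := by rw [← k1]
        _ = f * y := by rw [← hx, hy]
        _ = (θ * φ) * y := by rw [← f1]
        _ = θ * (φ * y) := by ring
    have h2 : φ ∣ x := hco.symm.dvd_of_dvd_mul_left ⟨y, h1⟩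
    obtain ⟨v, hv⟩ := h2
    exact ⟨v, by rw [hx, hv]; ring⟩
  have hθP : Pr θ := hp'.of_dvd (d2.trans b2)
  have hq1 : θ ∣ (⟨g, t⟩ : GaussianInt) := by
    rw [a4]
    exact Dvd.dvd.mul_left (by rw [k1]; exact dvd_mul_right _ _) _
  have hq2 : θ ∣ star (⟨g', t'⟩ : GaussianInt) := by
    rw [b4, star_mul, star_mul, star_star]
    exact Dvd.dvd.mul_left (Dvd.dvd.mul_right d2 _) _
  have hM : θ ∣ ((g * t' + g' * t : ℤ) : GaussianInt) := by
    have h1 : ((g * t' + g' * t : ℤ) : GaussianInt) =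
        (t' : GaussianInt) * ⟨g, t⟩ + (t : GaussianInt) * star ⟨g', t'⟩ := by
      rw [Zsqrtd.ext_iff]
      simp only [Zsqrtd.re_add, Zsqrtd.im_add, Zsqrtd.re_mul, Zsqrtd.im_mul, Zsqrtd.re_star,
        Zsqrtd.im_star, Zsqrtd.re_intCast, Zsqrtd.im_intCast]
      constructor <;> ring
    rw [h1]
    exact dvd_add (Dvd.dvd.mul_left hq1 _) (Dvd.dvd.mul_left hq2 _)
  obtain ⟨m, hm⟩ := hθP.norm_dvd hM
  have n1 : κ.norm = κ1.norm * θ.norm := by rw [k1, Zsqrtd.norm_mul]; ring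
  have n2 : f.norm = θ.norm * φ.norm := by
    conv_lhs => rw [f1]
    rw [Zsqrtd.norm_mul]
  refine ⟨c, c', κ1.norm, m, θ.norm, a3, b3, norm_pos' hκ10, norm_pos' hθ0, hω,
    mul_ne_zero a9 hφ0, ?_, ?_, a7, a8, n1, by rw [hm]; ring, b5, b7, b8⟩
  · rw [Zsqrtd.norm_mul, n2]; ring
  · rw [← a6, norm_eq]

end Pool.Agent.H57.XR
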