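import Mathlib
import Pool.Agent.H57.XR.Gsa

/-!
Counting multiples of a Gaussian integer, and the points of a conic.
-/

namespace Pool.Agent.H57.XR

open Finset

/-- Multiples of `ω` of bounded norm. -/
lemma card_mult {ω : GaussianInt} (hω : ω ≠ 0) {X : ℝ} (hX : 0 ≤ X) (F : Finset GaussianInt)
    (h : ∀ x ∈ F, x ≠ 0 ∧ ω ∣ x ∧ (x.norm : ℝ) ≤ X) : (F.card : ℝ) * ω.norm ≤ 8 * X := by
  have hn : (0 : ℝ) < (ω.norm : ℝ) := by exact_mod_cast norm_pos' hω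
  set s : ℕ := ⌊Real.sqrt (X / ω.norm)⌋₊ with hs
  have hXn : 0 ≤ X / ω.norm := by positivity
  have hs2 : (s : ℝ) ^ 2 ≤ X / ω.norm := by
    have h1 : (s : ℝ) ≤ Real.sqrt (X / ω.norm) := Nat.floor_le (Real.sqrt_nonneg _)
    calc (s : ℝ) ^ 2 ≤ Real.sqrt (X / ω.norm) ^ 2 := by gcongr
      _ = X / ω.norm := Real.sq_sqrt hXn
  rcases F.eq_empty_or_nonempty with h0 | ⟨x0, hx0⟩
  · rw [h0, card_empty]; push_cast; rw [zero_mul]; positivity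
  have key : ∀ x ∈ F, ∃ y : GaussianInt, x = ω * y ∧ y ≠ 0 ∧ (y.norm : ℝ) ≤ X / ω.norm := by
    intro x hx
    obtain ⟨h1, ⟨y, hy⟩, h3⟩ := h x hx
    refine ⟨y, hy, ?_, ?_⟩
    · intro h0; rw [h0, mul_zero] at hy; exact h1 hy
    · rw [le_div_iff₀ hn]
      rw [hy, Zsqrtd.norm_mul] at h3
      push_cast at h3
      linarith
  have hsmall : ∀ (y : GaussianInt), (y.norm : ℝ) ≤ X / ω.norm → y.re.natAbs ≤ s ∧ y.im.natAbs ≤ s := by
    intro y hy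
    rw [norm_eq] at hy
    push_cast at hy
    constructor
    · apply Nat.le_floor
      apply Real.le_sqrt_of_sq_le
      have : ((y.re.natAbs : ℕ) : ℝ) ^ 2 = (y.re : ℝ) ^ 2 := by
        rw [Nat.cast_natAbs, Int.cast_abs, sq_abs]
      rw [this]
      nlinarith [sq_nonneg (y.im : ℝ)]
    · apply Nat.le_floor
      apply Real.le_sqrt_of_sq_le
      have : ((y.im.natAbs : ℕ) : ℝ) ^ 2 = (y.im : ℝ) ^ 2 := by
        rw [Nat.cast_natAbs, Int.cast_abs, sq_abs]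
      rw [this]
      nlinarith [sq_nonneg (y.re : ℝ)]
  have hs1 : 1 ≤ s := by
    obtain ⟨y, h1, h2, h3⟩ := key x0 hx0
    apply Nat.le_floor
    rw [Nat.cast_one]
    apply Real.le_sqrt_of_sq_le
    have : (1 : ℝ) ≤ (y.norm : ℝ) := by exact_mod_cast norm_pos' h2
    linarith
  have hcard : F.card ≤ ((Icc (-(s : ℤ)) s ×ˢ Icc (-(s : ℤ)) s).erase (0, 0)).card := by
    apply card_le_card_of_injOn (fun x => ((x / ω).re, (x / ω).im))
    · intro x hx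
      obtain ⟨y, h1, h2, h3⟩ := key x hx
      have h4 : x / ω = y := by
        rw [h1, mul_comm]; exact mul_div_cancel_right₀ _ hω
      rw [mem_coe, mem_erase, mem_product, mem_Icc, mem_Icc]
      simp only [h4]
      obtain ⟨h5, h6⟩ := hsmall y h3
      refine ⟨?_, by omega, by omega⟩
      intro h7
      apply h2
      rw [Prod.mk.injEq] at h7
      exact Zsqrtd.ext h7.1 h7.2
    · intro x hx x' hx' hxx
      obtain ⟨y, h1, h2, h3⟩ := key x hx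
      obtain ⟨y', h1', h2', h3'⟩ := key x' hx'
      have h4 : x / ω = y := by
        rw [h1, mul_comm]; exact mul_div_cancel_right₀ _ hω
      have h4' : x' / ω = y' := by
        rw [h1', mul_comm]; exact mul_div_cancel_right₀ _ hω
      simp only [h4, h4', Prod.mk.injEq] at hxx
      have : y = y' := Zsqrtd.ext hxx.1 hxx.2
      rw [h1, h1', this]
  have hc2 : (((Icc (-(s : ℤ)) s ×ˢ Icc (-(s : ℤ)) s).erase (0, 0)).card : ℝ) = 4 * (s : ℝ) ^ 2 + 4 * s := by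
    rw [card_erase_of_mem, card_product, Int.card_Icc]
    · have : ((s : ℤ) + 1 - -(s : ℤ)).toNat = 2 * s + 1 := by omega
      rw [this]
      have h2 : (2 * s + 1) * (2 * s + 1) - 1 = 4 * s ^ 2 + 4 * s := by
        have : (2 * s + 1) * (2 * s + 1) = 4 * s ^ 2 + 4 * s + 1 := by ring
        omega
      rw [h2]; push_cast; ring
    · rw [mem_product]; simp only [mem_Icc]; omega
  have hs1' : (1 : ℝ) ≤ s := by exact_mod_cast hs1
  have h1 : (F.card : ℝ) ≤ 8 * (X / ω.norm) := by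
    calc (F.card : ℝ) ≤ (((Icc (-(s : ℤ)) s ×ˢ Icc (-(s : ℤ)) s).erase (0, 0)).card : ℝ) := by
          exact_mod_cast hcard
      _ = 4 * (s : ℝ) ^ 2 + 4 * s := hc2
      _ ≤ 8 * (s : ℝ) ^ 2 := by nlinarith
      _ ≤ 8 * (X / ω.norm) := by linarith
  calc (F.card : ℝ) * ω.norm ≤ 8 * (X / ω.norm) * ω.norm := by gcongr
    _ = 8 * X := by field_simp

/-- One branch of a conic. -/
private lemma conic_pos {m k s t : ℤ} (hm : m ≠ 0) (ht : t ≠ 0) {A B : ℝ} (hA : 0 < A) (hAB : A ≤ B)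
    (S : Finset (ℤ × ℤ)) (hS : ∀ v ∈ S, A ≤ v.2 ∧ (v.2 : ℝ) ≤ B ∧
      m * (v.1 ^ 2 + t ^ 2) = k * v.2 * (v.1 * s + v.2 * t)) (hAt : 8 * (m : ℝ) ^ 2 * t ^ 2 ≤ A ^ 2)
    (hpos : ∀ v ∈ S, 0 < 2 * m * v.1 - k * s * v.2) :
    (S.card : ℝ) ≤ 2 * (2 * |(m : ℝ)| * t ^ 2 * B / A) + 1 := by
  have hD0 : 0 ≤ 2 * |(m : ℝ)| * t ^ 2 * B / A := by
    have : 0 < B := lt_of_lt_of_le hA hAB
    positivity
  rcases S.eq_empty_or_nonempty with h0 | ⟨v0, hv0⟩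
  · rw [h0, card_empty]; push_cast; linarith
  have hmt : (0 : ℝ) < 4 * (m : ℝ) ^ 2 * t ^ 2 := by
    have h1 : (m : ℝ) ≠ 0 := by exact_mod_cast hm
    have h2 : (t : ℝ) ≠ 0 := by exact_mod_cast ht
    positivity
  -- the linear form
  set Δ : ℝ := (k : ℝ) ^ 2 * s ^ 2 + 4 * m * k * t with hΔ
  have fact : ∀ v ∈ S, 0 < (v.2 : ℝ) ∧ 0 < (2 * m * v.1 - k * s * v.2 : ℝ) ∧
      (2 * m * v.1 - k * s * v.2 : ℝ) ^ 2 = Δ * (v.2 : ℝ) ^ 2 - 4 * (m : ℝ) ^ 2 * t ^ 2 := by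
    intro v hv
    obtain ⟨h1, h2, h3⟩ := hS v hv
    have h3' : (m : ℝ) * ((v.1 : ℝ) ^ 2 + t ^ 2) = k * v.2 * (v.1 * s + v.2 * t) := by exact_mod_cast h3
    have h4 : (0 : ℝ) < (2 * m * v.1 - k * s * v.2 : ℝ) := by exact_mod_cast hpos v hv
    refine ⟨by linarith, h4, ?_⟩
    rw [hΔ]
    linear_combination 4 * (m : ℝ) * h3'
  have hΔ1 : 1 ≤ Δ := by
    obtain ⟨h1, h2, h3⟩ := fact v0 hv0
    have h4 : 0 < Δ * (v0.2 : ℝ) ^ 2 := by nlinarith [sq_nonneg (2 * m * v0.1 - k * s * v0.2 : ℝ)]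
    have h5 : 0 < Δ := by
      by_contra hc
      push Not at hc
      nlinarith [sq_nonneg (v0.2 : ℝ)]
    have h6 : Δ = ((k ^ 2 * s ^ 2 + 4 * m * k * t : ℤ) : ℝ) := by rw [hΔ]; push_cast; ring
    rw [h6] at h5 ⊢
    have h7 : 0 < k ^ 2 * s ^ 2 + 4 * m * k * t := by exact_mod_cast h5
    exact_mod_cast h7
  have hlow : ∀ v ∈ S, (v.2 : ℝ) / 2 ≤ (2 * m * v.1 - k * s * v.2 : ℝ) := by
    intro v hv
    obtain ⟨h1, h2, h3⟩ := fact v hv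
    have h4 := (hS v hv).1
    apply le_of_sq_le_sq _ h2.le
    rw [h3]
    have h5 : A ^ 2 ≤ (v.2 : ℝ) ^ 2 := by gcongr
    nlinarith [sq_nonneg (v.2 : ℝ)]
  -- the map
  have hmem : ∀ v ∈ S, (v0.1 * v.2 - v.1 * v0.2 : ℤ) ∈
      Icc (-⌊2 * |(m : ℝ)| * t ^ 2 * B / A⌋) ⌊2 * |(m : ℝ)| * t ^ 2 * B / A⌋ := by
    intro v hv
    obtain ⟨h1, h2, h3⟩ := fact v hv
    obtain ⟨g1, g2, g3⟩ := fact v0 hv0
    have l1 := hlow v hv
    have l2 := hlow v0 hv0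
    obtain ⟨s1, s2, s3⟩ := hS v hv
    obtain ⟨r1, r2, r3⟩ := hS v0 hv0
    set a := (2 * m * v.1 - k * s * v.2 : ℝ) with ha
    set a0 := (2 * m * v0.1 - k * s * v0.2 : ℝ) with ha0
    have e1 : a0 * v.2 - a * v0.2 = 2 * m * (v0.1 * v.2 - v.1 * v0.2 : ℝ) := by rw [ha, ha0]; ring
    have e2 : (a0 * v.2 - a * v0.2) * (a0 * v.2 + a * v0.2) =
        -(4 * (m : ℝ) ^ 2 * t ^ 2) * ((v.2 : ℝ) ^ 2 - (v0.2 : ℝ) ^ 2) := by
      linear_combination (v.2 : ℝ) ^ 2 * g3 - (v0.2 : ℝ) ^ 2 * h3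
    have e3 : (v.2 : ℝ) * v0.2 ≤ a0 * v.2 + a * v0.2 := by nlinarith
    have hvv : (0 : ℝ) < (v.2 : ℝ) * v0.2 := by positivity
    have e4 : |(v.2 : ℝ) ^ 2 - (v0.2 : ℝ) ^ 2| ≤ B / A * ((v.2 : ℝ) * v0.2) := by
      have q1 : (v.2 : ℝ) * A ≤ B * v0.2 := by nlinarith
      have q2 : (v0.2 : ℝ) * A ≤ B * v.2 := by nlinarith
      have q3 : (v.2 : ℝ) ^ 2 ≤ B / A * ((v.2 : ℝ) * v0.2) := by
        rw [div_mul_eq_mul_div, le_div_iff₀ hA]; nlinarith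
      have q4 : (v0.2 : ℝ) ^ 2 ≤ B / A * ((v.2 : ℝ) * v0.2) := by
        rw [div_mul_eq_mul_div, le_div_iff₀ hA]; nlinarith
      rw [abs_le]
      constructor
      · nlinarith [sq_nonneg (v.2 : ℝ)]
      · nlinarith [sq_nonneg (v0.2 : ℝ)]
    have e5 : |2 * m * (v0.1 * v.2 - v.1 * v0.2 : ℝ)| ≤ 4 * (m : ℝ) ^ 2 * t ^ 2 * (B / A) := by
      have e6 : |2 * m * (v0.1 * v.2 - v.1 * v0.2 : ℝ)| * ((v.2 : ℝ) * v0.2) ≤
          4 * (m : ℝ) ^ 2 * t ^ 2 * (B / A) * ((v.2 : ℝ) * v0.2) := by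
        calc |2 * m * (v0.1 * v.2 - v.1 * v0.2 : ℝ)| * ((v.2 : ℝ) * v0.2)
            ≤ |2 * m * (v0.1 * v.2 - v.1 * v0.2 : ℝ)| * (a0 * v.2 + a * v0.2) := by gcongr
          _ = |(a0 * v.2 - a * v0.2) * (a0 * v.2 + a * v0.2)| := by
              rw [abs_mul (a0 * v.2 - a * v0.2 : ℝ), abs_of_pos (lt_of_lt_of_le hvv e3), e1]
          _ = 4 * (m : ℝ) ^ 2 * t ^ 2 * |(v.2 : ℝ) ^ 2 - (v0.2 : ℝ) ^ 2| := by
              rw [e2, abs_mul, abs_neg, abs_of_pos hmt]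
          _ ≤ 4 * (m : ℝ) ^ 2 * t ^ 2 * (B / A * ((v.2 : ℝ) * v0.2)) := by gcongr
          _ = 4 * (m : ℝ) ^ 2 * t ^ 2 * (B / A) * ((v.2 : ℝ) * v0.2) := by ring
      exact le_of_mul_le_mul_right e6 hvv
    have e7 : |(v0.1 * v.2 - v.1 * v0.2 : ℝ)| ≤ 2 * |(m : ℝ)| * t ^ 2 * B / A := by
      have hm' : (0 : ℝ) < 2 * |(m : ℝ)| := by
        have : (m : ℝ) ≠ 0 := by exact_mod_cast hm
        positivity
      rw [abs_mul, abs_mul, abs_two] at e5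
      apply le_of_mul_le_mul_left _ hm'
      calc 2 * |(m : ℝ)| * |(v0.1 * v.2 - v.1 * v0.2 : ℝ)| ≤ 4 * (m : ℝ) ^ 2 * t ^ 2 * (B / A) := e5
        _ = 2 * |(m : ℝ)| * (2 * |(m : ℝ)| * t ^ 2 * B / A) := by rw [← sq_abs (m : ℝ)]; ring
    rw [mem_Icc]
    rw [abs_le] at e7
    constructor
    · have : -((v0.1 * v.2 - v.1 * v0.2 : ℤ)) ≤ ⌊2 * |(m : ℝ)| * t ^ 2 * B / A⌋ := by
        rw [Int.le_floor]; push_cast; linarith [e7.1]
      omega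
    · rw [Int.le_floor]; push_cast; exact e7.2
  have hinj : Set.InjOn (fun v : ℤ × ℤ => (v0.1 * v.2 - v.1 * v0.2 : ℤ)) (S : Set (ℤ × ℤ)) := by
    intro v hv v' hv' hvv
    simp only at hvv
    obtain ⟨h1, h2, h3⟩ := fact v hv
    obtain ⟨h1', h2', h3'⟩ := fact v' hv'
    obtain ⟨g1, g2, g3⟩ := fact v0 hv0
    have hD : (v0.1 * v.2 - v.1 * v0.2 : ℝ) = (v0.1 * v'.2 - v'.1 * v0.2 : ℝ) := by exact_mod_cast hvv
    set a := (2 * m * v.1 - k * s * v.2 : ℝ) with ha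
    set a' := (2 * m * v'.1 - k * s * v'.2 : ℝ) with ha'
    set a0 := (2 * m * v0.1 - k * s * v0.2 : ℝ) with ha0
    have e1 : a0 * ((v.2 : ℝ) - v'.2) = (a - a') * v0.2 := by
      rw [ha, ha', ha0]; linear_combination 2 * (m : ℝ) * hD
    have hv2 : (v.2 : ℝ) = v'.2 := by
      by_contra hne
      have hne' : (v.2 : ℝ) - v'.2 ≠ 0 := sub_ne_zero.mpr hne
      have e2 : a0 * (a + a') = Δ * v0.2 * ((v.2 : ℝ) + v'.2) := by
        apply mul_left_cancel₀ hne'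
        calc ((v.2 : ℝ) - v'.2) * (a0 * (a + a')) = a0 * ((v.2 : ℝ) - v'.2) * (a + a') := by ring
          _ = (a - a') * v0.2 * (a + a') := by rw [e1]
          _ = (a ^ 2 - a' ^ 2) * v0.2 := by ring
          _ = ((v.2 : ℝ) - v'.2) * (Δ * v0.2 * ((v.2 : ℝ) + v'.2)) := by rw [h3, h3']; ring
      have p1 : a0 * a < Δ * v0.2 * v.2 := by
        apply lt_of_pow_lt_pow_left₀ 2 (by positivity)
        have t1 : a0 ^ 2 < Δ * (v0.2 : ℝ) ^ 2 := by linarith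
        have t2 : a ^ 2 < Δ * (v.2 : ℝ) ^ 2 := by linarith
        calc (a0 * a) ^ 2 = a0 ^ 2 * a ^ 2 := by ring
          _ < (Δ * (v0.2 : ℝ) ^ 2) * (Δ * (v.2 : ℝ) ^ 2) :=
              mul_lt_mul'' t1 t2 (sq_nonneg _) (sq_nonneg _)
          _ = (Δ * v0.2 * v.2) ^ 2 := by ring
      have p2 : a0 * a' < Δ * v0.2 * v'.2 := by
        apply lt_of_pow_lt_pow_left₀ 2 (by positivity)
        have t1 : a0 ^ 2 < Δ * (v0.2 : ℝ) ^ 2 := by linarith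
        have t2 : a' ^ 2 < Δ * (v'.2 : ℝ) ^ 2 := by linarith
        calc (a0 * a') ^ 2 = a0 ^ 2 * a' ^ 2 := by ring
          _ < (Δ * (v0.2 : ℝ) ^ 2) * (Δ * (v'.2 : ℝ) ^ 2) :=
              mul_lt_mul'' t1 t2 (sq_nonneg _) (sq_nonneg _)
          _ = (Δ * v0.2 * v'.2) ^ 2 := by ring
      nlinarith
    have hv2' : v.2 = v'.2 := by exact_mod_cast hv2
    have hv1 : v.1 = v'.1 := by
      rw [hv2'] at hvv
      have h4 : (v.1 - v'.1) * v0.2 = 0 := by linear_combination (-1 : ℤ) * hvv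
      have h5 : v0.2 ≠ 0 := by
        intro h6; rw [h6] at g1; simp at g1
      rcases mul_eq_zero.mp h4 with h6 | h6
      · omega
      · exact absurd h6 h5
    exact Prod.ext hv1 hv2'
  have h1 := card_le_card_of_injOn _ hmem hinj
  rw [Int.card_Icc] at h1
  have hfl : 0 ≤ ⌊2 * |(m : ℝ)| * t ^ 2 * B / A⌋ := Int.floor_nonneg.mpr hD0
  have h2 : ((⌊2 * |(m : ℝ)| * t ^ 2 * B / A⌋ + 1 - -⌊2 * |(m : ℝ)| * t ^ 2 * B / A⌋).toNat : ℝ) ≤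
      2 * (2 * |(m : ℝ)| * t ^ 2 * B / A) + 1 := by
    have h3 : (((⌊2 * |(m : ℝ)| * t ^ 2 * B / A⌋ + 1 - -⌊2 * |(m : ℝ)| * t ^ 2 * B / A⌋).toNat : ℤ) : ℝ) =
        2 * (⌊2 * |(m : ℝ)| * t ^ 2 * B / A⌋ : ℝ) + 1 := by
      rw [Int.toNat_of_nonneg (by omega)]; push_cast; ring
    have h4 := Int.floor_le (2 * |(m : ℝ)| * t ^ 2 * B / A)
    rw [Int.cast_natCast] at h3
    rw [h3]; linarith
  calc (S.card : ℝ) ≤ _ := by exact_mod_cast h1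
    _ ≤ _ := h2

/-- The points of a conic. -/
lemma conic {m k s t : ℤ} (hm : m ≠ 0) (ht : t ≠ 0) {A B : ℝ} (hA : 0 < A) (hAB : A ≤ B)
    (S : Finset (ℤ × ℤ)) (hS : ∀ v ∈ S, A ≤ v.2 ∧ (v.2 : ℝ) ≤ B ∧
      m * (v.1 ^ 2 + t ^ 2) = k * v.2 * (v.1 * s + v.2 * t)) (hAt : 8 * (m : ℝ) ^ 2 * t ^ 2 ≤ A ^ 2) :
    (S.card : ℝ) ≤ 2 * (2 * (2 * |(m : ℝ)| * t ^ 2 * B / A) + 1) := by
  have h1 := conic_pos hm ht hA hAB (S.filter (fun v => 0 < 2 * m * v.1 - k * s * v.2))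
    (fun v hv => hS v (mem_of_mem_filter v hv)) hAt (fun v hv => (mem_filter.mp hv).2)
  have h2 := conic_pos (m := -m) (k := -k) (s := s) (t := t) (neg_ne_zero.mpr hm) ht hA hAB
    (S.filter (fun v => ¬ 0 < 2 * m * v.1 - k * s * v.2)) (fun v hv => by
      obtain ⟨a1, a2, a3⟩ := hS v (mem_of_mem_filter v hv)
      refine ⟨a1, a2, ?_⟩
      linear_combination (-1 : ℤ) * a3) (by push_cast; rw [neg_sq]; exact hAt) (fun v hv => by
      obtain ⟨hv1, hv2⟩ := mem_filter.mp hv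
      obtain ⟨a1, a2, a3⟩ := hS v hv1
      have hne : 2 * m * v.1 - k * s * v.2 ≠ 0 := by
        intro h0
        have h0' : (2 * m * v.1 - k * s * v.2 : ℝ) = 0 := by exact_mod_cast h0
        have a3' : (m : ℝ) * ((v.1 : ℝ) ^ 2 + t ^ 2) = k * v.2 * (v.1 * s + v.2 * t) := by
          exact_mod_cast a3
        have e : ((k : ℝ) ^ 2 * s ^ 2 + 4 * m * k * t) * (v.2 : ℝ) ^ 2 = 4 * (m : ℝ) ^ 2 * t ^ 2 := by
          linear_combination (-4 : ℝ) * m * a3' +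
            (2 * m * v.1 - k * s * v.2 : ℝ) * h0'
        have hmt : (0 : ℝ) < 4 * (m : ℝ) ^ 2 * t ^ 2 := by
          have h1 : (m : ℝ) ≠ 0 := by exact_mod_cast hm
          have h2 : (t : ℝ) ≠ 0 := by exact_mod_cast ht
          positivity
        have hΔ : 0 < k ^ 2 * s ^ 2 + 4 * m * k * t := by
          by_contra hc
          push Not at hc
          have hc' : ((k : ℝ) ^ 2 * s ^ 2 + 4 * m * k * t) ≤ 0 := by exact_mod_cast hc
          nlinarith [sq_nonneg (v.2 : ℝ)]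
        have hΔ' : (1 : ℝ) ≤ ((k : ℝ) ^ 2 * s ^ 2 + 4 * m * k * t) := by exact_mod_cast hΔ
        have h5 : A ^ 2 ≤ (v.2 : ℝ) ^ 2 := by gcongr
        nlinarith [sq_nonneg (v.2 : ℝ)]
      have : 2 * (-m) * v.1 - (-k) * s * v.2 = -(2 * m * v.1 - k * s * v.2) := by ring
      rw [this]
      omega)
  have h3 : S.card = (S.filter (fun v => 0 < 2 * m * v.1 - k * s * v.2)).card +
      (S.filter (fun v => ¬ 0 < 2 * m * v.1 - k * s * v.2)).card := by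
    rw [card_filter_add_card_filter_not]
  rw [h3]
  push_cast at h2 ⊢
  rw [abs_neg] at h2
  linarith

end Pool.Agent.H57.XR
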