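import Mathlib
import Pool.Agent.H57.XR.Gsb
import Pool.Agent.H57.XR.Cha

/-!
The parameters of a chain, and the points of a chain with large content.
-/

namespace Pool.Agent.H57.XR

open Finset

/-- The parameters of a chain: contents, primitive parts, lengths of the steps. -/
structure Data (z u : ℕ → ℤ × ℤ) (g t : ℕ → ℤ) (p : ℕ → GaussianInt) : Prop where
  chain : Chain z u
  gpos : ∀ j, 0 < g j
  prim : ∀ j, Pr (p j)
  tne : ∀ j, t j ≠ 0
  next : ∀ j, p j * ⟨g j, t j⟩ = g (j + 1) * p (j + 1)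
  nz : ∀ j, nrm (z j) = g j ^ 2 * (p j).norm
  nu : ∀ j, nrm (u j) = t j ^ 2 * (p j).norm

variable {z u : ℕ → ℤ × ℤ} {g t : ℕ → ℤ} {p : ℕ → GaussianInt}

lemma Chain.data (h : Chain z u) : ∃ g t p, Data z u g t p := by
  have h1 : ∀ j, ∃ s : ℤ, (u j).1 = -s * (prm (z j)).2 ∧ (u j).2 = s * (prm (z j)).1 := by
    intro j
    obtain ⟨a, b, hab⟩ := prm_coprime (h.ne j)
    have he := prm_eq (z j)
    have hg := gcd_pos (h.ne j)
    have ho := (h.step j).1
    rw [← he] at ho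
    simp only at ho
    have ho2 : (prm (z j)).1 * (u j).1 + (prm (z j)).2 * (u j).2 = 0 := by
      have h2 : (Int.gcd (z j).1 (z j).2 : ℤ) *
          ((prm (z j)).1 * (u j).1 + (prm (z j)).2 * (u j).2) = 0 := by
        linear_combination ho
      rcases mul_eq_zero.mp h2 with h3 | h3
      · exfalso; have : Int.gcd (z j).1 (z j).2 = 0 := by exact_mod_cast h3
        omega
      · exact h3
    refine ⟨a * (u j).2 - b * (u j).1, ?_, ?_⟩
    · linear_combination (-(u j).1) * hab + a * ho2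
    · linear_combination (-(u j).2) * hab + b * ho2
  choose t ht1 ht2 using h1
  have he : ∀ j, ((Int.gcd (z j).1 (z j).2 : ℤ) * (prm (z j)).1,
    (Int.gcd (z j).1 (z j).2 : ℤ) * (prm (z j)).2) = z j := fun j => prm_eq (z j)
  have e1 : ∀ j, (z j).1 = (Int.gcd (z j).1 (z j).2 : ℤ) * (prm (z j)).1 :=
    fun j => (congrArg Prod.fst (he j)).symm
  have e2 : ∀ j, (z j).2 = (Int.gcd (z j).1 (z j).2 : ℤ) * (prm (z j)).2 :=
    fun j => (congrArg Prod.snd (he j)).symm
  refine ⟨fun j => (Int.gcd (z j).1 (z j).2 : ℤ), t, fun j => ⟨(prm (z j)).1, (prm (z j)).2⟩, ?_⟩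
  refine ⟨h, ?_, ?_, ?_, ?_, ?_, ?_⟩
  · intro j
    have := gcd_pos (h.ne j)
    exact_mod_cast this
  · intro j
    exact prm_coprime (h.ne j)
  · intro j h0
    apply (h.step j).2
    have a1 := ht1 j
    have a2 := ht2 j
    rw [h0] at a1 a2
    exact Prod.ext (by rw [a1]; simp) (by rw [a2]; simp)
  · intro j
    have hn := h.next j
    have n1 : (z (j + 1)).1 = (z j).1 + (u j).1 := by rw [hn]; rfl
    have n2 : (z (j + 1)).2 = (z j).2 + (u j).2 := by rw [hn]; rfl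
    rw [Zsqrtd.ext_iff]
    simp only [Zsqrtd.re_mul, Zsqrtd.im_mul, Zsqrtd.re_intCast, Zsqrtd.im_intCast]
    constructor
    · linear_combination (-1 : ℤ) * e1 j + e1 (j + 1) - ht1 j - n1
    · linear_combination (-1 : ℤ) * e2 j + e2 (j + 1) - ht2 j - n2
  · intro j
    simp only [norm_eq]
    have h3 : nrm (z j) = (z j).1 ^ 2 + (z j).2 ^ 2 := rfl
    rw [h3]
    linear_combination ((z j).1 + (Int.gcd (z j).1 (z j).2 : ℤ) * (prm (z j)).1) * e1 j +
      ((z j).2 + (Int.gcd (z j).1 (z j).2 : ℤ) * (prm (z j)).2) * e2 j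
  · intro j
    simp only [norm_eq]
    have h3 : nrm (u j) = (u j).1 ^ 2 + (u j).2 ^ 2 := rfl
    rw [h3, ht1 j, ht2 j]
    ring

lemma Data.pne (h : Data z u g t p) (j : ℕ) : p j ≠ 0 := by
  intro h0
  have h1 := h.nz j
  rw [h0, Zsqrtd.norm_zero, mul_zero] at h1
  have := nrm_pos (h.chain.ne j)
  omega

lemma Data.qne (h : Data z u g t p) (j : ℕ) : (⟨g j, t j⟩ : GaussianInt) ≠ 0 := by
  intro h0
  have h1 : g j = 0 := congrArg Zsqrtd.re h0
  have := h.gpos j
  omega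

/-- Equal content and equal primitive part occur once. -/
lemma Data.inj (h : Data z u g t p) {i j : ℕ} (h1 : g i = g j) (h2 : p i = p j) : i = j := by
  apply h.chain.mono.injective
  simp only
  rw [h.nz, h.nz, h1, h2]

/-- A sum over multiples of the divisors. -/
lemma sum_gcd {ρ D : ℝ} (hρ : 0 ≤ ρ) {a n : ℕ} (ha : 0 < a) (hD : (a.divisors.card : ℝ) ≤ D) :
    ∑ s ∈ (Icc (-(n : ℤ)) n).filter (fun s : ℤ => s ≠ 0 ∧ |(s : ℝ)| ≤ ρ * a), (Int.gcd a s : ℝ) ≤
      2 * ρ * a * D := by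
  set T := (Icc (-(n : ℤ)) n).filter (fun s : ℤ => s ≠ 0 ∧ |(s : ℝ)| ≤ ρ * a) with hT
  have ha' : (0 : ℝ) < a := by exact_mod_cast ha
  have h1 : ∀ s ∈ T, (Int.gcd a s : ℝ) ≤ ∑ c ∈ a.divisors, if (c : ℤ) ∣ s then (c : ℝ) else 0 := by
    intro s _
    have h2 : Int.gcd a s ∈ a.divisors := by
      rw [Nat.mem_divisors]
      refine ⟨?_, ha.ne'⟩
      have h3 : (Int.gcd a s : ℤ) ∣ (a : ℤ) := Int.gcd_dvd_left _ _
      exact_mod_cast h3
    have h3 : ((Int.gcd a s : ℕ) : ℤ) ∣ s := Int.gcd_dvd_right _ _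
    calc (Int.gcd a s : ℝ) = if ((Int.gcd a s : ℕ) : ℤ) ∣ s then ((Int.gcd a s : ℕ) : ℝ) else 0 := by
          rw [if_pos h3]
      _ ≤ _ := single_le_sum (f := fun c : ℕ => if (c : ℤ) ∣ s then (c : ℝ) else 0)
          (fun c _ => by split_ifs <;> positivity) h2
  have h4 : ∀ c ∈ a.divisors, ∑ s ∈ T, (if (c : ℤ) ∣ s then (c : ℝ) else 0) ≤ 2 * ρ * a := by
    intro c hc
    have hc0 : 0 < c := Nat.pos_of_mem_divisors hc
    have hc0' : (0 : ℝ) < c := by exact_mod_cast hc0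
    rw [← sum_filter, sum_const, nsmul_eq_mul]
    set k : ℕ := ⌊ρ * a / c⌋₊ with hk
    have hk1 : (k : ℝ) ≤ ρ * a / c := Nat.floor_le (by positivity)
    have h5 : (T.filter (fun s : ℤ => (c : ℤ) ∣ s)).card ≤ ((Icc (-(k : ℤ)) k).erase 0).card := by
      apply card_le_card_of_injOn (fun s : ℤ => s / (c : ℤ))
      · intro s hs
        rw [mem_coe, mem_filter, hT, mem_filter] at hs
        obtain ⟨⟨_, hs0, hs1⟩, r, hr⟩ := hs
        have e : s / (c : ℤ) = r := by
          rw [hr]; exact Int.mul_ediv_cancel_left _ (by exact_mod_cast hc0.ne')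
        rw [mem_coe, mem_erase, mem_Icc]
        simp only [e]
        have hr0 : r ≠ 0 := by
          intro h0; rw [h0, mul_zero] at hr; exact hs0 hr
        refine ⟨hr0, ?_⟩
        have h6 : r.natAbs ≤ k := by
          apply Nat.le_floor
          rw [le_div_iff₀ hc0', Nat.cast_natAbs, Int.cast_abs]
          rw [hr] at hs1
          push_cast at hs1
          rw [abs_mul, Nat.abs_cast] at hs1
          linarith
        omega
      · intro s hs s' hs' hss
        rw [mem_coe, mem_filter] at hs hs'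
        simp only at hss
        rw [← Int.mul_ediv_cancel' hs.2, ← Int.mul_ediv_cancel' hs'.2, hss]
    have h7 : ((Icc (-(k : ℤ)) k).erase 0).card = 2 * k := by
      rw [card_erase_of_mem (by rw [mem_Icc]; omega), Int.card_Icc]
      omega
    rw [h7] at h5
    calc ((T.filter (fun s => (c : ℤ) ∣ s)).card : ℝ) * c ≤ ((2 * k : ℕ) : ℝ) * c := by
          gcongr
      _ = 2 * (k * c) := by push_cast; ring
      _ ≤ 2 * (ρ * a / c * c) := by gcongr
      _ = 2 * ρ * a := by field_simp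
  calc ∑ s ∈ T, (Int.gcd a s : ℝ) ≤ ∑ s ∈ T, ∑ c ∈ a.divisors, (if (c : ℤ) ∣ s then (c : ℝ) else 0) :=
        sum_le_sum h1
    _ = ∑ c ∈ a.divisors, ∑ s ∈ T, (if (c : ℤ) ∣ s then (c : ℝ) else 0) := sum_comm
    _ ≤ ∑ c ∈ a.divisors, 2 * ρ * a := sum_le_sum h4
    _ = a.divisors.card * (2 * ρ * a) := by rw [sum_const, nsmul_eq_mul]
    _ ≤ D * (2 * ρ * a) := by gcongr
    _ = 2 * ρ * a * D := by ring

end Pool.Agent.H57.XR
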