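import Mathlib
import Pool.Agent.H57.XR.Gsc

/-!
Points of a chain with large content.
-/

namespace Pool.Agent.H57.XR

open Finset

variable {z u : ℕ → ℤ × ℤ} {g t : ℕ → ℤ} {p : ℕ → GaussianInt}

lemma Data.fiber_mult (h : Data z u g t p) {c : ℤ} {ω : GaussianInt} (hω : ω ≠ 0) {X : ℝ}
    (hX : 0 ≤ X) (F : Finset ℕ) (hF : ∀ j ∈ F, g (j + 1) = c ∧ ω ∣ p (j + 1) ∧
      ((p (j + 1)).norm : ℝ) ≤ X) : (F.card : ℝ) * ω.norm ≤ 8 * X := by
  have hinj : Set.InjOn (fun j => p (j + 1)) (F : Set ℕ) := by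
    intro i hi j hj hij
    have := h.inj (i := i + 1) (j := j + 1) (by rw [(hF i hi).1, (hF j hj).1]) hij
    omega
  rw [← card_image_of_injOn hinj]
  apply card_mult hω hX
  intro x hx
  rw [mem_image] at hx
  obtain ⟨j, hj, rfl⟩ := hx
  exact ⟨h.pne _, (hF j hj).2⟩

lemma Data.norm_pos (h : Data z u g t p) (j : ℕ) : (1 : ℝ) ≤ ((p j).norm : ℝ) := by
  exact_mod_cast norm_pos' (h.pne j)

lemma Data.nz' (h : Data z u g t p) (j : ℕ) : (nrm (z j) : ℝ) = (g j : ℝ) ^ 2 * ((p j).norm : ℝ) := by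
  exact_mod_cast h.nz j

lemma Data.nu' (h : Data z u g t p) (j : ℕ) : (nrm (u j) : ℝ) = (t j : ℝ) ^ 2 * ((p j).norm : ℝ) := by
  exact_mod_cast h.nu j

lemma Data.gpos' (h : Data z u g t p) (j : ℕ) : (1 : ℝ) ≤ (g j : ℝ) := by
  exact_mod_cast h.gpos j

/-- `g² + t²` is at most the norm of the next point. -/
lemma Data.sq_le (h : Data z u g t p) (j : ℕ) : (g j : ℝ) ^ 2 + (t j : ℝ) ^ 2 ≤ nrm (z (j + 1)) := by
  have h1 : (nrm (z (j + 1)) : ℝ) = nrm (z j) + nrm (u j) := by exact_mod_cast h.chain.nrm_next j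
  rw [h1, h.nz', h.nu', ← add_mul]
  have := h.norm_pos j
  nlinarith [sq_nonneg (g j : ℝ), sq_nonneg (t j : ℝ)]

lemma Data.fiber1 (h : Data z u g t p) {a b c : ℤ} {N G0 : ℝ} (hN : 0 ≤ N) (hG0 : 0 < G0)
    (hc : G0 ≤ c) (F : Finset ℕ) (hF : ∀ j ∈ F, g j = a ∧ t j = b ∧ g (j + 1) = c ∧
      (nrm (z (j + 1)) : ℝ) ≤ N) : (F.card : ℝ) ≤ 8 * N * Int.gcd a b / (G0 * (a : ℝ) ^ 2) := by
  rcases F.eq_empty_or_nonempty with h0 | ⟨j, hj⟩
  · rw [h0, card_empty]; push_cast; positivity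
  have hcp : (0 : ℝ) < c := lt_of_lt_of_le hG0 hc
  have hc1 : 0 < c := by exact_mod_cast hcp
  obtain ⟨h1, h2, h3, h4⟩ := hF j hj
  have ha0 : 0 < a := by rw [← h1]; exact h.gpos j
  have ha0' : (0 : ℝ) < a := by exact_mod_cast ha0
  have hn := h.next j
  rw [h1, h2, h3] at hn
  obtain ⟨e, a1, a2, a3, a4, a5, a6, a7, a8, a9, a10⟩ := one_step hc1 (h.prim j)
    (by have := h.qne j; rwa [h1, h2] at this) hn
  have hκ := norm_pos' a9
  have hκ' : (0 : ℝ) < ((kap ⟨a, b⟩ c).norm : ℝ) := by exact_mod_cast hκ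
  have hX : 0 ≤ N / (c : ℝ) ^ 2 := by positivity
  have h5 := h.fiber_mult (c := c) a9 hX F (by
    intro i hi
    obtain ⟨i1, i2, i3, i4⟩ := hF i hi
    refine ⟨i3, ?_, ?_⟩
    · have hni := h.next i
      rw [i1, i2, i3] at hni
      obtain ⟨_, b1, _⟩ := one_step hc1 (h.prim i) (by have := h.qne i; rwa [i1, i2] at this) hni
      exact b1
    · rw [h.nz', i3] at i4
      rw [le_div_iff₀ (by positivity)]
      linarith)
  have h6 : ((a : ℝ) ^ 2 + (b : ℝ) ^ 2) = ((kap ⟨a, b⟩ c).norm : ℝ) * (e * c) := by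
    rw [norm_eq] at a6
    simp only at a6
    exact_mod_cast a6
  have h7 : (e : ℝ) ≤ Int.gcd a b := by
    have : e ≤ (Int.gcd a b : ℤ) := Int.le_of_dvd (by
      have : 0 < Int.gcd a b := Int.gcd_pos_of_ne_zero_left _ (by omega)
      exact_mod_cast this) (Int.dvd_coe_gcd a7 a8)
    exact_mod_cast this
  have he : (0 : ℝ) < e := by exact_mod_cast a3
  rw [le_div_iff₀ (by positivity)]
  have h8 : (F.card : ℝ) * ((a : ℝ) ^ 2 + (b : ℝ) ^ 2) * c ≤ 8 * N * e := by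
    rw [h6]
    calc (F.card : ℝ) * (((kap ⟨a, b⟩ c).norm : ℝ) * (e * c)) * c
        = ((F.card : ℝ) * ((kap ⟨a, b⟩ c).norm : ℝ)) * (e * (c : ℝ) ^ 2) := by ring
      _ ≤ (8 * (N / (c : ℝ) ^ 2)) * (e * (c : ℝ) ^ 2) := by gcongr
      _ = 8 * N * e := by field_simp
  have h9 : G0 * (a : ℝ) ^ 2 ≤ c * ((a : ℝ) ^ 2 + (b : ℝ) ^ 2) := by
    calc G0 * (a : ℝ) ^ 2 ≤ c * (a : ℝ) ^ 2 := mul_le_mul_of_nonneg_right hc (sq_nonneg _)
      _ ≤ c * ((a : ℝ) ^ 2 + (b : ℝ) ^ 2) :=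
        mul_le_mul_of_nonneg_left (le_add_of_nonneg_right (sq_nonneg _)) hcp.le
  calc (F.card : ℝ) * (G0 * (a : ℝ) ^ 2) ≤ (F.card : ℝ) * (c * ((a : ℝ) ^ 2 + (b : ℝ) ^ 2)) :=
        mul_le_mul_of_nonneg_left h9 (Nat.cast_nonneg _)
    _ = (F.card : ℝ) * ((a : ℝ) ^ 2 + (b : ℝ) ^ 2) * c := by ring
    _ ≤ 8 * N * e := h8
    _ ≤ 8 * N * Int.gcd a b := by gcongr

/-- The next content divides `g² + t²`. -/
lemma Data.dvd_next (h : Data z u g t p) (j : ℕ) : g (j + 1) ∣ g j ^ 2 + t j ^ 2 := by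
  obtain ⟨e, a1, a2, a3, a4, a5, a6, a7, a8, a9, a10⟩ := one_step (h.gpos (j + 1)) (h.prim j)
    (h.qne j) (h.next j)
  rw [norm_eq] at a6
  simp only at a6
  rw [a6]
  exact ⟨(kap ⟨g j, t j⟩ (g (j + 1))).norm * e, by ring⟩

/-- The number of values of the next content. -/
lemma Data.card_next (h : Data z u g t p) {N D B : ℝ} (hB : 0 ≤ B) (hD0 : 0 ≤ D)
    (hD : ∀ n : ℕ, 1 ≤ n → (n : ℝ) ≤ N → (n.divisors.card : ℝ) ≤ D) {a b : ℤ} (F : Finset ℕ)
    (hF : ∀ j ∈ F, g j = a ∧ t j = b ∧ (nrm (z (j + 1)) : ℝ) ≤ N)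
    (hc : ∀ c : ℤ, ((F.filter (fun j => g (j + 1) = c)).card : ℝ) ≤ B) : (F.card : ℝ) ≤ D * B := by
  rcases F.eq_empty_or_nonempty with h0 | ⟨j0, hj0⟩
  · rw [h0, card_empty]; push_cast; positivity
  obtain ⟨h1, h2, h3⟩ := hF j0 hj0
  have hpos : 0 < a ^ 2 + b ^ 2 := by
    have := h.gpos j0
    rw [h1] at this
    nlinarith [sq_nonneg b]
  set n : ℕ := (a ^ 2 + b ^ 2).natAbs with hn
  have hn1 : 1 ≤ n := by omega
  have hnN : (n : ℝ) ≤ N := by
    have e : (n : ℝ) = (a : ℝ) ^ 2 + (b : ℝ) ^ 2 := by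
      have : ((n : ℕ) : ℤ) = a ^ 2 + b ^ 2 := by omega
      have h4 : ((n : ℤ) : ℝ) = ((a ^ 2 + b ^ 2 : ℤ) : ℝ) := by rw [this]
      push_cast at h4
      exact h4
    rw [e]
    have := h.sq_le j0
    rw [h1, h2] at this
    linarith
  have hmaps : Set.MapsTo (fun j => (g (j + 1)).natAbs) (F : Set ℕ) (n.divisors : Set ℕ) := by
    intro j hj
    obtain ⟨i1, i2, i3⟩ := hF j hj
    rw [mem_coe, Nat.mem_divisors]
    refine ⟨?_, by omega⟩
    have := h.dvd_next j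
    rw [i1, i2] at this
    exact Int.natAbs_dvd_natAbs.mpr this
  rw [card_eq_sum_card_fiberwise hmaps]
  push_cast
  calc ∑ d ∈ n.divisors, ((F.filter (fun j => (g (j + 1)).natAbs = d)).card : ℝ)
      ≤ ∑ d ∈ n.divisors, B := by
        apply sum_le_sum
        intro d _
        refine le_trans ?_ (hc (d : ℤ))
        have : (F.filter (fun j => (g (j + 1)).natAbs = d)).card ≤
            (F.filter (fun j => g (j + 1) = (d : ℤ))).card := by
          apply card_le_card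
          intro j hj
          rw [mem_filter] at hj ⊢
          refine ⟨hj.1, ?_⟩
          have := h.gpos (j + 1)
          omega
        exact_mod_cast this
    _ = n.divisors.card * B := by rw [sum_const, nsmul_eq_mul]
    _ ≤ D * B := by gcongr; exact hD n hn1 hnN

/-- Points with a short step in and with large content. -/
lemma Data.large (h : Data z u g t p) {N N1 Rs G0 ρ D : ℝ} (hN : 1 ≤ N) (hG0 : 0 < G0)
    (hρ : 0 ≤ ρ) (hRs : Rs ≤ ρ ^ 2 * N1) (hD0 : 0 ≤ D)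
    (hD : ∀ n : ℕ, 1 ≤ n → (n : ℝ) ≤ N → (n.divisors.card : ℝ) ≤ D) (J : Finset ℕ)
    (hJ : ∀ j ∈ J, N1 ≤ nrm (z j) ∧ (nrm (z (j + 1)) : ℝ) ≤ N ∧ (nrm (u j) : ℝ) ≤ Rs ∧
      G0 ≤ g (j + 1)) : (J.card : ℝ) ≤ 16 * ρ * N * D ^ 2 / G0 * (1 + Real.log N) := by
  set n : ℕ := ⌊N⌋₊ with hn
  have hnN : (n : ℝ) ≤ N := Nat.floor_le (by linarith)
  have hn1 : 1 ≤ n := Nat.le_floor (by push_cast; exact hN)
  have bnd : ∀ j ∈ J, (g j : ℝ) ≤ N ∧ |(t j : ℝ)| ≤ N ∧ |(t j : ℝ)| ≤ ρ * g j := by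
    intro j hj
    obtain ⟨h1, h2, h3, h4⟩ := hJ j hj
    have h5 := h.sq_le j
    have h6 := h.gpos' j
    have h7 := h.norm_pos j
    have ht1 : 1 ≤ |(t j : ℝ)| := by
      have : (1 : ℤ) ≤ |t j| := Int.one_le_abs (h.tne j)
      exact_mod_cast this
    refine ⟨by nlinarith [sq_nonneg (t j : ℝ)], ?_, ?_⟩
    · have : |(t j : ℝ)| ≤ |(t j : ℝ)| ^ 2 := by nlinarith
      rw [sq_abs] at this
      nlinarith [sq_nonneg (g j : ℝ)]
    · apply abs_le_of_sq_le_sq _ (by positivity)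
      have h8 := h.nu' j
      have h9 := h.nz' j
      have h10 : (t j : ℝ) ^ 2 * ((p j).norm : ℝ) ≤ (ρ * g j) ^ 2 * ((p j).norm : ℝ) := by
        calc (t j : ℝ) ^ 2 * ((p j).norm : ℝ) = nrm (u j) := h8.symm
          _ ≤ Rs := h3
          _ ≤ ρ ^ 2 * N1 := hRs
          _ ≤ ρ ^ 2 * nrm (z j) := by gcongr
          _ = (ρ * g j) ^ 2 * ((p j).norm : ℝ) := by rw [h9]; ring
      exact le_of_mul_le_mul_right h10 (by linarith)
  have hlog : 0 ≤ Real.log N := Real.log_nonneg hN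
  have hJa : ∀ a ∈ Icc 1 n, ((J.filter (fun j => (g j).natAbs = a)).card : ℝ) ≤
      16 * ρ * N * D ^ 2 / G0 * (a : ℝ)⁻¹ := by
    intro a ha
    rw [mem_Icc] at ha
    have ha0 : (0 : ℝ) < a := by exact_mod_cast (by omega : 0 < a)
    set Ja := J.filter (fun j => (g j).natAbs = a) with hJadef
    set T := (Icc (-(n : ℤ)) n).filter (fun s : ℤ => s ≠ 0 ∧ |(s : ℝ)| ≤ ρ * a) with hT
    have hmaps : Set.MapsTo t (Ja : Set ℕ) (T : Set ℤ) := by
      intro j hj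
      rw [mem_coe, hJadef, mem_filter] at hj
      obtain ⟨b1, b2, b3⟩ := bnd j hj.1
      have hga : g j = (a : ℤ) := by
        have := h.gpos j
        omega
      rw [mem_coe, hT, mem_filter, mem_Icc]
      have h8 : (t j).natAbs ≤ n := by
        apply Nat.le_floor
        rw [Nat.cast_natAbs, Int.cast_abs]
        exact b2
      refine ⟨by omega, h.tne j, ?_⟩
      rw [hga] at b3
      exact_mod_cast b3
    rw [card_eq_sum_card_fiberwise hmaps]
    push_cast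
    have hfib : ∀ s ∈ T, ((Ja.filter (fun j => t j = s)).card : ℝ) ≤
        D * (8 * N / (G0 * (a : ℝ) ^ 2)) * (Int.gcd a s : ℝ) := by
      intro s _
      have hB : 0 ≤ 8 * N * Int.gcd (a : ℤ) s / (G0 * (((a : ℤ) : ℝ)) ^ 2) := by positivity
      have h9 := h.card_next (a := (a : ℤ)) (b := s) hB hD0 hD (Ja.filter (fun j => t j = s)) (by
        intro j hj
        rw [mem_filter, hJadef, mem_filter] at hj
        have hga : g j = (a : ℤ) := by
          have := h.gpos j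
          omega
        exact ⟨hga, hj.2, (hJ j hj.1.1).2.1⟩) (by
        intro c
        by_cases hc : G0 ≤ (c : ℝ)
        · apply h.fiber1 (by linarith) hG0 hc
          intro j hj
          rw [mem_filter, mem_filter, hJadef, mem_filter] at hj
          have hga : g j = (a : ℤ) := by
            have := h.gpos j
            omega
          exact ⟨hga, hj.1.2, hj.2, (hJ j hj.1.1.1).2.1⟩
        · have : (Ja.filter (fun j => t j = s)).filter (fun j => g (j + 1) = c) = ∅ := by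
            apply filter_eq_empty_iff.mpr
            intro j hj hjc
            rw [mem_filter, hJadef, mem_filter] at hj
            apply hc
            rw [← hjc]
            exact (hJ j hj.1.1).2.2.2
          rw [this, card_empty]
          push_cast
          exact hB)
      calc ((Ja.filter (fun j => t j = s)).card : ℝ)
          ≤ D * (8 * N * Int.gcd (a : ℤ) s / (G0 * (((a : ℤ) : ℝ)) ^ 2)) := h9
        _ = D * (8 * N / (G0 * (a : ℝ) ^ 2)) * (Int.gcd a s : ℝ) := by push_cast; ring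
    calc ∑ s ∈ T, ((Ja.filter (fun j => t j = s)).card : ℝ)
        ≤ ∑ s ∈ T, D * (8 * N / (G0 * (a : ℝ) ^ 2)) * (Int.gcd a s : ℝ) := sum_le_sum hfib
      _ = D * (8 * N / (G0 * (a : ℝ) ^ 2)) * ∑ s ∈ T, (Int.gcd a s : ℝ) := by rw [mul_sum]
      _ ≤ D * (8 * N / (G0 * (a : ℝ) ^ 2)) * (2 * ρ * a * D) := by
          apply mul_le_mul_of_nonneg_left _ (by positivity)
          apply sum_gcd hρ (by omega)
          apply hD a ha.1
          calc (a : ℝ) ≤ n := by exact_mod_cast ha.2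
            _ ≤ N := hnN
      _ = 16 * ρ * N * D ^ 2 / G0 * (a : ℝ)⁻¹ := by field_simp; ring
  have hmaps : Set.MapsTo (fun j => (g j).natAbs) (J : Set ℕ) (Icc 1 n : Set ℕ) := by
    intro j hj
    have h1 := h.gpos j
    have h2 : (g j).natAbs ≤ n := by
      apply Nat.le_floor
      rw [Nat.cast_natAbs, Int.cast_abs, abs_of_pos (by linarith [h.gpos' j])]
      exact (bnd j hj).1
    rw [mem_coe, mem_Icc]
    refine ⟨?_, h2⟩
    change 1 ≤ (g j).natAbs
    omega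
  rw [card_eq_sum_card_fiberwise hmaps]
  push_cast
  calc ∑ a ∈ Icc 1 n, ((J.filter (fun j => (g j).natAbs = a)).card : ℝ)
      ≤ ∑ a ∈ Icc 1 n, 16 * ρ * N * D ^ 2 / G0 * (a : ℝ)⁻¹ := sum_le_sum hJa
    _ = 16 * ρ * N * D ^ 2 / G0 * ∑ a ∈ Icc 1 n, (a : ℝ)⁻¹ := by rw [mul_sum]
    _ ≤ 16 * ρ * N * D ^ 2 / G0 * (1 + Real.log N) := by
        apply mul_le_mul_of_nonneg_left _ (by positivity)
        have h1 := harmonic_le_one_add_log n
        rw [harmonic_eq_sum_Icc] at h1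
        push_cast at h1
        refine h1.trans ?_
        have : Real.log n ≤ Real.log N := Real.log_le_log (by exact_mod_cast hn1) hnN
        linarith

end Pool.Agent.H57.XR
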