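import Mathlib
import Pool.Agent.H57.XR.Gsd

/-!
The good points of a chain: three short steps and small contents. The generic ones.
-/

namespace Pool.Agent.H57.XR

open Finset

variable {z u : ℕ → ℤ × ℤ} {g t : ℕ → ℤ} {p : ℕ → GaussianInt}

lemma card_fib {α : Type*} [DecidableEq α] (F : Finset ℕ) (f : ℕ → α) (T : Finset α) {B : ℝ}
    (hf : ∀ j ∈ F, f j ∈ T) (hB : ∀ x ∈ T, ((F.filter (fun j => f j = x)).card : ℝ) ≤ B) :
    (F.card : ℝ) ≤ T.card * B := by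
  have h1 : Set.MapsTo f (F : Set ℕ) (T : Set α) := fun j hj => hf j hj
  rw [card_eq_sum_card_fiberwise h1]
  push_cast
  calc ∑ x ∈ T, ((F.filter (fun j => f j = x)).card : ℝ) ≤ ∑ x ∈ T, B := sum_le_sum hB
    _ = T.card * B := by rw [sum_const, nsmul_eq_mul]

lemma card_fib_int (F : Finset ℕ) (f : ℕ → ℤ) {τ B : ℝ} (hτ : 0 ≤ τ) (hB0 : 0 ≤ B)
    (hf : ∀ j ∈ F, |(f j : ℝ)| ≤ τ)
    (hB : ∀ x : ℤ, ((F.filter (fun j => f j = x)).card : ℝ) ≤ B) :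
    (F.card : ℝ) ≤ (2 * τ + 1) * B := by
  have h1 := card_fib F f (Icc (-⌊τ⌋) ⌊τ⌋) (B := B) (by
    intro j hj
    have h2 := hf j hj
    rw [abs_le] at h2
    rw [mem_Icc]
    constructor
    · have : -(f j) ≤ ⌊τ⌋ := by rw [Int.le_floor]; push_cast; linarith [h2.1]
      omega
    · rw [Int.le_floor]; exact h2.2) (fun x _ => hB x)
  have h2 : ((Icc (-⌊τ⌋) ⌊τ⌋).card : ℝ) ≤ 2 * τ + 1 := by
    rw [Int.card_Icc]
    have hfl : 0 ≤ ⌊τ⌋ := Int.floor_nonneg.mpr hτ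
    have h3 : (((⌊τ⌋ + 1 - -⌊τ⌋).toNat : ℤ) : ℝ) = 2 * (⌊τ⌋ : ℝ) + 1 := by
      rw [Int.toNat_of_nonneg (by omega)]; push_cast; ring
    have h4 := Int.floor_le τ
    rw [Int.cast_natCast] at h3
    rw [h3]; linarith
  calc (F.card : ℝ) ≤ _ := h1
    _ ≤ (2 * τ + 1) * B := by gcongr

lemma card_fib_pos (F : Finset ℕ) (f : ℕ → ℤ) {G B : ℝ} (hG : 0 ≤ G) (hB0 : 0 ≤ B)
    (hf : ∀ j ∈ F, 0 < f j ∧ (f j : ℝ) ≤ G)
    (hB : ∀ x : ℤ, ((F.filter (fun j => f j = x)).card : ℝ) ≤ B) :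
    (F.card : ℝ) ≤ G * B := by
  have h1 := card_fib F f (Icc 1 ⌊G⌋) (B := B) (by
    intro j hj
    have h2 := hf j hj
    rw [mem_Icc]
    refine ⟨by omega, ?_⟩
    rw [Int.le_floor]; exact h2.2) (fun x _ => hB x)
  have h2 : ((Icc 1 ⌊G⌋).card : ℝ) ≤ G := by
    rw [Int.card_Icc]
    have hfl : 0 ≤ ⌊G⌋ := Int.floor_nonneg.mpr hG
    have h3 : (((⌊G⌋ + 1 - 1).toNat : ℤ) : ℝ) = (⌊G⌋ : ℝ) := by
      rw [Int.toNat_of_nonneg (by omega)]; push_cast; ring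
    have h4 := Int.floor_le G
    rw [Int.cast_natCast] at h3
    rw [h3]; exact h4
  calc (F.card : ℝ) ≤ _ := h1
    _ ≤ G * B := by gcongr

/-- Data of the shifted chain. -/
lemma Data.shift (h : Data z u g t p) (i : ℕ) : Data (fun j => z (j + i)) (fun j => u (j + i))
    (fun j => g (j + i)) (fun j => t (j + i)) (fun j => p (j + i)) := by
  have e : ∀ j, j + 1 + i = j + i + 1 := fun j => by omega
  refine ⟨⟨?_, fun j => h.chain.step _, ?_⟩, fun j => h.gpos _, fun j => h.prim _,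
    fun j => h.tne _, ?_, fun j => h.nz _, fun j => h.nu _⟩
  · simp only [zero_add]; exact h.chain.ne i
  · intro j; simp only [e]; exact h.chain.next _
  · intro j; simp only [e]; exact h.next _

/-- The good points. -/
structure Good (z u : ℕ → ℤ × ℤ) (g : ℕ → ℤ) (N N1 Rs G0 : ℝ) (j : ℕ) : Prop where
  low : N1 ≤ nrm (z j)
  high : (nrm (z (j + 2)) : ℝ) ≤ N
  s0 : (nrm (u j) : ℝ) ≤ Rs
  s1 : (nrm (u (j + 1)) : ℝ) ≤ Rs
  s2 : (nrm (u (j + 2)) : ℝ) ≤ Rs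
  g0 : (g j : ℝ) ≤ G0
  g1 : (g (j + 1) : ℝ) ≤ G0
  g2 : (g (j + 2) : ℝ) ≤ G0

lemma Data.abs_t (h : Data z u g t p) (j : ℕ) : 1 ≤ |(t j : ℝ)| := by
  have : (1 : ℤ) ≤ |t j| := Int.one_le_abs (h.tne j)
  exact_mod_cast this

/-- Bounds at one point: `nrm z ≥ N1`, `nrm u ≤ Rs`, `g ≤ G0`. -/
lemma Data.bounds (h : Data z u g t p) {N1 Rs G0 Gm τ : ℝ} {j : ℕ} (hGm : 0 < Gm) (hτ : 0 < τ)
    (h1 : N1 ≤ nrm (z j)) (h2 : (nrm (u j) : ℝ) ≤ Rs) (h3 : (g j : ℝ) ≤ G0)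
    (hGm2 : Gm ^ 2 * Rs ≤ N1) (hτ2 : Rs * G0 ^ 2 ≤ τ ^ 2 * N1) (hN1 : 0 < N1) :
    ((p j).norm : ℝ) ≤ Rs ∧ Gm ≤ g j ∧ |(t j : ℝ)| ≤ τ := by
  have a1 := h.norm_pos j
  have a2 := h.abs_t j
  have a3 := h.nz' j
  have a4 := h.nu' j
  have a5 := h.gpos' j
  have a6 : (1 : ℝ) ≤ (t j : ℝ) ^ 2 := by rw [← sq_abs]; nlinarith
  have hp : ((p j).norm : ℝ) ≤ Rs := by nlinarith
  refine ⟨hp, ?_, ?_⟩
  · apply le_of_sq_le_sq _ (by linarith)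
    have h4 : Gm ^ 2 * Rs ≤ (g j : ℝ) ^ 2 * Rs := by
      calc Gm ^ 2 * Rs ≤ N1 := hGm2
        _ ≤ nrm (z j) := h1
        _ = (g j : ℝ) ^ 2 * ((p j).norm : ℝ) := a3
        _ ≤ (g j : ℝ) ^ 2 * Rs := by gcongr
    exact le_of_mul_le_mul_right h4 (by linarith)
  · apply abs_le_of_sq_le_sq _ hτ.le
    have h4 : (t j : ℝ) ^ 2 * N1 ≤ τ ^ 2 * N1 := by
      calc (t j : ℝ) ^ 2 * N1 ≤ (t j : ℝ) ^ 2 * nrm (z j) := by gcongr
        _ = (t j : ℝ) ^ 2 * ((p j).norm : ℝ) * (g j : ℝ) ^ 2 := by rw [a3]; ring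
        _ = nrm (u j) * (g j : ℝ) ^ 2 := by rw [a4]
        _ ≤ Rs * G0 ^ 2 := by
            have : (0 : ℝ) ≤ Rs := by linarith
            gcongr
        _ ≤ τ ^ 2 * N1 := hτ2
    exact le_of_mul_le_mul_right h4 hN1

/-- The least common multiple attached to two steps. -/
noncomputable def om2 (g t : ℕ → ℤ) (j : ℕ) : GaussianInt :=
  omg ⟨g j, t j⟩ (g (j + 1)) ⟨g (j + 1), t (j + 1)⟩ (g (j + 2))

lemma Data.om2_spec (h : Data z u g t p) (j : ℕ) : om2 g t j ∣ p (j + 1) ∧ om2 g t j ≠ 0 := by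
  obtain ⟨c, c', k, m, T, _, _, _, _, h1, h2, _⟩ := two_step (h.gpos j) (h.gpos (j + 1))
    (h.gpos (j + 2)) (h.prim j) (h.prim (j + 1)) (h.next j) (h.next (j + 1))
  exact ⟨h1, h2⟩

/-- All parameters fixed. -/
lemma Data.fiber_all (h : Data z u g t p) {Rs W : ℝ} (hRs : 0 ≤ Rs) (hW : 0 < W) (F : Finset ℕ)
    {a s b r c : ℤ} (hF : ∀ j ∈ F, g j = a ∧ t j = s ∧ g (j + 1) = b ∧ t (j + 1) = r ∧
      g (j + 2) = c ∧ ((p (j + 1)).norm : ℝ) ≤ Rs ∧ W ≤ ((om2 g t j).norm : ℝ)) :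
    (F.card : ℝ) ≤ 8 * Rs / W := by
  rcases F.eq_empty_or_nonempty with h0 | ⟨j, hj⟩
  · rw [h0, card_empty]; push_cast; positivity
  have hom : ∀ i ∈ F, om2 g t i = om2 g t j := by
    intro i hi
    obtain ⟨a1, a2, a3, a4, a5, _⟩ := hF i hi
    obtain ⟨b1, b2, b3, b4, b5, _⟩ := hF j hj
    unfold om2
    rw [a1, a2, a3, a4, a5, b1, b2, b3, b4, b5]
  have h1 := h.fiber_mult (c := b) (h.om2_spec j).2 hRs F (by
    intro i hi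
    refine ⟨(hF i hi).2.2.1, ?_, (hF i hi).2.2.2.2.2.1⟩
    rw [← hom i hi]
    exact (h.om2_spec i).1)
  rw [le_div_iff₀ hW]
  calc (F.card : ℝ) * W ≤ F.card * ((om2 g t j).norm : ℝ) := by
        gcongr
        exact (hF j hj).2.2.2.2.2.2
    _ ≤ 8 * Rs := h1

/-- The generic good points. -/
lemma Data.generic (h : Data z u g t p) {N N1 Rs G0 Gm τ Ω D : ℝ} (hG0 : 0 ≤ G0)
    (hGm : 0 < Gm) (hτ : 0 < τ) (hRs : 0 ≤ Rs) (hΩ : 0 < Ω) (hD0 : 0 ≤ D)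
    (hGm2 : Gm ^ 2 * Rs ≤ N1) (hτ2 : Rs * G0 ^ 2 ≤ τ ^ 2 * N1) (hN1 : 0 < N1)
    (hD : ∀ n : ℕ, 1 ≤ n → (n : ℝ) ≤ N → (n.divisors.card : ℝ) ≤ D) (J : Finset ℕ)
    (hJ : ∀ j ∈ J, Good z u g N N1 Rs G0 j ∧ Ω ≤ ((om2 g t j).norm : ℝ)) :
    (J.card : ℝ) ≤ G0 * ((2 * τ + 1) * (D * ((2 * τ + 1) * (D * (8 * Rs / Ω))))) := by
  have mono : ∀ j, (nrm (z j) : ℝ) ≤ nrm (z (j + 1)) := by
    intro j
    have := h.chain.mono.monotone (Nat.le_succ j)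
    exact_mod_cast this
  have b0 : ∀ j ∈ J, ((p j).norm : ℝ) ≤ Rs ∧ Gm ≤ g j ∧ |(t j : ℝ)| ≤ τ := fun j hj =>
    h.bounds hGm hτ (hJ j hj).1.low (hJ j hj).1.s0 (hJ j hj).1.g0 hGm2 hτ2 hN1
  have b1 : ∀ j ∈ J, ((p (j + 1)).norm : ℝ) ≤ Rs ∧ Gm ≤ g (j + 1) ∧ |(t (j + 1) : ℝ)| ≤ τ :=
    fun j hj => h.bounds hGm hτ ((hJ j hj).1.low.trans (mono j)) (hJ j hj).1.s1 (hJ j hj).1.g1
      hGm2 hτ2 hN1
  have hq1 : 0 ≤ 8 * Rs / Ω := by positivity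
  apply card_fib_pos J g hG0 (by positivity) (fun j hj => ⟨h.gpos j, (hJ j hj).1.g0⟩)
  intro a
  apply card_fib_int _ t hτ.le (by positivity) (fun j hj => (b0 j (mem_of_mem_filter j hj)).2.2)
  intro s
  apply h.card_next (N := N) (a := a) (b := s) (by positivity) hD0 hD
  · intro j hj
    simp only [mem_filter] at hj
    exact ⟨hj.1.2, hj.2, (mono (j + 1)).trans (hJ j hj.1.1).1.high⟩
  intro b
  apply card_fib_int _ (fun j => t (j + 1)) hτ.le (by positivity) (fun j hj => by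
    simp only [mem_filter] at hj
    exact (b1 j hj.1.1.1).2.2)
  intro r
  apply (h.shift 1).card_next (N := N) (a := b) (b := r) (by positivity) hD0 hD
  · intro j hj
    simp only [mem_filter] at hj
    exact ⟨hj.1.2, hj.2, (hJ j hj.1.1.1.1).1.high⟩
  intro c
  apply h.fiber_all hRs hΩ _ (a := a) (s := s) (b := b) (r := r) (c := c)
  intro j hj
  simp only [mem_filter] at hj
  exact ⟨hj.1.1.1.1.2, hj.1.1.1.2, hj.1.1.2, hj.1.2, hj.2, (b1 j hj.1.1.1.1.1).1,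
    (hJ j hj.1.1.1.1.1).2⟩

end Pool.Agent.H57.XR
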