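import Mathlib
import Pool.Agent.H57.XR.Gse

/-!
The special good points of a chain: they lie on few conics.
-/

namespace Pool.Agent.H57.XR

open Finset

variable {z u : ℕ → ℤ × ℤ} {g t : ℕ → ℤ} {p : ℕ → GaussianInt}

lemma le_of_dvd_abs {c s : ℤ} {τ : ℝ} (hs : s ≠ 0) (h : c ∣ s) (hτ : |(s : ℝ)| ≤ τ) :
    (c : ℝ) ≤ τ := by
  have h1 : c ≤ |s| := Int.le_of_dvd (abs_pos.mpr hs) ((dvd_abs c s).mpr h)
  have h2 : (c : ℝ) ≤ |(s : ℝ)| := by exact_mod_cast h1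
  exact h2.trans hτ

/-- The parameters of a special point. -/
lemma Data.special_data (h : Data z u g t p) {N N1 Rs G0 Gm τ Ω Kl : ℝ} (hG0 : 0 < G0)
    (hGm : 0 < Gm) (hτ : 0 < τ) (hΩ : 0 < Ω) (hτG : τ ≤ G0)
    (hGm2 : Gm ^ 2 * Rs ≤ N1) (hτ2 : Rs * G0 ^ 2 ≤ τ ^ 2 * N1) (hN1 : 0 < N1)
    (hKl : Kl = Gm ^ 2 / (τ * G0)) (j : ℕ) :
    ∃ m K : ℤ, 0 < K ∧ (m * (g j ^ 2 + t j ^ 2) = K * g (j + 1) * (g j * t (j + 1) + g (j + 1) * t j)) ∧
      (m = 0 → g (j + 1) ∣ t j ^ 2 * t (j + 1) ^ 2) ∧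
      (Good z u g N N1 Rs G0 j → Kl ≤ ((om2 g t j).norm : ℝ) ∧
        (((om2 g t j).norm : ℝ) < Ω →
          |(m : ℝ)| ≤ 2 * G0 * τ / (Kl * Gm / (τ * Ω)) ∧
          (K : ℝ) ≤ 2 * G0 ^ 2 / (Kl * Gm / (τ * Ω) * Gm))) := by
  obtain ⟨c, c', k, m, T, c0, c0', k0, T0, w1, w2, w3, w4, w5, w6, w7, w8, w9, w10, w11⟩ :=
    two_step (h.gpos j) (h.gpos (j + 1)) (h.gpos (j + 2)) (h.prim j) (h.prim (j + 1))
      (h.next j) (h.next (j + 1))
  set κ := kap ⟨g j, t j⟩ (g (j + 1)) with hκ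
  set f := eff ⟨g (j + 1), t (j + 1)⟩ (g (j + 2)) with hf
  have hκω : (κ.norm : ℝ) ≤ ((om2 g t j).norm : ℝ) := by
    have h1 : om2 g t j = κ * (f / EuclideanDomain.gcd κ f) := rfl
    have h2 : om2 g t j ≠ 0 := w2
    rw [h1] at h2
    have h3 := right_ne_zero_of_mul h2
    rw [h1, Zsqrtd.norm_mul]
    push_cast
    have h4 : (1 : ℝ) ≤ ((f / EuclideanDomain.gcd κ f).norm : ℝ) := by
      exact_mod_cast norm_pos' h3
    have h5 : (0 : ℝ) ≤ (κ.norm : ℝ) := by exact_mod_cast GaussianInt.norm_nonneg κ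
    nlinarith
  refine ⟨m, k * c, by positivity, ?_, ?_, ?_⟩
  · rw [w8, w4, w7]; ring
  · intro hm
    rw [hm, zero_mul] at w8
    have e1 : g j * t (j + 1) = -(g (j + 1) * t j) := by linarith
    have e2 : (g j ^ 2 + t j ^ 2) * t (j + 1) ^ 2 =
        g (j + 1) * (g (j + 1) * t j ^ 2) + t j ^ 2 * t (j + 1) ^ 2 := by
      linear_combination (g j * t (j + 1) - g (j + 1) * t j) * e1
    have e3 : t j ^ 2 * t (j + 1) ^ 2 =
        g (j + 1) * (κ.norm * c * t (j + 1) ^ 2 - g (j + 1) * t j ^ 2) := by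
      rw [w4] at e2; linear_combination (-1 : ℤ) * e2
    exact ⟨_, e3⟩
  · intro hg
    have mono : ∀ j, (nrm (z j) : ℝ) ≤ nrm (z (j + 1)) := by
      intro j
      have := h.chain.mono.monotone (Nat.le_succ j)
      exact_mod_cast this
    obtain ⟨_, a2, a3⟩ := h.bounds hGm hτ hg.low hg.s0 hg.g0 hGm2 hτ2 hN1
    obtain ⟨_, b2, b3⟩ := h.bounds hGm hτ (hg.low.trans (mono j)) hg.s1 hg.g1 hGm2 hτ2 hN1
    obtain ⟨_, d2, _⟩ := h.bounds hGm hτ ((hg.low.trans (mono j)).trans (mono (j + 1)))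
      hg.s2 hg.g2 hGm2 hτ2 hN1
    have hcτ : (c : ℝ) ≤ τ := le_of_dvd_abs (h.tne j) w6 a3
    have hc'τ : (c' : ℝ) ≤ τ := le_of_dvd_abs (h.tne (j + 1)) w11 b3
    have hc : (0 : ℝ) < c := by exact_mod_cast c0
    have hc' : (0 : ℝ) < c' := by exact_mod_cast c0'
    have hT : (0 : ℝ) < T := by exact_mod_cast T0
    have hk : (0 : ℝ) < k := by exact_mod_cast k0
    have hb : (0 : ℝ) < g (j + 1) := by linarith
    have hg0 := hg.g0
    have hg1 := hg.g1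
    have w4' : ((g j : ℝ) ^ 2 + (t j : ℝ) ^ 2) = (κ.norm : ℝ) * (c * g (j + 1)) := by exact_mod_cast w4
    have w3' : ((om2 g t j).norm : ℝ) * T = (κ.norm : ℝ) * (f.norm : ℝ) := by exact_mod_cast w3
    have w7' : (κ.norm : ℝ) = k * T := by exact_mod_cast w7
    have w8' : (g j : ℝ) * t (j + 1) + g (j + 1) * t j = m * T := by exact_mod_cast w8
    have w9' : (g (j + 2) : ℝ) = c' * (f.norm : ℝ) := by exact_mod_cast w9
    have hκp : (0 : ℝ) < (κ.norm : ℝ) := by rw [w7']; positivity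
    have hKl' : Kl ≤ (κ.norm : ℝ) := by
      rw [hKl, div_le_iff₀ (by positivity)]
      calc Gm ^ 2 ≤ (g j : ℝ) ^ 2 := by gcongr
        _ ≤ (g j : ℝ) ^ 2 + (t j : ℝ) ^ 2 := by linarith [sq_nonneg (t j : ℝ)]
        _ = (κ.norm : ℝ) * (c * g (j + 1)) := w4'
        _ ≤ (κ.norm : ℝ) * (τ * G0) := by gcongr
    have hKl0 : 0 < Kl := by rw [hKl]; positivity
    refine ⟨hKl'.trans hκω, ?_⟩
    intro hw
    have hfn : Gm / τ ≤ (f.norm : ℝ) := by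
      rw [div_le_iff₀ hτ]
      have hf0 : (0 : ℝ) < (f.norm : ℝ) := by
        by_contra hcon
        push Not at hcon
        nlinarith
      calc Gm ≤ g (j + 2) := d2
        _ = (f.norm : ℝ) * c' := by rw [w9']; ring
        _ ≤ (f.norm : ℝ) * τ := by gcongr
    have hTlow : Kl * Gm / (τ * Ω) ≤ T := by
      have h1 : Kl * (Gm / τ) ≤ Ω * T := by
        calc Kl * (Gm / τ) ≤ (κ.norm : ℝ) * (f.norm : ℝ) := by gcongr
          _ = ((om2 g t j).norm : ℝ) * T := w3'.symm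
          _ ≤ Ω * T := by gcongr
      rw [div_le_iff₀ (by positivity)]
      calc Kl * Gm = Kl * (Gm / τ) * τ := by field_simp
        _ ≤ Ω * T * τ := by gcongr
        _ = T * (τ * Ω) := by ring
    have hT0 : 0 < Kl * Gm / (τ * Ω) := by positivity
    constructor
    · rw [le_div_iff₀ hT0]
      calc |(m : ℝ)| * (Kl * Gm / (τ * Ω)) ≤ |(m : ℝ)| * T := by gcongr
        _ = |(g j : ℝ) * t (j + 1) + g (j + 1) * t j| := by rw [w8', abs_mul, abs_of_pos hT]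
        _ ≤ |(g j : ℝ)| * |(t (j + 1) : ℝ)| + |(g (j + 1) : ℝ)| * |(t j : ℝ)| := by
            rw [← abs_mul, ← abs_mul]; exact abs_add_le _ _
        _ ≤ G0 * τ + G0 * τ := by
            have e1 : |(g j : ℝ)| = g j := abs_of_pos (by linarith)
            have e2 : |(g (j + 1) : ℝ)| = g (j + 1) := abs_of_pos hb
            rw [e1, e2]
            gcongr
        _ = 2 * G0 * τ := by ring
    · rw [le_div_iff₀ (by positivity)]
      push_cast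
      have h1 : (t j : ℝ) ^ 2 ≤ G0 ^ 2 := by
        rw [← sq_abs]
        have := a3.trans hτG
        gcongr
      have h2 : (g j : ℝ) ^ 2 ≤ G0 ^ 2 := by
        have : (0 : ℝ) ≤ g j := by linarith
        gcongr
      calc (k : ℝ) * c * (Kl * Gm / (τ * Ω) * Gm) ≤ (k : ℝ) * c * (T * g (j + 1)) := by gcongr
        _ = (g j : ℝ) ^ 2 + (t j : ℝ) ^ 2 := by rw [w4', w7']; ring
        _ ≤ 2 * G0 ^ 2 := by linarith

/-- The special good points. -/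
lemma Data.special (h : Data z u g t p) {N N1 Rs G0 Gm τ Ω D Kl M0 K0 : ℝ} (hG0 : 0 < G0)
    (hGm : 0 < Gm) (hτ : 0 < τ) (hRs : 0 ≤ Rs) (hΩ : 0 < Ω) (hD0 : 0 ≤ D) (hτG : τ ≤ G0)
    (hGmG : Gm ≤ G0)
    (hGm2 : Gm ^ 2 * Rs ≤ N1) (hτ2 : Rs * G0 ^ 2 ≤ τ ^ 2 * N1) (hN1 : 0 < N1)
    (hD : ∀ n : ℕ, 1 ≤ n → (n : ℝ) ≤ N → (n.divisors.card : ℝ) ≤ D)
    (hKl : Kl = Gm ^ 2 / (τ * G0)) (hM0 : 2 * G0 * τ / (Kl * Gm / (τ * Ω)) ≤ M0)
    (hK0 : 2 * G0 ^ 2 / (Kl * Gm / (τ * Ω) * Gm) ≤ K0) (hτ4 : τ ^ 4 < Gm)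
    (hMG : 8 * M0 ^ 2 * τ ^ 2 ≤ Gm ^ 2) (J : Finset ℕ)
    (hJ : ∀ j ∈ J, Good z u g N N1 Rs G0 j ∧ ((om2 g t j).norm : ℝ) < Ω) :
    (J.card : ℝ) ≤ K0 * ((2 * M0 + 1) * ((2 * τ + 1) * ((2 * τ + 1) *
      (2 * (2 * (2 * M0 * τ ^ 2 * G0 / Gm) + 1) * (D * (8 * Rs / Kl)))))) := by
  have mono : ∀ j, (nrm (z j) : ℝ) ≤ nrm (z (j + 1)) := by
    intro j
    have := h.chain.mono.monotone (Nat.le_succ j)
    exact_mod_cast this
  have b0 : ∀ j ∈ J, ((p j).norm : ℝ) ≤ Rs ∧ Gm ≤ g j ∧ |(t j : ℝ)| ≤ τ := fun j hj =>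
    h.bounds hGm hτ (hJ j hj).1.low (hJ j hj).1.s0 (hJ j hj).1.g0 hGm2 hτ2 hN1
  have b1 : ∀ j ∈ J, ((p (j + 1)).norm : ℝ) ≤ Rs ∧ Gm ≤ g (j + 1) ∧ |(t (j + 1) : ℝ)| ≤ τ :=
    fun j hj => h.bounds hGm hτ ((hJ j hj).1.low.trans (mono j)) (hJ j hj).1.s1 (hJ j hj).1.g1
      hGm2 hτ2 hN1
  have hKl0 : 0 < Kl := by rw [hKl]; positivity
  have hM0p : 0 ≤ M0 := le_trans (by positivity) hM0
  have hK0p : 0 ≤ K0 := le_trans (by positivity) hK0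
  have key := fun j => h.special_data (N := N) hG0 hGm hτ hΩ hτG hGm2 hτ2 hN1 hKl j
  choose mm KK k1 k2 k3 k4 using key
  have hq : 0 ≤ 8 * Rs / Kl := by positivity
  apply card_fib_pos J KK hK0p (by positivity) (fun j hj =>
    ⟨k1 j, (((k4 j (hJ j hj).1).2 (hJ j hj).2).2).trans hK0⟩)
  intro K
  apply card_fib_int _ mm hM0p (by positivity) (fun j hj => by
    simp only [mem_filter] at hj
    exact (((k4 j (hJ j hj.1).1).2 (hJ j hj.1).2).1).trans hM0)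
  intro m
  apply card_fib_int _ t hτ.le (by positivity) (fun j hj => by
    simp only [mem_filter] at hj
    exact (b0 j hj.1.1).2.2)
  intro s
  apply card_fib_int _ (fun j => t (j + 1)) hτ.le (by positivity) (fun j hj => by
    simp only [mem_filter] at hj
    exact (b1 j hj.1.1.1).2.2)
  intro r
  set F := (((J.filter (fun j => KK j = K)).filter (fun j => mm j = m)).filter
    (fun j => t j = s)).filter (fun j => t (j + 1) = r) with hF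
  have hFm : ∀ j ∈ F, j ∈ J ∧ KK j = K ∧ mm j = m ∧ t j = s ∧ t (j + 1) = r := by
    intro j hj
    rw [hF] at hj
    simp only [mem_filter] at hj
    exact ⟨hj.1.1.1.1, hj.1.1.1.2, hj.1.1.2, hj.1.2, hj.2⟩
  have hB0 : 0 ≤ D * (8 * Rs / Kl) := by positivity
  have hfibers : ((F.card : ℕ) : ℝ) ≤ ((F.image (fun j => (g j, g (j + 1)))).card : ℝ) *
      (D * (8 * Rs / Kl)) := by
    apply card_fib F (fun j => (g j, g (j + 1))) _ (fun j hj => mem_image_of_mem _ hj)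
    intro x _
    apply (h.shift 1).card_next (N := N) (a := x.2) (b := r) hq hD0 hD
    · intro j hj
      rw [mem_filter] at hj
      obtain ⟨hj1, hj2⟩ := hj
      obtain ⟨e1, e2, e3, e4, e5⟩ := hFm j hj1
      exact ⟨congrArg Prod.snd hj2, e5, (hJ j e1).1.high⟩
    intro c
    apply h.fiber_all hRs hKl0 _ (a := x.1) (s := s) (b := x.2) (r := r) (c := c)
    intro j hj
    rw [mem_filter, mem_filter] at hj
    obtain ⟨⟨hj1, hj2⟩, hj3⟩ := hj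
    obtain ⟨e1, e2, e3, e4, e5⟩ := hFm j hj1
    exact ⟨congrArg Prod.fst hj2, e4, congrArg Prod.snd hj2, e5, hj3, (b1 j e1).1,
      (k4 j (hJ j e1).1).1⟩
  refine hfibers.trans (mul_le_mul_of_nonneg_right ?_ hB0)
  have hDp : 0 ≤ 2 * M0 * τ ^ 2 * G0 / Gm := by positivity
  rcases F.eq_empty_or_nonempty with h0 | ⟨j0, hj0⟩
  · rw [h0, image_empty, card_empty]; push_cast; linarith
  obtain ⟨e1, e2, e3, e4, e5⟩ := hFm j0 hj0
  have hs0 : s ≠ 0 := by rw [← e4]; exact h.tne j0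
  have hsτ : |(s : ℝ)| ≤ τ := by rw [← e4]; exact (b0 j0 e1).2.2
  have hrτ : |(r : ℝ)| ≤ τ := by rw [← e5]; exact (b1 j0 e1).2.2
  have hmM : |(m : ℝ)| ≤ M0 := by
    rw [← e3]
    exact (((k4 j0 (hJ j0 e1).1).2 (hJ j0 e1).2).1).trans hM0
  have hm0 : m ≠ 0 := by
    intro hm0
    have h1 := k3 j0 (by rw [e3, hm0])
    rw [e4, e5] at h1
    have h2 : g (j0 + 1) ≤ s ^ 2 * r ^ 2 := by
      apply Int.le_of_dvd _ h1
      have hr0 : r ≠ 0 := by rw [← e5]; exact h.tne _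
      positivity
    have h3 : (g (j0 + 1) : ℝ) ≤ (s : ℝ) ^ 2 * (r : ℝ) ^ 2 := by exact_mod_cast h2
    have h4 : (s : ℝ) ^ 2 * (r : ℝ) ^ 2 ≤ τ ^ 2 * τ ^ 2 := by
      rw [← sq_abs (s : ℝ), ← sq_abs (r : ℝ)]
      gcongr
    have h5 := (b1 j0 e1).2.1
    have h6 : τ ^ 2 * τ ^ 2 = τ ^ 4 := by ring
    linarith
  have hs2 : (s : ℝ) ^ 2 ≤ τ ^ 2 := by rw [← sq_abs (s : ℝ)]; gcongr
  have hm2 : (m : ℝ) ^ 2 ≤ M0 ^ 2 := by rw [← sq_abs (m : ℝ)]; gcongr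
  have hc := conic (m := m) (k := K) (s := r) (t := s) hm0 hs0 hGm hGmG
    (F.image (fun j => (g j, g (j + 1)))) (by
      intro v hv
      rw [mem_image] at hv
      obtain ⟨j, hj, rfl⟩ := hv
      obtain ⟨f1, f2, f3, f4, f5⟩ := hFm j hj
      refine ⟨(b1 j f1).2.1, (hJ j f1).1.g1, ?_⟩
      have := k2 j
      rw [f2, f3, f4, f5] at this
      exact this) (by
      calc 8 * (m : ℝ) ^ 2 * s ^ 2 ≤ 8 * M0 ^ 2 * τ ^ 2 := by gcongr
        _ ≤ Gm ^ 2 := hMG)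
  refine hc.trans ?_
  have : 2 * |(m : ℝ)| * s ^ 2 * G0 / Gm ≤ 2 * M0 * τ ^ 2 * G0 / Gm := by gcongr
  linarith

end Pool.Agent.H57.XR
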