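import Mathlib
import Pool.Agent.H57.XR.Gsf
import Pool.Agent.H57.XR.Chb

/-!
The length of chains: a power saving.
-/

namespace Pool.Agent.H57.XR

open Finset

variable {z u : ℕ → ℤ × ℤ} {g t : ℕ → ℤ} {p : ℕ → GaussianInt}

lemma Chain.le_nrm (h : Chain z u) (m : ℕ) : (m : ℝ) + 1 ≤ nrm (z m) := by
  induction m with
  | zero =>
    have := nrm_pos h.start
    push_cast
    rw [zero_add]
    exact_mod_cast this
  | succ m ih =>
    have h1 := h.nrm_next m
    have h2 := h.pos m
    have h3 : (nrm (z (m + 1)) : ℝ) = nrm (z m) + nrm (u m) := by exact_mod_cast h1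
    have h4 : (1 : ℝ) ≤ nrm (u m) := by exact_mod_cast h2
    push_cast
    linarith

private lemma card_shift (m k : ℕ) (E : Finset ℕ) :
    ((range m).filter (fun i => i + k ∈ E)).card ≤ E.card := by
  apply card_le_card_of_injOn (fun i => i + k)
  · intro i hi
    rw [mem_coe, mem_filter] at hi
    exact hi.2
  · intro i _ j _ hij
    simp only at hij
    omega

/-- The covering of the indices. -/
lemma Data.cover (h : Data z u g t p) {N N1 Rs G0 Ω e l a b c : ℝ} (m : ℕ)
    (hN : (nrm (z m) : ℝ) = N)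
    (ha : (((range m).filter (fun i => (nrm (z i) : ℝ) < N1)).card : ℝ) ≤ a)
    (he : (((range m).filter (fun i => Rs < (nrm (u i) : ℝ))).card : ℝ) ≤ e)
    (hl : (((range m).filter (fun i => N1 ≤ nrm (z i) ∧ (nrm (z (i + 1)) : ℝ) ≤ N ∧
      (nrm (u i) : ℝ) ≤ Rs ∧ G0 ≤ g (i + 1))).card : ℝ) ≤ l)
    (hb : ∀ J : Finset ℕ, (∀ j ∈ J, Good z u g N N1 Rs G0 j ∧ Ω ≤ ((om2 g t j).norm : ℝ)) →
      (J.card : ℝ) ≤ b)
    (hc : ∀ J : Finset ℕ, (∀ j ∈ J, Good z u g N N1 Rs G0 j ∧ ((om2 g t j).norm : ℝ) < Ω) →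
      (J.card : ℝ) ≤ c) : (m : ℝ) ≤ a + 3 + 4 * e + 3 * l + b + c := by
  classical
  have mono : ∀ {i j : ℕ}, i ≤ j → (nrm (z i) : ℝ) ≤ nrm (z j) := by
    intro i j hij
    have := h.chain.mono.monotone hij
    exact_mod_cast this
  set A := (range m).filter (fun i => (nrm (z i) : ℝ) < N1) with hA
  set T := (range m).filter (fun i => m ≤ i + 3) with hT
  set E := (range m).filter (fun i => Rs < (nrm (u i) : ℝ)) with hE
  set L := (range m).filter (fun i => N1 ≤ nrm (z i) ∧ (nrm (z (i + 1)) : ℝ) ≤ N ∧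
      (nrm (u i) : ℝ) ≤ Rs ∧ G0 ≤ g (i + 1)) with hL
  set B := (range m).filter (fun j => Good z u g N N1 Rs G0 j ∧ Ω ≤ ((om2 g t j).norm : ℝ)) with hB
  set C := (range m).filter (fun j => Good z u g N N1 Rs G0 j ∧ ((om2 g t j).norm : ℝ) < Ω) with hC
  set S := fun (k : ℕ) (X : Finset ℕ) => (range m).filter (fun i => i + k ∈ X) with hS
  have hsub : range m ⊆ A ∪ (T ∪ (S 0 E ∪ (S 1 E ∪ (S 2 E ∪ (S 3 E ∪ (S 0 L ∪ (S 1 L ∪ (S 2 L ∪
      (S 1 B ∪ S 1 C))))))))) := by
    intro i hi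
    have him := mem_range.mp hi
    by_cases h1 : i ∈ A
    · exact mem_union_left _ h1
    have h1' : N1 ≤ nrm (z i) := by
      rw [hA, mem_filter] at h1
      push Not at h1
      exact h1 hi
    apply mem_union_right
    by_cases h2 : i ∈ T
    · exact mem_union_left _ h2
    have h2' : i + 3 < m := by
      rw [hT, mem_filter] at h2
      push Not at h2
      exact h2 hi
    apply mem_union_right
    have hNk : ∀ k ≤ 3, (nrm (z (i + k)) : ℝ) ≤ N := fun k hk => by
      rw [← hN]; exact mono (by omega)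
    have step : ∀ k ≤ 3, i ∉ S k E → (nrm (u (i + k)) : ℝ) ≤ Rs := by
      intro k hk hn
      rw [hS] at hn
      simp only [mem_filter, hE, mem_range] at hn
      push Not at hn
      exact hn him (by omega)
    by_cases h3 : i ∈ S 0 E
    · exact mem_union_left _ h3
    apply mem_union_right
    by_cases h4 : i ∈ S 1 E
    · exact mem_union_left _ h4
    apply mem_union_right
    by_cases h5 : i ∈ S 2 E
    · exact mem_union_left _ h5
    apply mem_union_right
    by_cases h6 : i ∈ S 3 E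
    · exact mem_union_left _ h6
    apply mem_union_right
    have s0 := step 0 (by omega) h3
    have s1 := step 1 (by omega) h4
    have s2 := step 2 (by omega) h5
    have s3 := step 3 (by omega) h6
    have cont : ∀ k ≤ 2, (nrm (u (i + k)) : ℝ) ≤ Rs → i ∉ S k L → (g (i + k + 1) : ℝ) ≤ G0 := by
      intro k hk hu hn
      rw [hS] at hn
      simp only [mem_filter, hL, mem_range] at hn
      push Not at hn
      exact (hn him (by omega) (h1'.trans (mono (by omega)))
        (by have := hNk (k + 1) (by omega); rwa [← add_assoc] at this) hu).le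
    by_cases h7 : i ∈ S 0 L
    · exact mem_union_left _ h7
    apply mem_union_right
    by_cases h8 : i ∈ S 1 L
    · exact mem_union_left _ h8
    apply mem_union_right
    by_cases h9 : i ∈ S 2 L
    · exact mem_union_left _ h9
    apply mem_union_right
    have g0 := cont 0 (by omega) s0 h7
    have g1 := cont 1 (by omega) s1 h8
    have g2 := cont 2 (by omega) s2 h9
    have hgood : Good z u g N N1 Rs G0 (i + 1) :=
      ⟨h1'.trans (mono (by omega)), hNk 3 le_rfl, s1, s2, s3, g0, g1, g2⟩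
    rcases le_or_gt Ω (((om2 g t (i + 1)).norm : ℝ)) with h10 | h10
    · apply mem_union_left
      rw [hS]
      simp only [mem_filter, hB, mem_range]
      exact ⟨him, by omega, hgood, h10⟩
    · apply mem_union_right
      rw [hS]
      simp only [mem_filter, hC, mem_range]
      exact ⟨him, by omega, hgood, h10⟩
  have hcard := card_le_card hsub
  rw [card_range] at hcard
  have u1 := card_union_le A (T ∪ (S 0 E ∪ (S 1 E ∪ (S 2 E ∪ (S 3 E ∪ (S 0 L ∪ (S 1 L ∪ (S 2 L ∪
      (S 1 B ∪ S 1 C)))))))))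
  have u2 := card_union_le T (S 0 E ∪ (S 1 E ∪ (S 2 E ∪ (S 3 E ∪ (S 0 L ∪ (S 1 L ∪ (S 2 L ∪
      (S 1 B ∪ S 1 C))))))))
  have u3 := card_union_le (S 0 E) (S 1 E ∪ (S 2 E ∪ (S 3 E ∪ (S 0 L ∪ (S 1 L ∪ (S 2 L ∪
      (S 1 B ∪ S 1 C)))))))
  have u4 := card_union_le (S 1 E) (S 2 E ∪ (S 3 E ∪ (S 0 L ∪ (S 1 L ∪ (S 2 L ∪
      (S 1 B ∪ S 1 C))))))
  have u5 := card_union_le (S 2 E) (S 3 E ∪ (S 0 L ∪ (S 1 L ∪ (S 2 L ∪ (S 1 B ∪ S 1 C)))))
  have u6 := card_union_le (S 3 E) (S 0 L ∪ (S 1 L ∪ (S 2 L ∪ (S 1 B ∪ S 1 C))))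
  have u7 := card_union_le (S 0 L) (S 1 L ∪ (S 2 L ∪ (S 1 B ∪ S 1 C)))
  have u8 := card_union_le (S 1 L) (S 2 L ∪ (S 1 B ∪ S 1 C))
  have u9 := card_union_le (S 2 L) (S 1 B ∪ S 1 C)
  have u10 := card_union_le (S 1 B) (S 1 C)
  have v0 : (S 0 E).card ≤ E.card := card_shift m 0 E
  have v1 : (S 1 E).card ≤ E.card := card_shift m 1 E
  have v2 : (S 2 E).card ≤ E.card := card_shift m 2 E
  have v3 : (S 3 E).card ≤ E.card := card_shift m 3 E
  have v4 : (S 0 L).card ≤ L.card := card_shift m 0 L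
  have v5 : (S 1 L).card ≤ L.card := card_shift m 1 L
  have v6 : (S 2 L).card ≤ L.card := card_shift m 2 L
  have v7 : (S 1 B).card ≤ B.card := card_shift m 1 B
  have v8 : (S 1 C).card ≤ C.card := card_shift m 1 C
  have hTc : T.card ≤ 3 := by
    have : T ⊆ Ico (m - 3) m := by
      intro i hi
      rw [hT, mem_filter, mem_range] at hi
      rw [mem_Ico]
      omega
    calc T.card ≤ (Ico (m - 3) m).card := card_le_card this
      _ ≤ 3 := by rw [Nat.card_Ico]; omega
  have hb' := hb B (fun j hj => (mem_filter.mp hj).2)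
  have hc' := hc C (fun j hj => (mem_filter.mp hj).2)
  have total : m ≤ A.card + 3 + 4 * E.card + 3 * L.card + B.card + C.card := by omega
  have total' : (m : ℝ) ≤ A.card + 3 + 4 * E.card + 3 * L.card + B.card + C.card := by
    exact_mod_cast total
  linarith

end Pool.Agent.H57.XR
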