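import Mathlib
import Pool.Agent.H57.XR.Gsg

/-!
The length of chains: at most a constant times `N ^ (799 / 1600)`.
-/

namespace Pool.Agent.H57.XR

open Finset

private lemma pd {y : ℝ} (hy : 0 < y) (a b : ℕ) : y ^ (a + b) / y ^ b = y ^ a := by
  rw [pow_add, mul_div_assoc, div_self (pow_ne_zero b hy.ne'), mul_one]

/-- Chains are short. -/
theorem len_saving : ∃ C : ℝ, 0 < C ∧ ∀ z u : ℕ → ℤ × ℤ, Chain z u →
    ∀ m : ℕ, (m : ℝ) ≤ C * (nrm (z m) : ℝ) ^ (799 / 1600 : ℝ) := by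
  obtain ⟨C1, hC1, hlen⟩ := len_bound (ε := 1 / 1600) (by norm_num)
  obtain ⟨C0, hC0, hdiv⟩ := Pool.Agent.H5.W.divisor_bound (1 / 1600) (by norm_num)
  refine ⟨(2 : ℝ) ^ 1600 + (C1 + 8 + 3 * (25616 * C0 ^ 2) + 72 * C0 ^ 2 + 12960 * C0),
    by positivity, fun z u h m => ?_⟩
  set N : ℝ := (nrm (z m) : ℝ) with hN
  have hmN := h.le_nrm m
  rw [← hN] at hmN
  have hN1 : 1 ≤ N := by
    have : (0 : ℝ) ≤ m := Nat.cast_nonneg m
    linarith
  have hN0 : 0 < N := by linarith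
  set y : ℝ := N ^ (1 / 1600 : ℝ) with hy
  have hy1 : 1 ≤ y := Real.one_le_rpow hN1 (by norm_num)
  have hy0 : 0 < y := by linarith
  have hyN : y ^ 1600 = N := by
    rw [hy, ← Real.rpow_natCast, ← Real.rpow_mul hN0.le]
    norm_num
  have hyp : N ^ (799 / 1600 : ℝ) = y ^ 799 := by
    rw [hy, ← Real.rpow_natCast (N ^ (1 / 1600 : ℝ)), ← Real.rpow_mul hN0.le]
    norm_num
  rw [hyp]
  have hpow1 : ∀ n : ℕ, 1 ≤ y ^ n := fun n => one_le_pow₀ hy1
  have hrest : 0 ≤ C1 + 8 + 3 * (25616 * C0 ^ 2) + 72 * C0 ^ 2 + 12960 * C0 := by positivity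
  rcases lt_or_ge y 2 with hy2 | hy2
  · calc (m : ℝ) ≤ N := by linarith
      _ = y ^ 1600 := hyN.symm
      _ ≤ (2 : ℝ) ^ 1600 := by gcongr
      _ ≤ ((2 : ℝ) ^ 1600 + (C1 + 8 + 3 * (25616 * C0 ^ 2) + 72 * C0 ^ 2 + 12960 * C0)) * 1 := by
          rw [mul_one]; linarith
      _ ≤ _ := by gcongr; exact hpow1 799
  obtain ⟨g, t, p, hd⟩ := h.data
  have hD : ∀ n : ℕ, 1 ≤ n → (n : ℝ) ≤ N → (n.divisors.card : ℝ) ≤ C0 * y := by
    intro n hn hnN
    refine (hdiv n hn).trans ?_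
    rw [hy]
    gcongr
  have hlog : 1 + Real.log N ≤ 1601 * y := by
    rw [← hyN, Real.log_pow]
    have := Real.log_le_sub_one_of_pos hy0
    push_cast
    linarith
  have hlog0 : 0 ≤ Real.log N := Real.log_nonneg hN1
  have hD0 : 0 ≤ C0 * y := by positivity
  have htau : 2 * y ^ 10 + 1 ≤ 3 * y ^ 10 := by linarith [hpow1 10]
  have hcov := hd.cover (N := N) (N1 := y ^ 1596) (Rs := y ^ 802) (G0 := y ^ 407) (Ω := y ^ 432)
    (a := C1 * y ^ 799 + 1) (e := y ^ 798) (l := 25616 * C0 ^ 2 * y ^ 799)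
    (b := 72 * C0 ^ 2 * y ^ 799) (c := 12960 * C0 * y ^ 731) m rfl ?_ ?_ ?_ ?_ ?_
  · have e1 : y ^ 798 ≤ y ^ 799 := pow_le_pow_right₀ hy1 (by norm_num)
    have e2 : y ^ 731 ≤ y ^ 799 := pow_le_pow_right₀ hy1 (by norm_num)
    have e3 := hpow1 799
    have e4 : 12960 * C0 * y ^ 731 ≤ 12960 * C0 * y ^ 799 := by gcongr
    have e6 : (C1 + 8 + 3 * (25616 * C0 ^ 2) + 72 * C0 ^ 2 + 12960 * C0) * y ^ 799 =
        C1 * y ^ 799 + 8 * y ^ 799 + 3 * (25616 * C0 ^ 2 * y ^ 799) + 72 * C0 ^ 2 * y ^ 799 +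
          12960 * C0 * y ^ 799 := by ring
    have e7 : (m : ℝ) ≤ (C1 + 8 + 3 * (25616 * C0 ^ 2) + 72 * C0 ^ 2 + 12960 * C0) * y ^ 799 := by
      rw [e6]
      linarith
    calc (m : ℝ) ≤ (C1 + 8 + 3 * (25616 * C0 ^ 2) + 72 * C0 ^ 2 + 12960 * C0) * y ^ 799 := e7
      _ ≤ _ := by
        apply mul_le_mul_of_nonneg_right _ (by positivity)
        have : (0 : ℝ) ≤ (2 : ℝ) ^ 1600 := by positivity
        exact le_add_of_nonneg_left this
  · -- small norm
    set A := (range m).filter (fun i => (nrm (z i) : ℝ) < y ^ 1596) with hA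
    rcases A.eq_empty_or_nonempty with h0 | hne
    · rw [h0, card_empty]; push_cast; positivity
    have hmem := A.max'_mem hne
    have hsub : A ⊆ range (A.max' hne + 1) := by
      intro i hi
      rw [mem_range]
      have := A.le_max' i hi
      omega
    have h1 := card_le_card hsub
    rw [card_range] at h1
    have h2 : (A.card : ℝ) ≤ (A.max' hne : ℝ) + 1 := by exact_mod_cast h1
    have h3 := hlen z u h (A.max' hne)
    have hmem2 : (nrm (z (A.max' hne)) : ℝ) < y ^ 1596 := (mem_filter.mp hmem).2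
    have h4 : (nrm (z (A.max' hne)) : ℝ) ^ (1 / 2 + 1 / 1600 : ℝ) ≤ y ^ 799 := by
      calc (nrm (z (A.max' hne)) : ℝ) ^ (1 / 2 + 1 / 1600 : ℝ)
          ≤ (y ^ 1596) ^ (1 / 2 + 1 / 1600 : ℝ) := by
            apply Real.rpow_le_rpow _ hmem2.le (by norm_num)
            have := h.le_nrm (A.max' hne)
            have h5 : (0 : ℝ) ≤ (A.max' hne : ℕ) := Nat.cast_nonneg _
            linarith
        _ = y ^ ((1596 : ℝ) * (1 / 2 + 1 / 1600)) := by
            rw [← Real.rpow_natCast y 1596, ← Real.rpow_mul hy0.le]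
            norm_num
        _ ≤ y ^ (799 : ℝ) := Real.rpow_le_rpow_of_exponent_le hy1 (by norm_num)
        _ = y ^ 799 := by
            have := Real.rpow_natCast y 799
            push_cast at this
            exact this
    calc (A.card : ℝ) ≤ (A.max' hne : ℝ) + 1 := h2
      _ ≤ C1 * (nrm (z (A.max' hne)) : ℝ) ^ (1 / 2 + 1 / 1600 : ℝ) + 1 := by linarith
      _ ≤ C1 * y ^ 799 + 1 := by gcongr
  · -- expensive steps
    set E := (range m).filter (fun i => y ^ 802 < (nrm (u i) : ℝ)) with hE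
    have h1 : (E.card : ℝ) * y ^ 802 ≤ ∑ i ∈ E, (nrm (u i) : ℝ) := by
      rw [← nsmul_eq_mul]
      apply card_nsmul_le_sum
      intro i hi
      rw [hE, mem_filter] at hi
      exact hi.2.le
    have h2 : ∑ i ∈ E, (nrm (u i) : ℝ) ≤ ∑ i ∈ range m, (nrm (u i) : ℝ) := by
      apply sum_le_sum_of_subset_of_nonneg (filter_subset _ _)
      intro i _ _
      exact_mod_cast (h.pos i).le
    have h3 : ∑ i ∈ range m, (nrm (u i) : ℝ) ≤ N := by
      have h4 := h.sum m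
      have h5 : ∑ i ∈ range m, (nrm (u i) : ℝ) = nrm (z m) - nrm (z 0) := by exact_mod_cast h4
      rw [h5]
      have : (0 : ℝ) ≤ nrm (z 0) := by exact_mod_cast nrm_nonneg (z 0)
      linarith
    have h6 : (E.card : ℝ) * y ^ 802 ≤ y ^ 798 * y ^ 802 := by
      rw [← pow_add]
      calc (E.card : ℝ) * y ^ 802 ≤ N := by linarith
        _ = y ^ (798 + 802) := hyN.symm
    exact le_of_mul_le_mul_right h6 (by positivity)
  · -- large content
    have hr : y ^ 802 ≤ (1 / y ^ 397) ^ 2 * y ^ 1596 := by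
      have : (1 / y ^ 397) ^ 2 * y ^ 1596 = y ^ (802 + 794) / y ^ 794 := by
        rw [div_pow, one_pow, ← pow_mul]; ring
      rw [this, pd hy0]
    refine (hd.large (N := N) (N1 := y ^ 1596) (Rs := y ^ 802) (G0 := y ^ 407)
      (ρ := 1 / y ^ 397) (D := C0 * y) hN1 (by positivity) (by positivity) hr hD0 hD _
      (fun j hj => (mem_filter.mp hj).2)).trans ?_
    have e1 : 16 * (1 / y ^ 397) * N * (C0 * y) ^ 2 / y ^ 407 = 16 * C0 ^ 2 * y ^ 798 := by
      rw [← hyN]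
      have e2 : 16 * (1 / y ^ 397) * y ^ 1600 * (C0 * y) ^ 2 / y ^ 407 =
          16 * C0 ^ 2 * (y ^ (798 + 804) / y ^ 804) := by
        have : y ^ 804 = y ^ 397 * y ^ 407 := by rw [← pow_add]
        rw [this]
        field_simp
      rw [e2, pd hy0]
    rw [e1]
    calc 16 * C0 ^ 2 * y ^ 798 * (1 + Real.log N) ≤ 16 * C0 ^ 2 * y ^ 798 * (1601 * y) := by gcongr
      _ = 25616 * C0 ^ 2 * y ^ 799 := by ring
  · -- generic
    intro J hJ
    have h1 := hd.generic (N := N) (N1 := y ^ 1596) (Rs := y ^ 802) (G0 := y ^ 407) (Gm := y ^ 397)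
      (τ := y ^ 10) (Ω := y ^ 432) (D := C0 * y) (by positivity) (by positivity) (by positivity)
      (by positivity) (by positivity) hD0 (le_of_eq (by ring)) (le_of_eq (by ring)) (by positivity)
      hD J hJ
    refine h1.trans ?_
    have e1 : y ^ 802 / y ^ 432 = y ^ 370 := pd hy0 370 432
    have e2 : 8 * y ^ 802 / y ^ 432 = 8 * y ^ 370 := by rw [mul_div_assoc, e1]
    rw [e2]
    calc y ^ 407 * ((2 * y ^ 10 + 1) * (C0 * y * ((2 * y ^ 10 + 1) * (C0 * y * (8 * y ^ 370)))))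
        ≤ y ^ 407 * ((3 * y ^ 10) * (C0 * y * ((3 * y ^ 10) * (C0 * y * (8 * y ^ 370))))) := by
          gcongr
      _ = 72 * C0 ^ 2 * y ^ 799 := by ring
  · -- special
    intro J hJ
    have eK : (y ^ 397) ^ 2 / (y ^ 10 * y ^ 407) = y ^ 377 := by
      have : (y ^ 397) ^ 2 / (y ^ 10 * y ^ 407) = y ^ (377 + 417) / y ^ 417 := by
        rw [← pow_mul, ← pow_add]
      rw [this, pd hy0]
    have eT : y ^ 377 * y ^ 397 / (y ^ 10 * y ^ 432) = y ^ 332 := by
      have : y ^ 377 * y ^ 397 / (y ^ 10 * y ^ 432) = y ^ (332 + 442) / y ^ 442 := by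
        rw [← pow_add, ← pow_add]
      rw [this, pd hy0]
    have h1 := hd.special (N := N) (N1 := y ^ 1596) (Rs := y ^ 802) (G0 := y ^ 407)
      (Gm := y ^ 397) (τ := y ^ 10) (Ω := y ^ 432) (D := C0 * y) (Kl := y ^ 377)
      (M0 := 2 * y ^ 85) (K0 := 2 * y ^ 85) (by positivity) (by positivity) (by positivity)
      (by positivity) (by positivity) hD0 (pow_le_pow_right₀ hy1 (by norm_num))
      (pow_le_pow_right₀ hy1 (by norm_num)) (le_of_eq (by ring)) (le_of_eq (by ring))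
      (by positivity) hD eK.symm (by
        rw [eT]
        apply le_of_eq
        have : 2 * y ^ 407 * y ^ 10 / y ^ 332 = 2 * (y ^ (85 + 332) / y ^ 332) := by ring
        rw [this, pd hy0]) (by
        rw [eT]
        apply le_of_eq
        have : 2 * (y ^ 407) ^ 2 / (y ^ 332 * y ^ 397) = 2 * (y ^ (85 + 729) / y ^ 729) := by
          rw [← pow_mul, ← pow_add]; ring
        rw [this, pd hy0]) (by
        rw [← pow_mul]
        exact pow_lt_pow_right₀ (by linarith) (by norm_num)) (by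
        calc 8 * (2 * y ^ 85) ^ 2 * (y ^ 10) ^ 2 = 2 ^ 5 * y ^ 190 := by ring
          _ ≤ y ^ 5 * y ^ 190 := by gcongr
          _ = y ^ 195 := by ring
          _ ≤ y ^ 794 := pow_le_pow_right₀ hy1 (by norm_num)
          _ = (y ^ 397) ^ 2 := by ring) J hJ
    refine h1.trans ?_
    have e1 : 2 * (2 * y ^ 85) * (y ^ 10) ^ 2 * y ^ 407 / y ^ 397 = 4 * y ^ 115 := by
      have : 2 * (2 * y ^ 85) * (y ^ 10) ^ 2 * y ^ 407 / y ^ 397 =
          4 * (y ^ (115 + 397) / y ^ 397) := by ring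
      rw [this, pd hy0]
    have e2 : 8 * y ^ 802 / y ^ 377 = 8 * y ^ 425 := by
      rw [mul_div_assoc, show (802 : ℕ) = 425 + 377 from rfl, pd hy0]
    rw [e1, e2]
    have f1 : 2 * (2 * y ^ 85) + 1 ≤ 5 * y ^ 85 := by linarith [hpow1 85]
    have f2 : 2 * (2 * (4 * y ^ 115) + 1) ≤ 18 * y ^ 115 := by linarith [hpow1 115]
    calc 2 * y ^ 85 * ((2 * (2 * y ^ 85) + 1) * ((2 * y ^ 10 + 1) * ((2 * y ^ 10 + 1) *
          (2 * (2 * (4 * y ^ 115) + 1) * (C0 * y * (8 * y ^ 425))))))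
        ≤ 2 * y ^ 85 * ((5 * y ^ 85) * ((3 * y ^ 10) * ((3 * y ^ 10) *
          ((18 * y ^ 115) * (C0 * y * (8 * y ^ 425)))))) := by gcongr
      _ = 12960 * C0 * y ^ 731 := by ring

end Pool.Agent.H57.XR
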